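import Mathlib
import Pool.Agent.H76.CR.Defs
import Pool.Agent.H6.Win.Hfun

/-!
# Local growth: definitions
-/

set_option autoImplicit false

open Complex

namespace Pool.Agent.H76.GL

open Pool.Agent.H6 Pool.Agent.H76.CR

/-- the growth of `zetaPole` in the closed disc of radius `3a` around `1 + a + it` is at most `e^Λ` -/
def Gr (a t Λ : ℝ) : Prop :=
  1 ≤ Λ ∧ ∀ z ∈ Metric.closedBall (pt a t) (3 * a),
    ‖zetaPole z‖ ≤ Real.exp Λ * ‖zetaPole (pt a t)‖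

/-- `|ζ| ≤ e^E` on the closed disc of radius `r` around `1 + it` -/
def Tame (r E t : ℝ) : Prop :=
  ∀ s : ℂ, ‖s - (1 + t * I)‖ ≤ r → ‖riemannZeta s‖ ≤ Real.exp E

theorem Gr.mono {a t Λ Λ' : ℝ} (h : Gr a t Λ) (h' : Λ ≤ Λ') : Gr a t Λ' :=
  ⟨h.1.trans h', fun z hz => (h.2 z hz).trans
    (mul_le_mul_of_nonneg_right (Real.exp_le_exp.2 h') (norm_nonneg _))⟩

theorem Tame.mono {r E E' t : ℝ} (h : Tame r E t) (h' : E ≤ E') : Tame r E' t :=
  fun s hs => (h s hs).trans (Real.exp_le_exp.2 h')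

theorem Tame.mono_r {r r' E t : ℝ} (h : Tame r E t) (h' : r' ≤ r) : Tame r' E t :=
  fun s hs => h s (hs.trans h')

end Pool.Agent.H76.GL
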