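import Mathlib
import Pool.Agent.H52.RK.DkLocalG
import Pool.Agent.H76.RP.ZcF
import Pool.Agent.H76.RP.Geo
import Pool.Agent.H76.GL.Defs

/-!
# LocT: the averaged kernel at `t ≠ 0` with local growth

PROOF: copy of `H52/RK/LocG.lean` (`loc`, `half_sum`, `tail_sum`, `locEG`, `locG_pt`) with the hypothesis
`Gr a t Λ` in place of `gv a t ≤ Λ` (the call of `grow` in `loc` is replaced by the hypothesis: `Dk_localG`
with `η = 1/2`, radius `2a`, `(1 + 1/2) (2a) = 3a`), and the error `C Λ/(a 2^k0)` kept instead of using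
`Λ ≤ 2^k0` (in `tail_sum`: `∑_(k ≥ k0) (1/2)^(k+1) ≤ (1/2)^k0`).  About 220 lines.
-/

set_option autoImplicit false

open Complex

namespace Pool.Agent.H76.GL

open Pool.Agent.H76.CR Pool.Agent.H76.RP Pool.Agent.H52.RK

open Pool.Agent.H6 Pool.Agent.H6.Win in
/-- the local formula, in terms of the zeros of `ζ` -/
private theorem loc : ∃ C : ℝ, 0 < C ∧ ∀ (a t Λ : ℝ), 0 < a → a ≤ 1 / 6 → 2 * a ≤ |t| →
    Gr a t Λ →
    ∃ S : Finset ℂ, (∀ u ∈ S, u ∈ disc (3 * a) t) ∧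
      (∀ ρ : ℂ, riemannZeta ρ = 0 → ρ.im = t → 1 - ρ.re < a → ρ ∈ S) ∧
      ∀ k : ℕ, ‖Dk a k t + ∑ u ∈ S, (analyticOrderNatAt riemannZeta u : ℂ) /
        (a + (1 + t * I - u)) ^ (k + 1)‖ ≤ C * Λ / (2 * a) ^ (k + 1) := by
  obtain ⟨C, hC, h⟩ := Dk_localG (η := 1 / 2) (by norm_num)
  refine ⟨C, hC, fun a t Λ ha ha4 hat hgr => ?_⟩
  have hΛ1 : 1 ≤ Λ := hgr.1
  obtain ⟨S, hS, -, hk⟩ := h a (2 * a) t Λ ha (by linarith) hat hΛ1
    (fun z hz => hgr.2 z (by rwa [show (1 + 1 / 2 : ℝ) * (2 * a) = 3 * a from by ring] at hz))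
  have hne : ∀ u ∈ S, u ≠ 1 := by
    rintro u hu rfl
    have h1 := ((hS 1).1 hu).1
    have h2 : |(pt a t - 1).im| ≤ ‖pt a t - 1‖ := abs_im_le_norm _
    have h3 : (pt a t - 1).im = t := by simp [pt]
    rw [h3] at h2
    linarith
  have hz : ∀ u ∈ S, riemannZeta u = 0 := fun u hu =>
    (zetaPole_eq_zero_iff (hne u hu)).1 ((hS u).1 hu).2
  refine ⟨S, fun u hu => ⟨hz u hu, ?_⟩, fun ρ hρ hρt hρa => ?_, fun k => ?_⟩
  · have h1 := ((hS u).1 hu).1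
    have h2 : u - (1 + t * I) = (u - pt a t) + (a : ℂ) := by
      unfold pt
      push_cast
      ring
    calc ‖u - (1 + t * I)‖ = ‖(u - pt a t) + (a : ℂ)‖ := by rw [h2]
      _ ≤ ‖u - pt a t‖ + ‖(a : ℂ)‖ := norm_add_le _ _
      _ = ‖pt a t - u‖ + a := by rw [norm_sub_rev, Complex.norm_of_nonneg ha.le]
      _ < 3 * a := by linarith
  · rw [hS]
    have hlt := re_lt_one hρ
    constructor
    · have h2 : pt a t - ρ = ((a + (1 - ρ.re) : ℝ) : ℂ) := by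
        apply Complex.ext
        · simp [pt]
          ring
        · simp [pt, hρt]
      rw [h2, Complex.norm_of_nonneg (by linarith)]
      linarith
    · refine (zetaPole_eq_zero_iff ?_).2 hρ
      rintro rfl
      simp at hlt
  · have h1 : ∑ u ∈ S, (analyticOrderNatAt riemannZeta u : ℂ) / (a + (1 + t * I - u)) ^ (k + 1) =
        ∑ u ∈ S, (zord u : ℂ) / (pt a t - u) ^ (k + 1) := by
      refine Finset.sum_congr rfl fun u hu => ?_
      rw [zord_eq (hne u hu)]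
      have h2 : (a : ℂ) + (1 + t * I - u) = pt a t - u := by
        unfold pt
        push_cast
        ring
      rw [h2]
    rw [h1]
    exact hk k

private theorem half_sum {k0 K : ℕ} (hk : k0 ≤ K) :
    ∑ k ∈ Finset.Ico k0 K, (1 / 2 : ℝ) ^ (k + 1) = (1 / 2) ^ k0 - (1 / 2) ^ K := by
  induction K, hk using Nat.le_induction with
  | base => simp
  | succ n hn ih =>
    rw [Finset.sum_Ico_succ_top hn, ih, pow_succ]
    ring

private theorem tail_sum {a q C Λ : ℝ} {k0 K : ℕ} (ha : 0 < a) (hq : 0 < q) (hq1 : q < 1)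
    (hk : k0 ≤ K) (hC : 0 < C) (hΛ : 1 ≤ Λ) :
    ∑ k ∈ Finset.Ico k0 K, (q * a) ^ k * (C * Λ / (2 * a) ^ (k + 1)) ≤ C * Λ / (a * 2 ^ k0) := by
  have h1 : ∀ k ∈ Finset.Ico k0 K, (q * a) ^ k * (C * Λ / (2 * a) ^ (k + 1)) ≤
      C * Λ / a * (1 / 2) ^ (k + 1) := by
    intro k _
    have h2 : (q * a) ^ k ≤ a ^ k := pow_le_pow_left₀ (by positivity) (by nlinarith) k
    have h3 : 0 ≤ C * Λ / (2 * a) ^ (k + 1) := by positivity
    calc (q * a) ^ k * (C * Λ / (2 * a) ^ (k + 1)) ≤ a ^ k * (C * Λ / (2 * a) ^ (k + 1)) :=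
          mul_le_mul_of_nonneg_right h2 h3
      _ = C * Λ / a * (1 / 2) ^ (k + 1) := by
          have ha' : a ≠ 0 := ha.ne'
          rw [mul_pow, one_div, inv_pow, pow_succ a k]
          field_simp
  refine (Finset.sum_le_sum h1).trans ?_
  rw [← Finset.mul_sum, half_sum hk]
  have h2 : (0 : ℝ) < (1 / 2) ^ K := by positivity
  have h4 : 0 < C * Λ / a := by positivity
  calc C * Λ / a * ((1 / 2) ^ k0 - (1 / 2) ^ K) ≤ C * Λ / a * (1 / 2) ^ k0 :=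
        mul_le_mul_of_nonneg_left (by linarith) h4.le
    _ = C * Λ / (a * 2 ^ k0) := by
        rw [one_div, inv_pow]
        field_simp

theorem locTE : ∃ C : ℝ, 1 ≤ C ∧ ∀ (a q t Λ : ℝ) (k0 K : ℕ), 0 < a → a ≤ 1 / 6 → 0 < q → q < 1 →
    k0 ≤ K → q ^ K ≤ 1 - q → 2 * a ≤ |t| → Gr a t Λ →
    (∑ k ∈ Finset.Ico k0 K, ((q * a : ℝ) : ℂ) ^ k * Dk a k t).re ≤
      (k0 + 1) / a * zc (3 * a) t + C * Λ / (a * 2 ^ k0) ∧
    ∀ ρ : ℂ, riemannZeta ρ = 0 → ρ.im = t → 1 - ρ.re < a →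
      (∑ k ∈ Finset.Ico k0 K, ((q * a : ℝ) : ℂ) ^ k * Dk a k t).re ≤
        -(1 / ((1 - q) * a + (1 - ρ.re))) + (k0 + 1) / a * zc (3 * a) t +
          C * Λ / (a * 2 ^ k0) := by
  obtain ⟨C, hC, h⟩ := loc
  refine ⟨C + 1, by linarith, fun a q t Λ k0 K ha ha4 hq hq1 hk hqK hat hgr => ?_⟩
  obtain ⟨S, hSd, hSρ, hS⟩ := h a t Λ ha ha4 hat hgr
  have hΛ : 1 ≤ Λ := hgr.1
  set m : ℂ → ℕ := fun u => analyticOrderNatAt riemannZeta u with hm
  set w : ℂ → ℂ := fun u => 1 + t * I - u with hw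
  set b : ℝ := (1 - q) * a with hb
  have hb0 : 0 < b := mul_pos (by linarith) ha
  have hwre : ∀ u ∈ S, 0 ≤ (w u).re := by
    intro u hu
    have h1 := re_lt_one (hSd u hu).1
    simp [hw]
    linarith
  -- the main inequality
  have key : (∑ k ∈ Finset.Ico k0 K, ((q * a : ℝ) : ℂ) ^ k * Dk a k t).re ≤
      ∑ u ∈ S, (m u : ℝ) * (-(1 / ((b : ℂ) + w u)).re + (k0 + 1) / a) + C * Λ / (a * 2 ^ k0) := by
    have h1 : ∑ k ∈ Finset.Ico k0 K, ((q * a : ℝ) : ℂ) ^ k * Dk a k t =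
        ∑ k ∈ Finset.Ico k0 K, ((q * a : ℝ) : ℂ) ^ k *
          (Dk a k t + ∑ u ∈ S, (m u : ℂ) / (a + w u) ^ (k + 1)) +
        ∑ u ∈ S, (m u : ℂ) * (-(∑ k ∈ Finset.Ico k0 K, ((q * a : ℝ) : ℂ) ^ k / (a + w u) ^ (k + 1))) := by
      have h2 : ∑ u ∈ S, (m u : ℂ) * (-(∑ k ∈ Finset.Ico k0 K, ((q * a : ℝ) : ℂ) ^ k / (a + w u) ^ (k + 1))) =
          ∑ k ∈ Finset.Ico k0 K, ∑ u ∈ S, -(((q * a : ℝ) : ℂ) ^ k * ((m u : ℂ) / (a + w u) ^ (k + 1))) := by
        rw [Finset.sum_comm]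
        refine Finset.sum_congr rfl fun u _ => ?_
        rw [← Finset.sum_neg_distrib, Finset.mul_sum]
        refine Finset.sum_congr rfl fun k _ => ?_
        ring
      rw [h2, ← Finset.sum_add_distrib]
      refine Finset.sum_congr rfl fun k _ => ?_
      rw [mul_add, Finset.mul_sum, Finset.sum_neg_distrib]
      ring
    rw [h1, Complex.add_re]
    have h3 : (∑ k ∈ Finset.Ico k0 K, ((q * a : ℝ) : ℂ) ^ k *
          (Dk a k t + ∑ u ∈ S, (m u : ℂ) / (a + w u) ^ (k + 1))).re ≤ C * Λ / (a * 2 ^ k0) := by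
      refine le_trans ?_ (tail_sum ha hq hq1 hk hC hΛ)
      rw [Complex.re_sum]
      refine Finset.sum_le_sum fun k _ => ?_
      refine (Complex.re_le_norm _).trans ?_
      rw [norm_mul, norm_pow, Complex.norm_of_nonneg (by positivity : (0 : ℝ) ≤ q * a)]
      exact mul_le_mul_of_nonneg_left (hS k) (by positivity)
    have h4 : ∑ u ∈ S, ((m u : ℂ) * (-(∑ k ∈ Finset.Ico k0 K, ((q * a : ℝ) : ℂ) ^ k / (a + w u) ^ (k + 1)))).re ≤
        ∑ u ∈ S, (m u : ℝ) * (-(1 / ((b : ℂ) + w u)).re + (k0 + 1) / a) := by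
      refine Finset.sum_le_sum fun u hu => ?_
      have h5 := geo ha hq hq1 hk hqK (hwre u hu)
      have h6 : ((m u : ℂ) * (-(∑ k ∈ Finset.Ico k0 K, ((q * a : ℝ) : ℂ) ^ k / (a + w u) ^ (k + 1)))).re =
          (m u : ℝ) * (-(∑ k ∈ Finset.Ico k0 K, ((q * a : ℝ) : ℂ) ^ k / (a + w u) ^ (k + 1)).re) := by
        rw [show ((m u : ℕ) : ℂ) = ((m u : ℝ) : ℂ) by push_cast; rfl, Complex.re_ofReal_mul, Complex.neg_re]
      rw [h6]
      exact mul_le_mul_of_nonneg_left h5 (Nat.cast_nonneg _)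
    rw [← Complex.re_sum] at h4
    linarith
  have hzc : ∑ u ∈ S, (m u : ℝ) ≤ zc (3 * a) t := by
    have := zc_ge (r := 3 * a) (by linarith) t S hSd
    exact_mod_cast this
  have hk0 : (0 : ℝ) ≤ (k0 + 1) / a := by positivity
  have hsplit : ∑ u ∈ S, (m u : ℝ) * (-(1 / ((b : ℂ) + w u)).re + (k0 + 1) / a) =
      -(∑ u ∈ S, (m u : ℝ) * (1 / ((b : ℂ) + w u)).re) + (k0 + 1) / a * ∑ u ∈ S, (m u : ℝ) := by
    rw [← Finset.sum_neg_distrib, Finset.mul_sum, ← Finset.sum_add_distrib]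
    refine Finset.sum_congr rfl fun u _ => ?_
    ring
  have hz2 : (k0 + 1) / a * ∑ u ∈ S, (m u : ℝ) ≤ (k0 + 1) / a * zc (3 * a) t :=
    mul_le_mul_of_nonneg_left hzc hk0
  have hterm : ∀ u ∈ S, 0 ≤ (m u : ℝ) * (1 / ((b : ℂ) + w u)).re := fun u hu =>
    mul_nonneg (Nat.cast_nonneg _) (re_inv_nonneg hb0 (hwre u hu))
  have hCa : C * Λ / (a * 2 ^ k0) ≤ (C + 1) * Λ / (a * 2 ^ k0) :=
    div_le_div_of_nonneg_right (by nlinarith) (by positivity)
  rw [hsplit] at key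
  constructor
  · have h1 := Finset.sum_nonneg hterm
    linarith
  · intro ρ hρ hρt hρa
    have hρS := hSρ ρ hρ hρt hρa
    have h1 := Finset.single_le_sum hterm hρS
    have h2 : (1 : ℝ) ≤ m ρ := by
      have := ord_pos hρ
      exact_mod_cast this
    have hlt := re_lt_one hρ
    have h3 : (1 / ((b : ℂ) + w ρ)).re = 1 / (b + (1 - ρ.re)) := by
      have h4 : (b : ℂ) + w ρ = ((b + (1 - ρ.re) : ℝ) : ℂ) := by
        apply Complex.ext
        · simp [hw]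
        · simp [hw, hρt]
      rw [h4, ← Complex.ofReal_one, ← Complex.ofReal_div, Complex.ofReal_re]
    have h5 : 0 < 1 / (b + (1 - ρ.re)) := by
      apply div_pos one_pos
      linarith
    rw [h3] at h1
    have h6 : 1 / (b + (1 - ρ.re)) ≤ (m ρ : ℝ) * (1 / (b + (1 - ρ.re))) := by
      nlinarith
    linarith

theorem locT_pt : ∃ C : ℝ, 1 ≤ C ∧ ∀ (a t Λ : ℝ) (k : ℕ), 0 < a → a ≤ 1 / 6 → 2 * a ≤ |t| →
    Gr a t Λ →
    (disc (3 * a) t = ∅ → a ^ (k + 1) * ‖Dk a k t‖ ≤ C * Λ / 2 ^ (k + 1)) ∧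
    ∀ ρ : ℂ, riemannZeta ρ = 0 → ρ.im = t → 1 - ρ.re < a → (∀ u ∈ disc (3 * a) t, u = ρ) →
      ‖(a : ℂ) ^ (k + 1) * Dk a k t + (analyticOrderNatAt riemannZeta ρ : ℂ) *
        (((a / (a + (1 - ρ.re))) ^ (k + 1) : ℝ) : ℂ)‖ ≤ C * Λ / 2 ^ (k + 1) := by
  obtain ⟨C, hC, h⟩ := loc
  refine ⟨C + 1, by linarith, fun a t Λ k ha ha4 hat hgr => ?_⟩
  obtain ⟨S, hSd, hSρ, hS⟩ := h a t Λ ha ha4 hat hgr
  have hΛ : 1 ≤ Λ := hgr.1
  have hb : a ^ (k + 1) * (C * Λ / (2 * a) ^ (k + 1)) ≤ (C + 1) * Λ / 2 ^ (k + 1) := by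
    have h1 : a ^ (k + 1) * (C * Λ / (2 * a) ^ (k + 1)) = C * Λ / 2 ^ (k + 1) := by
      have ha' : a ^ (k + 1) ≠ 0 := pow_ne_zero _ ha.ne'
      rw [mul_pow]
      field_simp
    rw [h1]
    apply div_le_div_of_nonneg_right _ (by positivity)
    nlinarith
  constructor
  · intro he
    have hSe : S = ∅ := by
      rw [Finset.eq_empty_iff_forall_notMem]
      intro u hu
      have := hSd u hu
      rw [he] at this
      exact this
    have h1 := hS k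
    rw [hSe, Finset.sum_empty, add_zero] at h1
    exact (mul_le_mul_of_nonneg_left h1 (by positivity)).trans hb
  · intro ρ hρ hρt hρa huniq
    have hSe : S = {ρ} := by
      ext u
      rw [Finset.mem_singleton]
      constructor
      · intro hu
        exact huniq u (hSd u hu)
      · rintro rfl
        exact hSρ u hρ hρt hρa
    have h1 := hS k
    rw [hSe, Finset.sum_singleton] at h1
    have hlt := re_lt_one hρ
    have hx : (a : ℂ) + (1 + t * I - ρ) = ((a + (1 - ρ.re) : ℝ) : ℂ) := by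
      apply Complex.ext
      · simp
      · simp [hρt]
    rw [hx] at h1
    have hx0 : ((a + (1 - ρ.re) : ℝ) : ℂ) ≠ 0 := by
      exact_mod_cast (by linarith : (0 : ℝ) < a + (1 - ρ.re)).ne'
    have h2 : (a : ℂ) ^ (k + 1) * Dk a k t + (analyticOrderNatAt riemannZeta ρ : ℂ) *
        (((a / (a + (1 - ρ.re))) ^ (k + 1) : ℝ) : ℂ) =
        (a : ℂ) ^ (k + 1) * (Dk a k t + (analyticOrderNatAt riemannZeta ρ : ℂ) /
          ((a + (1 - ρ.re) : ℝ) : ℂ) ^ (k + 1)) := by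
      rw [Complex.ofReal_pow, Complex.ofReal_div, div_pow, mul_add]
      congr 1
      field_simp
    rw [h2, norm_mul, norm_pow, Complex.norm_of_nonneg ha.le]
    exact (mul_le_mul_of_nonneg_left h1 (by positivity)).trans hb

end Pool.Agent.H76.GL
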