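import Mathlib
import Pool.Agent.H76.GL.LocT
import Pool.Agent.H76.GS.DkNear
import Pool.Agent.H76.GS.DefsU

/-!
# DefT: the loss at isolated and at uncrowded zeros, with local growth

PROOF: `defT` is a copy of `H76/GS/Defic.lean` (`defic`) with `Gr a (Im ρ) Λ` in place of `gv a (Im ρ) ≤ Λ`
and `locT_pt` in place of `locG_pt`; the last part is a copy of `H76/GS/LossU.lean` (`lossU`) with `locTE`
(`C Λ/(a 2^k0) ≤ C/a` by `Λ ≤ 2^k0`).  About 250 lines.
-/

set_option autoImplicit false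

open Complex

namespace Pool.Agent.H76.GL

open Pool.Agent.H76.CR Pool.Agent.H76.RP Pool.Agent.H76.GS

private theorem uniq1 {a r : ℝ} (har : 3 * a ≤ r) (hr : r ≤ 1) {ρ : ℂ} (hρ : riemannZeta ρ = 0)
    (hδ : 1 - ρ.re < a) (hz : zc r ρ.im ≤ 1) :
    (∀ u ∈ disc (3 * a) ρ.im, u = ρ) ∧ analyticOrderNatAt riemannZeta ρ = 1 := by
  classical
  have hlt := re_lt_one hρ
  have hnorm : ‖ρ - (1 + ρ.im * I)‖ = 1 - ρ.re := by
    have h1 : ρ - (1 + ρ.im * I) = ((-(1 - ρ.re) : ℝ) : ℂ) := by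
      apply Complex.ext
      · simp
      · simp
    rw [h1, Complex.norm_real, Real.norm_eq_abs, abs_neg, abs_of_pos (by linarith)]
  have hρd : ρ ∈ disc r ρ.im := ⟨hρ, by rw [hnorm]; linarith⟩
  have ho := ord_pos hρ
  constructor
  · intro u hu
    by_contra hne
    have hud : u ∈ disc r ρ.im := ⟨hu.1, hu.2.trans_le har⟩
    have h1 := zc_ge hr ρ.im {u, ρ} (by
      intro v hv
      rcases Finset.mem_insert.1 hv with h | h
      · rw [h]; exact hud
      · rw [Finset.mem_singleton.1 h]; exact hρd)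
    rw [Finset.sum_pair hne] at h1
    have h2 := ord_pos hu.1
    omega
  · have h1 := zc_ge hr ρ.im {ρ} (by
      intro v hv
      rw [Finset.mem_singleton.1 hv]; exact hρd)
    rw [Finset.sum_singleton] at h1
    omega

private theorem dk_real (a : ℝ) (k : ℕ) : Dk a k 0 = ((∑' n : ℕ, dco a k n : ℝ) : ℂ) := by
  unfold Dk
  rw [Complex.ofReal_tsum]
  refine tsum_congr fun n => ?_
  simp

private theorem bern {a δ : ℝ} (ha : 0 < a) (hδ : 0 < δ) (k : ℕ) :
    1 - (k + 1) * δ / a ≤ (a / (a + δ)) ^ (k + 1) := by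
  have h1 : a / (a + δ) = 1 + (-(δ / (a + δ))) := by
    have : a + δ ≠ 0 := by positivity
    field_simp
    ring
  have h2 : δ / (a + δ) ≤ δ / a := div_le_div_of_nonneg_left hδ.le ha (by linarith)
  have h3 : 0 ≤ a / (a + δ) := by positivity
  have h4 := one_add_mul_le_pow (a := -(δ / (a + δ))) (by
    rw [h1] at h3
    linarith) (k + 1)
  rw [h1]
  refine le_trans ?_ h4
  push_cast
  have h5 : ((k : ℝ) + 1) * (δ / (a + δ)) ≤ (k + 1) * (δ / a) :=
    mul_le_mul_of_nonneg_left h2 (by positivity)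
  have h6 : ((k : ℝ) + 1) * δ / a = (k + 1) * (δ / a) := by ring
  rw [h6]
  linarith

private theorem geo_q {q : ℝ} (hq : 0 < q) (hq1 : q < 1) (k0 K : ℕ) :
    ∑ k ∈ Finset.Ico k0 K, q ^ k ≤ 1 / (1 - q) := by
  have h1 : ∑ k ∈ Finset.Ico k0 K, q ^ k ≤ ∑ k ∈ Finset.range K, q ^ k := by
    apply Finset.sum_le_sum_of_subset_of_nonneg
    · intro k hk
      exact Finset.mem_range.2 (Finset.mem_Ico.1 hk).2
    · intro k _ _
      positivity
  refine h1.trans ?_
  have h2 := geom_sum_mul_neg q K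
  have h3 : 0 < 1 - q := by linarith
  rw [le_div_iff₀ h3, h2]
  have : 0 < q ^ K := by positivity
  linarith

private theorem zero_part {C1 a q : ℝ} (hC1 : 1 ≤ C1) (ha : 0 < a) (hq : 0 < q) (hq1 : q < 1) (k0 K : ℕ)
    (h : ∀ k : ℕ, |a ^ (k + 1) * (∑' n : ℕ, dco a k n) - 1| ≤ C1 / 2 ^ k) :
    ∑ k ∈ Finset.Ico k0 K, (q * a) ^ k * (∑' n : ℕ, dco a k n) ≤ 1 / ((1 - q) * a) + 2 * C1 / a := by
  have h1 : ∀ k ∈ Finset.Ico k0 K, (q * a) ^ k * (∑' n : ℕ, dco a k n) ≤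
      1 / a * q ^ k + C1 / a * (1 / 2) ^ k := by
    intro k _
    have h2 := (abs_le.1 (h k)).2
    have h3 : (∑' n : ℕ, dco a k n) ≤ (1 + C1 / 2 ^ k) / a ^ (k + 1) := by
      rw [le_div_iff₀ (by positivity)]
      linarith
    have h4 : (q * a) ^ k * (∑' n : ℕ, dco a k n) ≤ (q * a) ^ k * ((1 + C1 / 2 ^ k) / a ^ (k + 1)) :=
      mul_le_mul_of_nonneg_left h3 (by positivity)
    refine h4.trans ?_
    have h5 : (q * a) ^ k * ((1 + C1 / 2 ^ k) / a ^ (k + 1)) = 1 / a * q ^ k + C1 / a * (q ^ k * (1 / 2) ^ k) := by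
      have ha' : a ≠ 0 := ha.ne'
      rw [mul_pow, one_div 2, inv_pow, pow_succ a k]
      field_simp
    rw [h5]
    have h6 : q ^ k ≤ 1 := pow_le_one₀ hq.le hq1.le
    have h7 : q ^ k * (1 / 2 : ℝ) ^ k ≤ (1 / 2) ^ k := by
      have : (0 : ℝ) < (1 / 2) ^ k := by positivity
      nlinarith
    have h8 : C1 / a * (q ^ k * (1 / 2) ^ k) ≤ C1 / a * (1 / 2) ^ k :=
      mul_le_mul_of_nonneg_left h7 (by positivity)
    linarith
  refine (Finset.sum_le_sum h1).trans ?_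
  rw [Finset.sum_add_distrib, ← Finset.mul_sum, ← Finset.mul_sum]
  have h2 := geo_q hq hq1 k0 K
  have h3 := geo_q (q := 1 / 2) (by norm_num) (by norm_num) k0 K
  have h4 : 1 / a * ∑ k ∈ Finset.Ico k0 K, q ^ k ≤ 1 / a * (1 / (1 - q)) :=
    mul_le_mul_of_nonneg_left h2 (by positivity)
  have h5 : C1 / a * ∑ k ∈ Finset.Ico k0 K, (1 / 2 : ℝ) ^ k ≤ C1 / a * (1 / (1 - 1 / 2)) :=
    mul_le_mul_of_nonneg_left h3 (by positivity)
  have h6 : 1 / a * (1 / (1 - q)) = 1 / ((1 - q) * a) := by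
    have h7 : (1 - q) ≠ 0 := by
      have : 0 < 1 - q := by linarith
      exact this.ne'
    field_simp
  have h7 : C1 / a * (1 / (1 - 1 / 2)) = 2 * C1 / a := by
    norm_num
    ring
  linarith

theorem defT : ∃ r1 C : ℝ, 0 < r1 ∧ r1 ≤ 1 / 16 ∧ 1 ≤ C ∧
    (∀ (a t : ℝ) (k : ℕ), 0 < a → a ≤ r1 → |t| ≤ 2 * a →
      ‖(a : ℂ) ^ (k + 1) * Dk a k t - ((a : ℂ) / (a + t * I)) ^ (k + 1)‖ ≤ C / 2 ^ k) ∧
    (∀ (a : ℝ) (k : ℕ), 0 < a → a ≤ r1 → |a ^ (k + 1) * (∑' n : ℕ, dco a k n) - 1| ≤ C / 2 ^ k) ∧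
    (∀ (a r Λ : ℝ) (k : ℕ) (S : Finset ℂ) (kk : ℂ → ℤ), 0 < a → a ≤ r1 → 3 * a ≤ r → r ≤ 1 →
      (∀ ρ ∈ S, riemannZeta ρ = 0 ∧ 1 ≤ |ρ.im| ∧ zc r ρ.im ≤ 1 ∧ (kk ρ ≠ 0 → 1 - ρ.re < a) ∧
        Gr a ρ.im Λ) →
      a ^ (k + 1) * loss (dco a k) S kk ≤
        (k + 1) * dep S kk / a + len S kk ^ 2 * (C * Λ / 2 ^ k)) ∧
    (∀ (a q r Λ : ℝ) (k0 K : ℕ) (S : Finset ℂ) (kk : ℂ → ℤ), 0 < a → a ≤ r1 → 3 * a ≤ r → r ≤ 1 →
      0 < q → q < 1 → k0 ≤ K → q ^ K ≤ 1 - q → Λ ≤ 2 ^ k0 →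
      (∀ ρ ∈ S, riemannZeta ρ = 0 ∧ 1 ≤ |ρ.im| ∧ (kk ρ ≠ 0 → 1 - ρ.re < a) ∧ Gr a ρ.im Λ) →
      ∑ k ∈ Finset.Ico k0 K, (q * a) ^ k * loss (dco a k) S kk ≤
        dep S kk / ((1 - q) * a) ^ 2 + C * (k0 + 1) * num r S kk / a) := by
  obtain ⟨r1, C1, hr1, hr16, hC1, hnear⟩ := dkNear
  obtain ⟨C2, hC2, hE⟩ := locTE
  obtain ⟨C3, hC3, hP⟩ := locT_pt
  have hzero : ∀ (a : ℝ) (k : ℕ), 0 < a → a ≤ r1 → |a ^ (k + 1) * (∑' n : ℕ, dco a k n) - 1| ≤ C1 / 2 ^ k := by
    intro a k ha har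
    have h1 := hnear a 0 k ha har (by rw [abs_zero]; positivity)
    rw [dk_real] at h1
    have ha' : (a : ℂ) ≠ 0 := by exact_mod_cast ha.ne'
    have h2 : (a : ℂ) ^ (k + 1) * ((∑' n : ℕ, dco a k n : ℝ) : ℂ) - ((a : ℂ) / (a + (0 : ℝ) * I)) ^ (k + 1) =
        ((a ^ (k + 1) * (∑' n : ℕ, dco a k n) - 1 : ℝ) : ℂ) := by
      rw [Complex.ofReal_zero, zero_mul, add_zero, div_self ha', one_pow]
      push_cast
      rfl
    rw [h2, Complex.norm_real, Real.norm_eq_abs] at h1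
    exact h1
  set C : ℝ := 2 * C1 + C2 + C3 + 1 with hC
  have hCC1 : C1 ≤ C := by linarith
  refine ⟨r1, C, hr1, hr16, by linarith, ?_, ?_, ?_, ?_⟩
  · intro a t k ha har ht
    exact (hnear a t k ha har ht).trans (div_le_div_of_nonneg_right hCC1 (by positivity))
  · intro a k ha har
    exact (hzero a k ha har).trans (div_le_div_of_nonneg_right hCC1 (by positivity))
  · intro a r Λ k S kk ha har hr3 hr hS
    have key : ∀ ρ ∈ S, |(kk ρ : ℝ)| * (a ^ (k + 1) * ((∑' n, dco a k n) + (Ds (dco a k) ρ.im).re)) ≤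
        |(kk ρ : ℝ)| * ((k + 1) * (1 - ρ.re) / a + C * Λ / 2 ^ k) := by
      intro ρ hρS
      obtain ⟨hρ, him, hz, hk, hG⟩ := hS ρ hρS
      by_cases hk0 : kk ρ = 0
      · rw [hk0]
        simp
      · have hδ := hk hk0
        have hlt := re_lt_one hρ
        obtain ⟨huniq, hord⟩ := uniq1 hr3 hr hρ hδ hz
        have h1 := (hP a ρ.im Λ k ha (by linarith) (by linarith) hG).2 ρ hρ rfl hδ huniq
        rw [hord, Nat.cast_one, one_mul] at h1
        have h2 := (Complex.re_le_norm _).trans h1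
        have h3 : ((a : ℂ) ^ (k + 1) * Dk a k ρ.im + (((a / (a + (1 - ρ.re))) ^ (k + 1) : ℝ) : ℂ)).re =
            a ^ (k + 1) * (Ds (dco a k) ρ.im).re + (a / (a + (1 - ρ.re))) ^ (k + 1) := by
          rw [Complex.add_re, Complex.ofReal_re, ← Complex.ofReal_pow, Complex.re_ofReal_mul]
          rfl
        rw [h3] at h2
        have h4 := bern ha (δ := 1 - ρ.re) (by linarith) k
        have h5 := (abs_le.1 (hzero a k ha har)).2
        have hΛ := hG.1
        have h2k : (0 : ℝ) < 2 ^ k := by positivity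
        have h6 : C1 / 2 ^ k ≤ C1 * Λ / 2 ^ k := by
          apply div_le_div_of_nonneg_right _ h2k.le
          nlinarith
        have h7 : C3 * Λ / 2 ^ (k + 1) ≤ C3 * Λ / 2 ^ k := by
          apply div_le_div_of_nonneg_left _ h2k
          · rw [pow_succ]
            linarith
          · have : 0 < C3 * Λ := by positivity
            exact this.le
        have h8 : C1 * Λ / 2 ^ k + C3 * Λ / 2 ^ k ≤ C * Λ / 2 ^ k := by
          rw [← add_div]
          apply div_le_div_of_nonneg_right _ h2k.le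
          have : 0 ≤ (C1 + C2 + 1) * Λ := by positivity
          rw [hC]
          nlinarith
        apply mul_le_mul_of_nonneg_left _ (abs_nonneg _)
        rw [mul_add]
        linarith
    have hsum := Finset.sum_le_sum key
    have hlen := len_nonneg S kk
    have h1 : a ^ (k + 1) * loss (dco a k) S kk =
        len S kk * ∑ ρ ∈ S, |(kk ρ : ℝ)| * (a ^ (k + 1) * ((∑' n, dco a k n) + (Ds (dco a k) ρ.im).re)) := by
      unfold loss
      rw [mul_left_comm, Finset.mul_sum]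
      congr 1
      refine Finset.sum_congr rfl fun ρ _ => ?_
      ring
    have h2 : (k + 1) * dep S kk / a + len S kk ^ 2 * (C * Λ / 2 ^ k) =
        len S kk * ∑ ρ ∈ S, |(kk ρ : ℝ)| * ((k + 1) * (1 - ρ.re) / a + C * Λ / 2 ^ k) := by
      have h3 : ∑ ρ ∈ S, |(kk ρ : ℝ)| * ((k + 1) * (1 - ρ.re) / a + C * Λ / 2 ^ k) =
          (k + 1) / a * (∑ ρ ∈ S, |(kk ρ : ℝ)| * (1 - ρ.re)) + C * Λ / 2 ^ k * len S kk := by
        unfold len
        rw [Finset.mul_sum, Finset.mul_sum, ← Finset.sum_add_distrib]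
        refine Finset.sum_congr rfl fun ρ _ => ?_
        ring
      rw [h3]
      unfold dep
      ring
    rw [h1, h2]
    exact mul_le_mul_of_nonneg_left hsum hlen
  · intro a q r Λ k0 K S kk ha har hr3 hr hq hq1 hkK hqK hΛk hS
    set x : ℝ := (1 - q) * a with hx
    have hx0 : 0 < x := mul_pos (by linarith) ha
    have key : ∀ ρ ∈ S, |(kk ρ : ℝ)| * (∑ k ∈ Finset.Ico k0 K, (q * a) ^ k *
        ((∑' n, dco a k n) + (Ds (dco a k) ρ.im).re)) ≤
        |(kk ρ : ℝ)| * ((1 - ρ.re) / x ^ 2 + C * (k0 + 1) * zc r ρ.im / a) := by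
      intro ρ hρS
      obtain ⟨hρ, him, hk, hG⟩ := hS ρ hρS
      by_cases hk0 : kk ρ = 0
      · rw [hk0]
        simp
      · have hδ := hk hk0
        have hlt := re_lt_one hρ
        have h1 := (hE a q ρ.im Λ k0 K ha (by linarith) hq hq1 hkK hqK (by linarith) hG).2 ρ hρ rfl hδ
        have h2 : (∑ k ∈ Finset.Ico k0 K, ((q * a : ℝ) : ℂ) ^ k * Dk a k ρ.im).re =
            ∑ k ∈ Finset.Ico k0 K, (q * a) ^ k * (Ds (dco a k) ρ.im).re := by
          rw [Complex.re_sum]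
          refine Finset.sum_congr rfl fun k _ => ?_
          rw [← Complex.ofReal_pow, Complex.re_ofReal_mul]
          rfl
        rw [h2] at h1
        have h3 := zero_part hC1 ha hq hq1 k0 K (fun k => hzero a k ha har)
        have hsplit : ∑ k ∈ Finset.Ico k0 K, (q * a) ^ k * ((∑' n, dco a k n) + (Ds (dco a k) ρ.im).re) =
            ∑ k ∈ Finset.Ico k0 K, (q * a) ^ k * (∑' n, dco a k n) +
            ∑ k ∈ Finset.Ico k0 K, (q * a) ^ k * (Ds (dco a k) ρ.im).re := by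
          rw [← Finset.sum_add_distrib]
          refine Finset.sum_congr rfl fun k _ => ?_
          ring
        rw [hsplit]
        have hzm : (zc (3 * a) ρ.im : ℝ) ≤ zc r ρ.im := by
          exact_mod_cast zc_mono hr3 hr ρ.im
        have hz1 : (1 : ℝ) ≤ zc r ρ.im := by
          have := zc_pos hr hρ (by linarith : 1 - ρ.re < r)
          exact_mod_cast this
        have h4 : C2 * Λ / (a * 2 ^ k0) ≤ C2 / a := by
          have h2k : (0 : ℝ) < 2 ^ k0 := by positivity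
          rw [div_le_div_iff₀ (by positivity) ha]
          have : C2 * Λ ≤ C2 * 2 ^ k0 := mul_le_mul_of_nonneg_left hΛk (by linarith)
          nlinarith
        have h5 : 1 / x - 1 / (x + (1 - ρ.re)) ≤ (1 - ρ.re) / x ^ 2 := by
          have hδ0 : 0 < 1 - ρ.re := by linarith
          rw [div_sub_div _ _ hx0.ne' (by positivity), div_le_div_iff₀ (by positivity) (by positivity)]
          nlinarith [mul_pos hx0 hδ0, mul_pos hδ0 hδ0, mul_pos (mul_pos hx0 hδ0) hδ0]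
        have h6 : (k0 + 1) / a * zc (3 * a) ρ.im ≤ (k0 + 1) * zc r ρ.im / a := by
          rw [div_mul_eq_mul_div]
          apply div_le_div_of_nonneg_right _ ha.le
          exact mul_le_mul_of_nonneg_left hzm (by positivity)
        have h7 : (k0 + 1) * (zc r ρ.im : ℝ) / a + 2 * C1 / a + C2 / a ≤ C * (k0 + 1) * zc r ρ.im / a := by
          rw [← add_div, ← add_div]
          apply div_le_div_of_nonneg_right _ ha.le
          have h8 : (1 : ℝ) ≤ (k0 + 1) * zc r ρ.im := by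
            have h9 : (1 : ℝ) ≤ k0 + 1 := by
              have : (0 : ℝ) ≤ k0 := Nat.cast_nonneg _
              linarith
            nlinarith
          rw [hC]
          nlinarith
        apply mul_le_mul_of_nonneg_left _ (abs_nonneg _)
        linarith
    have hsum := Finset.sum_le_sum key
    have hlen := len_nonneg S kk
    have h1 : ∑ k ∈ Finset.Ico k0 K, (q * a) ^ k * loss (dco a k) S kk =
        len S kk * ∑ ρ ∈ S, |(kk ρ : ℝ)| * (∑ k ∈ Finset.Ico k0 K, (q * a) ^ k *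
          ((∑' n, dco a k n) + (Ds (dco a k) ρ.im).re)) := by
      unfold loss
      rw [Finset.mul_sum]
      have h2 : ∀ ρ ∈ S, len S kk * (|(kk ρ : ℝ)| * (∑ k ∈ Finset.Ico k0 K, (q * a) ^ k *
          ((∑' n, dco a k n) + (Ds (dco a k) ρ.im).re))) =
          ∑ k ∈ Finset.Ico k0 K, (q * a) ^ k * (len S kk * (|(kk ρ : ℝ)| *
            ((∑' n, dco a k n) + (Ds (dco a k) ρ.im).re))) := by
        intro ρ _
        rw [Finset.mul_sum, Finset.mul_sum]
        refine Finset.sum_congr rfl fun k _ => ?_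
        ring
      rw [Finset.sum_congr rfl h2, Finset.sum_comm]
      refine Finset.sum_congr rfl fun k _ => ?_
      rw [Finset.mul_sum, Finset.mul_sum]
    have h2 : dep S kk / x ^ 2 + C * (k0 + 1) * num r S kk / a =
        len S kk * ∑ ρ ∈ S, |(kk ρ : ℝ)| * ((1 - ρ.re) / x ^ 2 + C * (k0 + 1) * zc r ρ.im / a) := by
      have h3 : ∑ ρ ∈ S, |(kk ρ : ℝ)| * ((1 - ρ.re) / x ^ 2 + C * (k0 + 1) * zc r ρ.im / a) =
          1 / x ^ 2 * (∑ ρ ∈ S, |(kk ρ : ℝ)| * (1 - ρ.re)) +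
          C * (k0 + 1) / a * (∑ ρ ∈ S, |(kk ρ : ℝ)| * zc r ρ.im) := by
        rw [Finset.mul_sum, Finset.mul_sum, ← Finset.sum_add_distrib]
        refine Finset.sum_congr rfl fun ρ _ => ?_
        ring
      rw [h3]
      unfold dep num
      ring
    rw [h1, h2]
    exact mul_le_mul_of_nonneg_left hsum hlen

end Pool.Agent.H76.GL
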