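import Mathlib
import Pool.Agent.H76.GS.DefsU
import Pool.Agent.H76.RP.Defs

/-!
# A combination of zeros with `dep = 0` is trivial
-/

set_option autoImplicit false

open Complex

namespace Pool.Agent.H76.GL

open Pool.Agent.H76.RP Pool.Agent.H76.GS

theorem dep_zero {S : Finset ℂ} {k : ℂ → ℤ} (hS : ∀ ρ ∈ S, riemannZeta ρ = 0)
    (h : dep S k ≤ 0) : (∀ ρ ∈ S, k ρ = 0) := by
  have re1 : ∀ ρ ∈ S, ρ.re < 1 := fun ρ hρ => by
    by_contra hcon
    exact riemannZeta_ne_zero_of_one_le_re (not_lt.1 hcon) (hS ρ hρ)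
  intro ρ hρ
  by_contra hne
  have h1 : 0 < |(k ρ : ℝ)| := abs_pos.2 (by exact_mod_cast hne)
  have h2 : 0 < len S k :=
    Finset.sum_pos' (fun _ _ => abs_nonneg _) ⟨ρ, hρ, h1⟩
  have h3 : 0 < ∑ ρ ∈ S, |(k ρ : ℝ)| * (1 - ρ.re) := by
    refine Finset.sum_pos' (fun u hu => mul_nonneg (abs_nonneg _) ?_) ⟨ρ, hρ, mul_pos h1 ?_⟩
    · have := re1 u hu
      linarith
    · have := re1 ρ hρ
      linarith
  have : 0 < dep S k := mul_pos h2 h3
  linarith

end Pool.Agent.H76.GL
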