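import Mathlib
import Pool.Agent.H76.GL.DefT
import Pool.Agent.H76.GS.PosK
import Pool.Agent.H76.GS.EvA
import Pool.Agent.H76.GS.EvB

/-!
# EvenI: even combinations of isolated zeros, with local growth

PROOF: as `H76/GS/EvenM.lean` (`evenM`), with `defT` (3), `locTE` (1), parameters as in `OddI.lean`:
`k0 = ⌈logb 2 (C1 Λ len²)⌉₊`, `C1 len² Λ ≤ 2^k0`, `k0 + 1 ≤ C4 L`, `L = log (3 Λ len) ≥ 1`; `x = 16 dep`.
About 230 lines.
-/

set_option autoImplicit false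

open Complex

namespace Pool.Agent.H76.GL

open Pool.Agent.H76.CR Pool.Agent.H76.RP Pool.Agent.H76.GS

private theorem ei_level {q : ℝ} (hq : 0 < q) (hq1 : q < 1) (k0 : ℕ) : ∃ K : ℕ, k0 ≤ K ∧ q ^ K ≤ 1 - q := by
  obtain ⟨n, hn⟩ := exists_pow_lt_of_lt_one (by linarith : (0 : ℝ) < 1 - q) hq1
  refine ⟨max k0 n, le_max_left _ _, ?_⟩
  exact (pow_le_pow_of_le_one hq.le hq1.le (le_max_right k0 n)).trans hn.le

/-- a power of two above `X`, with a small exponent -/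
private theorem ei_two {X : ℝ} (hX : 1 ≤ X) : ∃ k0 : ℕ, X ≤ 2 ^ k0 ∧ (k0 : ℝ) + 1 ≤ 2 * Real.log X + 2 := by
  have hl : 0 ≤ Real.log X := Real.log_nonneg hX
  refine ⟨⌈2 * Real.log X⌉₊, ?_, ?_⟩
  · have h1 : 2 * Real.log X ≤ (⌈2 * Real.log X⌉₊ : ℝ) := Nat.le_ceil _
    have h2 := Real.log_two_gt_d9
    rw [← Real.log_le_log_iff (by linarith) (by positivity), Real.log_pow]
    nlinarith
  · have := Nat.ceil_lt_add_one (show 0 ≤ 2 * Real.log X by linarith)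
    linarith

private theorem ei_sum {S : Finset ℂ} {kk : ℂ → ℤ} (hS : ∀ ρ ∈ S, riemannZeta ρ = 0) {ρ : ℂ} (hρ : ρ ∈ S) :
    0 ≤ |(kk ρ : ℝ)| * (1 - ρ.re) :=
  mul_nonneg (abs_nonneg _) (by linarith [re_lt_one (hS ρ hρ)])

private theorem ei_len {S : Finset ℂ} {kk : ℂ → ℤ} (h : 0 < dep S kk) : 1 ≤ len S kk := by
  have h1 : len S kk ≠ 0 := by
    intro h0
    unfold dep at h
    rw [h0, zero_mul] at h
    exact lt_irrefl _ h
  unfold len at h1 ⊢
  obtain ⟨ρ, hρ, hk⟩ := Finset.exists_ne_zero_of_sum_ne_zero h1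
  have h2 : (1 : ℝ) ≤ |(kk ρ : ℝ)| := by
    have h3 : kk ρ ≠ 0 := by
      intro h4
      rw [h4] at hk
      simp at hk
    have h4 : (1 : ℤ) ≤ |kk ρ| := Int.one_le_abs h3
    exact_mod_cast h4
  exact h2.trans (Finset.single_le_sum (f := fun ρ => |(kk ρ : ℝ)|) (fun _ _ => abs_nonneg _) hρ)

private theorem ei_re {S : Finset ℂ} {kk : ℂ → ℤ} (hS : ∀ ρ ∈ S, riemannZeta ρ = 0) (h : 0 < dep S kk)
    {ρ : ℂ} (hρ : ρ ∈ S) (hk : kk ρ ≠ 0) : 1 - ρ.re ≤ dep S kk := by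
  have h1 := ei_len h
  have h2 : (1 : ℝ) ≤ |(kk ρ : ℝ)| := by
    have h4 : (1 : ℤ) ≤ |kk ρ| := Int.one_le_abs hk
    exact_mod_cast h4
  have h3 : 0 ≤ 1 - ρ.re := by linarith [re_lt_one (hS ρ hρ)]
  have h4 : |(kk ρ : ℝ)| * (1 - ρ.re) ≤ ∑ ρ ∈ S, |(kk ρ : ℝ)| * (1 - ρ.re) :=
    Finset.single_le_sum (f := fun ρ => |(kk ρ : ℝ)| * (1 - ρ.re)) (fun u hu => ei_sum hS hu) hρ
  have h5 : 1 * (1 - ρ.re) ≤ |(kk ρ : ℝ)| * (1 - ρ.re) := mul_le_mul_of_nonneg_right h2 h3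
  have h6 : 0 ≤ ∑ ρ ∈ S, |(kk ρ : ℝ)| * (1 - ρ.re) := Finset.sum_nonneg fun u hu => ei_sum hS hu
  have h7 := mul_le_mul_of_nonneg_right h1 h6
  unfold dep
  linarith

theorem evenI : ∃ r1 c C : ℝ, 0 < r1 ∧ r1 ≤ 1 / 16 ∧ 0 < c ∧ 1 ≤ C ∧
    ∀ (a r Λ : ℝ) (S : Finset ℂ) (kk : ℂ → ℤ), 0 < a → a ≤ r1 → 3 * a ≤ r → r ≤ 1 →
    (∀ ρ ∈ S, riemannZeta ρ = 0 ∧ 1 ≤ |ρ.im| ∧ zc r ρ.im ≤ 1 ∧ Gr a ρ.im Λ) →
    0 < dep S kk → dep S kk * Real.log (3 * Λ * len S kk) ≤ c * a →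
    (2 * a ≤ |comb S kk| → Gr a (comb S kk) Λ) → Even (∑ ρ ∈ S, kk ρ) →
    |comb S kk| ≤ C * dep S kk ∨
      c * a / (dep S kk * Real.log (3 * Λ * len S kk)) ≤ zc r (comb S kk) := by
  obtain ⟨r1, C1, hr1, hr1', hC1, hd1, hd2, hd3, -⟩ := defT
  obtain ⟨C2, hC2, hloc⟩ := locTE
  set C4 : ℝ := 2 * C1 + 6 with hC4
  set Q : ℝ := C4 + 2 * C1 + 2 + C2 with hQ
  have hQ6 : 6 ≤ Q := by linarith
  have hQ0 : 0 < Q := by linarith
  refine ⟨r1, 1 / (256 * Q), 64, hr1, hr1', by positivity, by norm_num, ?_⟩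
  intro a r Λ S kk ha0 ha1 ha3 hr1'' hS hδ hδP hGt hev
  set c : ℝ := 1 / (256 * Q) with hc
  have hc0 : 0 < c := by positivity
  have hcQ : 256 * Q * c = 1 := by
    rw [hc]
    field_simp
  have hlen := ei_len hδ
  have hlen0 : 0 < len S kk := by linarith
  have hZ : ∀ ρ ∈ S, riemannZeta ρ = 0 := fun ρ hρ => (hS ρ hρ).1
  have hre : ∀ ρ ∈ S, kk ρ ≠ 0 → 1 - ρ.re ≤ dep S kk := fun ρ hρ hk => ei_re hZ hδ hρ hk
  have hne : S.Nonempty := by
    rw [Finset.nonempty_iff_ne_empty]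
    rintro rfl
    unfold dep at hδ
    simp at hδ
  have hΛ : 1 ≤ Λ := by
    obtain ⟨ρ, hρ⟩ := hne
    exact (hS ρ hρ).2.2.2.1
  have hΛ0 : 0 < Λ := by linarith
  set δ : ℝ := dep S kk with hδdef
  set P : ℝ := Real.log (3 * Λ * len S kk) with hP
  have hPe : P = Real.log 3 + Real.log Λ + Real.log (len S kk) := by
    rw [hP, Real.log_mul (by positivity) hlen0.ne', Real.log_mul (by norm_num) hΛ0.ne']
  have hlΛ : 0 ≤ Real.log Λ := Real.log_nonneg hΛ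
  have hll : 0 ≤ Real.log (len S kk) := Real.log_nonneg hlen
  have hl3 : 1 ≤ Real.log 3 := by
    rw [Real.le_log_iff_exp_le (by norm_num)]
    have := Real.exp_one_lt_d9
    linarith
  have hP1 : 1 ≤ P := by linarith
  have hX : 1 ≤ C1 * len S kk ^ 2 * Λ := by
    have h1 : 1 ≤ len S kk ^ 2 := one_le_pow₀ hlen
    have h2 : 1 ≤ C1 * len S kk ^ 2 := by nlinarith
    nlinarith
  obtain ⟨k0, hk1, hk3'⟩ := ei_two hX
  have hlX : Real.log (C1 * len S kk ^ 2 * Λ) = Real.log C1 + 2 * Real.log (len S kk) + Real.log Λ := by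
    rw [Real.log_mul (by positivity) hΛ0.ne', Real.log_mul (by positivity) (by positivity), Real.log_pow]
    norm_num
  have hlC1 : Real.log C1 ≤ C1 := by
    have := Real.log_le_sub_one_of_pos (show 0 < C1 by linarith)
    linarith
  have hk3 : (k0 : ℝ) + 1 ≤ C4 * P := by
    rw [hlX] at hk3'
    have h1 : (2 * C1 + 2) * 1 ≤ (2 * C1 + 2) * P := mul_le_mul_of_nonneg_left hP1 (by linarith)
    have h2 : C4 * P = (2 * C1 + 2) * P + 4 * P := by rw [hC4]; ring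
    linarith
  have hΛk : Λ ≤ 2 ^ k0 := by
    have h1 : 1 ≤ len S kk ^ 2 := one_le_pow₀ hlen
    have h2 : 1 ≤ C1 * len S kk ^ 2 := by nlinarith
    have h3 : 1 * Λ ≤ C1 * len S kk ^ 2 * Λ := mul_le_mul_of_nonneg_right h2 hΛ0.le
    linarith
  set t : ℝ := comb S kk with ht
  set x : ℝ := 16 * δ with hx
  have hx0 : 0 < x := by positivity
  have hδcr : δ ≤ c * a := by
    have : δ * 1 ≤ δ * P := mul_le_mul_of_nonneg_left hP1 hδ.le
    linarith
  have hcra : 256 * Q * (c * a) = a := by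
    rw [← mul_assoc, hcQ, one_mul]
  -- `x` is small compared with `a`
  have hxa : 16 * Q * x ≤ a := by
    have := mul_le_mul_of_nonneg_left hδcr (by positivity : 0 ≤ 256 * Q)
    rw [hcra] at this
    rw [hx]
    linarith
  have hxa2 : x ≤ a / 2 := by
    have := mul_le_mul_of_nonneg_right hQ6 hx0.le
    linarith
  set q : ℝ := 1 - x / a with hq
  have hxa' : x / a ≤ 1 / 2 := by
    rw [div_le_iff₀ ha0]
    linarith
  have hxa0 : 0 < x / a := div_pos hx0 ha0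
  have hq0 : 0 < q := by linarith
  have hq1 : q < 1 := by linarith
  have hqa : (1 - q) * a = x := by
    rw [hq]
    field_simp
    ring
  obtain ⟨K, hkK, hqK⟩ := ei_level hq0 hq1 k0
  have hδa : δ < a := by linarith [hxa2]
  have hM0 : 0 ≤ len S kk ^ 2 * (C1 * Λ) := by
    have := sq_nonneg (len S kk)
    positivity
  have hM2 : len S kk ^ 2 * (C1 * Λ) ≤ 2 ^ k0 := by
    calc _ = C1 * len S kk ^ 2 * Λ := by ring
      _ ≤ _ := hk1
  have hE : 1 / ((1 - q) * a) - (k0 + 1) / a - (2 * C1 + 2) / a - δ / ((1 - q) * a) ^ 2 ≤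
      ∑ k ∈ Finset.Ico k0 K, (q * a) ^ k * (Dk a k t).re := by
    refine evA (D0 := fun k => ∑' n : ℕ, dco a k n) (L := fun k => loss (dco a k) S kk) ha0 hq0 hq1 hkK hqK
      (by linarith) hM0 hM2 hδ.le (fun k => hd2 a k ha0 ha1) (fun k => ?_) (fun k => ?_)
    · have h1 := hd3 a r Λ k S kk ha0 ha1 ha3 hr1'' (fun ρ hρ => ⟨(hS ρ hρ).1, (hS ρ hρ).2.1,
        (hS ρ hρ).2.2.1, fun h0 => (hre ρ hρ h0).trans_lt hδa, (hS ρ hρ).2.2.2⟩)
      calc _ ≤ _ := h1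
        _ = _ := by ring
    · have h1 := posK (dco a k) (dco_nonneg a k) (by simp [dco]) (summable_dco ha0 k) S kk
      have h2 : sg S kk = 1 := hev.neg_one_zpow
      rw [h2, one_mul] at h1
      exact h1
  set E : ℝ := ∑ k ∈ Finset.Ico k0 K, (q * a) ^ k * (Dk a k t).re with hEdef
  rw [hqa] at hE
  -- the main lower bound
  have hinv : 0 < 1 / x := by positivity
  have hia : ∀ y : ℝ, 0 ≤ y → y ≤ Q → y / a ≤ 1 / 16 * (1 / x) := by
    intro y hy hyQ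
    rw [← mul_div_assoc, mul_one, div_le_div_iff₀ ha0 hx0]
    have := mul_le_mul_of_nonneg_right hyQ hx0.le
    linarith
  have hk4 : ((k0 : ℝ) + 1) / a ≤ 1 / 16 * (1 / x) := by
    rw [← mul_div_assoc, mul_one, div_le_div_iff₀ ha0 hx0]
    have h1 : ((k0 : ℝ) + 1) * x ≤ C4 * P * x := mul_le_mul_of_nonneg_right hk3 hx0.le
    have h2 : C4 * P * x = 16 * C4 * (δ * P) := by
      rw [hx]
      ring
    have h3 : 16 * C4 * (δ * P) ≤ 16 * C4 * (c * a) := mul_le_mul_of_nonneg_left hδP (by linarith)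
    have h4 : 16 * C4 * (c * a) ≤ 16 * Q * (c * a) :=
      mul_le_mul_of_nonneg_right (by linarith) (by positivity)
    linarith
  have hδx : δ / x ^ 2 = 1 / 16 * (1 / x) := by
    rw [hx]
    field_simp
  have hE2 : 13 / 16 * (1 / x) ≤ E := by
    have h1 := hia (2 * C1 + 2) (by linarith) (by linarith)
    rw [hδx] at hE
    linarith
  rcases lt_or_ge |t| (2 * a) with hta | hta
  · left
    rcases eq_or_ne t 0 with h0 | h0
    · rw [h0, abs_zero]
      positivity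
    · have h1 := evB (D := fun k => Dk a k t) ha0 hq0 hq1 hkK (by linarith : (0 : ℝ) ≤ C1) h0
        (fun k => hd1 a t k ha0 ha1 hta.le)
      have h2 : E ≤ 2 / |t| + 2 * C1 / a := h1
      have h3 := hia (2 * C1) (by linarith) (by linarith)
      have h4 : 3 / 4 * (1 / x) ≤ 2 / |t| := by linarith
      have ht0 : 0 < |t| := abs_pos.2 h0
      rw [← mul_div_assoc, mul_one, div_le_div_iff₀ hx0 ht0] at h4
      rw [hx] at h4
      linarith
  · right
    have h1 := (hloc a q t Λ k0 K ha0 (by linarith) hq0 hq1 hkK hqK hta (hGt hta)).1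
    have h1' : C2 * Λ / (a * 2 ^ k0) ≤ C2 / a := by
      rw [div_le_div_iff₀ (by positivity) ha0]
      have h3 : C2 * a * Λ ≤ C2 * a * 2 ^ k0 := mul_le_mul_of_nonneg_left hΛk (by positivity)
      linarith
    have h2 : (∑ k ∈ Finset.Ico k0 K, ((q * a : ℝ) : ℂ) ^ k * Dk a k t).re = E := by
      rw [hEdef, Complex.re_sum]
      refine Finset.sum_congr rfl fun k _ => ?_
      rw [← Complex.ofReal_pow, Complex.re_ofReal_mul]
    rw [h2] at h1
    have h3 := hia C2 (by linarith) (by linarith)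
    have h4 : 3 / 4 * (1 / x) ≤ ((k0 : ℝ) + 1) / a * zc (3 * a) t := by linarith
    have h5 : (zc (3 * a) t : ℝ) ≤ (zc r t : ℝ) := by
      exact_mod_cast zc_mono ha3 hr1'' t
    set Z : ℝ := (zc r t : ℝ) with hZZ
    have hZ0 : 0 ≤ Z := Nat.cast_nonneg _
    have h6 : 3 / 4 * (1 / x) ≤ C4 * P / a * Z := by
      refine h4.trans ?_
      refine mul_le_mul (div_le_div_of_nonneg_right hk3 ha0.le) h5 (Nat.cast_nonneg _) (by positivity)
    have hδP0 : 0 < δ * P := by positivity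
    rw [div_le_iff₀ hδP0]
    have h7 : 3 / 4 * (1 / x) * (x * a) ≤ C4 * P / a * Z * (x * a) :=
      mul_le_mul_of_nonneg_right h6 (by positivity)
    have h8 : 3 / 4 * (1 / x) * (x * a) = 3 / 4 * a := by
      field_simp
    have h9 : C4 * P / a * Z * (x * a) = 16 * C4 * (Z * (δ * P)) := by
      rw [hx]
      field_simp
    rw [h8, h9, ← hcra] at h7
    have h10 : 16 * C4 * (Z * (δ * P)) ≤ 16 * Q * (Z * (δ * P)) :=
      mul_le_mul_of_nonneg_right (by linarith) (by positivity)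
    have h11 : Q * (c * a) ≤ Q * (Z * (δ * P)) := by
      have : 0 ≤ Q * (c * a) := by positivity
      linarith
    exact le_of_mul_le_mul_left h11 hQ0

end Pool.Agent.H76.GL
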