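import Mathlib
import Pool.Agent.H76.GL.DefT
import Pool.Agent.H76.GS.PosK
import Pool.Agent.H76.GS.EvA

/-!
# CoreL: the averaged inequality at a combination of uncrowded zeros, with local growth

PROOF: as `H76/GS/CoreU.lean` (`coreU`), with `defT` (4) in place of `lossU`; `L = log (3 Λ) ≥ 1`,
`k0 = ⌈logb 2 Λ⌉₊`, `k0 + 1 ≤ C4 L`; `1 ≤ len`, `1 ≤ num` (see there: `1 - Re ρ ≤ dep ≤ c a < r` for some `ρ`
with `kk ρ ≠ 0`), `x = 32 dep`.  About 170 lines.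
-/

set_option autoImplicit false

open Complex

namespace Pool.Agent.H76.GL

open Pool.Agent.H76.CR Pool.Agent.H76.RP Pool.Agent.H76.GS

/-- the arithmetic at the end -/
private theorem cl_fin {a r r1 c C1 C4 P N d k : ℝ} (ha : a = r1 * r) (hr1 : 0 < r1) (hr : 0 < r)
    (hC1 : 1 ≤ C1) (hC4 : 1 ≤ C4) (hc : c = r1 / (1024 * C1 * C4)) (hd : 0 < d) (hP : 1 ≤ P) (hN : 0 ≤ N)
    (h1 : d * P ≤ c * r) (h2 : d * N * P ≤ c * r) (hk : k + 1 ≤ C4 * P) :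
    3 / 4 / (32 * d) ≤ 1 / (32 * d) - (k + 1) / a - (2 * C1 + 2) / a - d / (32 * d) ^ 2 -
      C1 * (k + 1) * N / a := by
  have ha0 : 0 < a := by rw [ha]; positivity
  have hcr : c * r * (C1 * C4) = a / 1024 := by
    rw [hc, ha]
    field_simp
  have hC1p : 0 < C1 := by linarith
  have hC4p : 0 < C4 := by linarith
  have key : ∀ t m : ℝ, d * t ≤ m * (c * r * (C1 * C4)) → t / a ≤ m / 1024 * (1 / d) := by
    intro t m h
    rw [hcr] at h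
    rw [mul_one_div, div_le_div_iff₀ ha0 hd]
    nlinarith
  have hcr0 : 0 < c * r := lt_of_lt_of_le (by positivity) h1
  have t1 : (k + 1) / a ≤ 1 / 1024 * (1 / d) := by
    apply key
    have e1 : d * (k + 1) ≤ C4 * (d * P) := by nlinarith
    have e2 : C4 * (d * P) ≤ C4 * (c * r) := mul_le_mul_of_nonneg_left h1 hC4p.le
    have e3 : C4 * (c * r) ≤ 1 * (c * r * (C1 * C4)) := by
      have : 0 ≤ C4 * (c * r) := by positivity
      nlinarith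
    linarith
  have t2 : (2 * C1 + 2) / a ≤ 4 / 1024 * (1 / d) := by
    apply key
    have e1 : d * (2 * C1 + 2) ≤ 4 * C1 * (d * P) := by
      have e0 : d * 1 ≤ d * P := mul_le_mul_of_nonneg_left hP hd.le
      have e00 : d * (2 * C1 + 2) ≤ 4 * C1 * (d * 1) := by nlinarith
      have : 4 * C1 * (d * 1) ≤ 4 * C1 * (d * P) := mul_le_mul_of_nonneg_left e0 (by positivity)
      linarith
    have e2 : 4 * C1 * (d * P) ≤ 4 * C1 * (c * r) := mul_le_mul_of_nonneg_left h1 (by positivity)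
    have e3 : 4 * C1 * (c * r) ≤ 4 * (c * r * (C1 * C4)) := by
      have : 0 ≤ C1 * (c * r) := by positivity
      nlinarith
    linarith
  have t3 : C1 * (k + 1) * N / a ≤ 1 / 1024 * (1 / d) := by
    apply key
    have e1 : d * (C1 * (k + 1) * N) ≤ C1 * C4 * (d * N * P) := by
      have e0 : 0 ≤ C1 * (d * N) := by positivity
      have := mul_le_mul_of_nonneg_left hk e0
      linarith
    have e2 : C1 * C4 * (d * N * P) ≤ C1 * C4 * (c * r) := mul_le_mul_of_nonneg_left h2 (by positivity)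
    linarith
  have t4 : d / (32 * d) ^ 2 = 1 / 1024 * (1 / d) := by
    field_simp
    norm_num
  have t5 : 1 / (32 * d) = 32 / 1024 * (1 / d) := by
    field_simp
    norm_num
  have t6 : 3 / 4 / (32 * d) = 24 / 1024 * (1 / d) := by
    field_simp
    norm_num
  have hd1 : 0 < 1 / d := by positivity
  rw [t4, t5, t6]
  linarith

/-- the averaged positivity -/
private theorem cl_pos {a q : ℝ} (ha : 0 < a) (hq : 0 < q) (k0 K : ℕ) (S : Finset ℂ) (kk : ℂ → ℤ) :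
    ∑ k ∈ Finset.Ico k0 K, (q * a) ^ k * (∑' n, dco a k n) -
      sg S kk * ∑ k ∈ Finset.Ico k0 K, (q * a) ^ k * (Dk a k (comb S kk)).re ≤
      ∑ k ∈ Finset.Ico k0 K, (q * a) ^ k * loss (dco a k) S kk := by
  rw [Finset.mul_sum, ← Finset.sum_sub_distrib]
  refine Finset.sum_le_sum fun k _ => ?_
  have h1 := posK (dco a k) (dco_nonneg a k) (by simp [dco]) (summable_dco ha k) S kk
  rw [← Dk_Ds] at h1
  have h2 : 0 ≤ (q * a) ^ k := by positivity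
  have h3 := mul_le_mul_of_nonneg_left h1 h2
  linarith

/-- the number of the first term -/
private theorem cl_k0 {Λ : ℝ} (hΛ : 1 ≤ Λ) : ∃ k0 : ℕ, Λ ≤ 2 ^ k0 ∧ (k0 : ℝ) + 1 ≤ 2 * Real.log (3 * Λ) ∧
    1 ≤ Real.log (3 * Λ) := by
  have hΛ0 : 0 < Λ := by linarith
  have hl3 : 1 ≤ Real.log 3 := by
    rw [Real.le_log_iff_exp_le (by norm_num)]
    exact (Real.exp_one_lt_d9.le).trans (by norm_num)
  have hlΛ : 0 ≤ Real.log Λ := Real.log_nonneg hΛ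
  have hmul : Real.log (3 * Λ) = Real.log 3 + Real.log Λ := Real.log_mul (by norm_num) hΛ0.ne'
  refine ⟨⌈Real.logb 2 Λ⌉₊, ?_, ?_, by rw [hmul]; linarith⟩
  · have h1 : Real.logb 2 Λ ≤ (⌈Real.logb 2 Λ⌉₊ : ℝ) := Nat.le_ceil _
    rw [Real.logb_le_iff_le_rpow (by norm_num) hΛ0, Real.rpow_natCast] at h1
    exact h1
  · have h0 : 0 ≤ Real.logb 2 Λ := Real.logb_nonneg (by norm_num) hΛ
    have h1 : (⌈Real.logb 2 Λ⌉₊ : ℝ) < Real.logb 2 Λ + 1 := Nat.ceil_lt_add_one h0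
    have h2 : Real.logb 2 Λ ≤ 2 * Real.log Λ := by
      unfold Real.logb
      have hl2 := Real.log_two_gt_d9
      rw [div_le_iff₀ (by linarith)]
      nlinarith
    rw [hmul]
    linarith

/-- some coefficient does not vanish -/
private theorem cl_dep {S : Finset ℂ} {kk : ℂ → ℤ} (hS : ∀ ρ ∈ S, ρ.re ≤ 1) (hd : 0 < dep S kk) :
    (∃ ρ ∈ S, kk ρ ≠ 0) ∧ 1 ≤ len S kk ∧ ∀ ρ ∈ S, kk ρ ≠ 0 → 1 - ρ.re ≤ dep S kk := by
  have habs : ∀ ρ : ℂ, kk ρ ≠ 0 → 1 ≤ |(kk ρ : ℝ)| := fun ρ h => by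
    have h1 : (1 : ℤ) ≤ |kk ρ| := Int.one_le_abs h
    have h2 : ((1 : ℤ) : ℝ) ≤ ((|kk ρ| : ℤ) : ℝ) := Int.cast_le.2 h1
    rw [Int.cast_abs] at h2
    simpa using h2
  have hex : ∃ ρ ∈ S, kk ρ ≠ 0 := by
    by_contra hcon
    push Not at hcon
    have h0 : dep S kk = 0 := by
      unfold dep
      have : ∑ ρ ∈ S, |(kk ρ : ℝ)| * (1 - ρ.re) = 0 := by
        refine Finset.sum_eq_zero fun ρ hρ => ?_
        rw [hcon ρ hρ]
        simp
      rw [this, mul_zero]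
    linarith
  have hlen : 1 ≤ len S kk := by
    obtain ⟨ρ, hρ, h⟩ := hex
    have h1 : |(kk ρ : ℝ)| ≤ len S kk := Finset.single_le_sum (f := fun ρ => |(kk ρ : ℝ)|) (fun _ _ => abs_nonneg _) hρ
    exact (habs ρ h).trans h1
  refine ⟨hex, hlen, fun ρ hρ h => ?_⟩
  have h1 : |(kk ρ : ℝ)| * (1 - ρ.re) ≤ ∑ ρ ∈ S, |(kk ρ : ℝ)| * (1 - ρ.re) :=
    Finset.single_le_sum (f := fun ρ => |(kk ρ : ℝ)| * (1 - ρ.re))
      (fun ρ' hρ' => mul_nonneg (abs_nonneg _) (by have := hS ρ' hρ'; linarith)) hρ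
  have h2 : 0 ≤ 1 - ρ.re := by have := hS ρ hρ; linarith
  have h3 : 1 * (1 - ρ.re) ≤ |(kk ρ : ℝ)| * (1 - ρ.re) := mul_le_mul_of_nonneg_right (habs ρ h) h2
  have h4 : 0 ≤ ∑ ρ ∈ S, |(kk ρ : ℝ)| * (1 - ρ.re) := by linarith
  have h5 : 1 * ∑ ρ ∈ S, |(kk ρ : ℝ)| * (1 - ρ.re) ≤ len S kk * ∑ ρ ∈ S, |(kk ρ : ℝ)| * (1 - ρ.re) :=
    mul_le_mul_of_nonneg_right hlen h4
  unfold dep
  linarith

theorem coreL : ∃ r1 C1 c C4 : ℝ, 0 < r1 ∧ r1 ≤ 1 / 16 ∧ 1 ≤ C1 ∧ 0 < c ∧ c ≤ 1 ∧ 1 ≤ C4 ∧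
    (∀ (a t : ℝ) (k : ℕ), 0 < a → a ≤ r1 → |t| ≤ 2 * a →
      ‖(a : ℂ) ^ (k + 1) * Dk a k t - ((a : ℂ) / (a + t * I)) ^ (k + 1)‖ ≤ C1 / 2 ^ k) ∧
    ∀ (a r Λ : ℝ) (S : Finset ℂ) (kk : ℂ → ℤ), 0 < a → a ≤ r1 → 3 * a ≤ r → r ≤ 1 →
      (∀ ρ ∈ S, riemannZeta ρ = 0 ∧ 1 ≤ |ρ.im| ∧ Gr a ρ.im Λ) →
      0 < dep S kk → dep S kk * Real.log (3 * Λ) ≤ c * a →
      dep S kk * num r S kk * Real.log (3 * Λ) ≤ c * a →
      ∃ (q : ℝ) (k0 K : ℕ), 0 < q ∧ q < 1 ∧ (1 - q) * a = 32 * dep S kk ∧ k0 ≤ K ∧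
        q ^ K ≤ 1 - q ∧ 1 ≤ Λ ∧ Λ ≤ 2 ^ k0 ∧ (k0 : ℝ) + 1 ≤ C4 * Real.log (3 * Λ) ∧
        3 / 4 / (32 * dep S kk) ≤
          sg S kk * ∑ k ∈ Finset.Ico k0 K, (q * a) ^ k * (Dk a k (comb S kk)).re := by
  obtain ⟨r1, C1, hr1, hr1', hC1, hA, hB, -, hL⟩ := defT
  have hC1p : 0 < C1 := by linarith
  obtain ⟨c, hc⟩ : ∃ c : ℝ, c = 1 / (1024 * C1 * 2) := ⟨_, rfl⟩
  have hc0 : 0 < c := by rw [hc]; positivity
  have hc64 : c ≤ 1 / 1024 := by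
    rw [hc]
    apply div_le_div_of_nonneg_left (by norm_num) (by norm_num)
    nlinarith
  refine ⟨r1, C1, c, 2, hr1, hr1', hC1, hc0, by linarith, by norm_num, hA, ?_⟩
  intro a r Λ S kk ha0 har1 h3a hr' hS hdep h1 h2
  obtain ⟨⟨ρ0, hρ0, -⟩, hlen, hdp⟩ := cl_dep (fun ρ hρ => (re_lt_one (hS ρ hρ).1).le) hdep
  have hΛ : 1 ≤ Λ := (hS ρ0 hρ0).2.2.1
  obtain ⟨k0, hΛ2, hk0, hP⟩ := cl_k0 hΛ
  have hdc : dep S kk ≤ c * a := by
    have : dep S kk * 1 ≤ dep S kk * Real.log (3 * Λ) := mul_le_mul_of_nonneg_left hP hdep.le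
    linarith
  have hda : dep S kk ≤ a / 1024 := by
    have : c * a ≤ 1 / 1024 * a := mul_le_mul_of_nonneg_right hc64 ha0.le
    linarith
  -- the ratio
  obtain ⟨q, hq⟩ : ∃ q, q = 1 - 32 * dep S kk / a := ⟨_, rfl⟩
  have hxa : 32 * dep S kk / a ≤ 1 / 2 := by
    rw [div_le_iff₀ ha0]
    linarith
  have hxa0 : 0 < 32 * dep S kk / a := by positivity
  have hq0 : 0 < q := by rw [hq]; linarith
  have hq1 : q < 1 := by rw [hq]; linarith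
  have hqa : (1 - q) * a = 32 * dep S kk := by
    rw [hq]
    field_simp
    ring
  obtain ⟨n, hn⟩ := exists_pow_lt_of_lt_one (show (0 : ℝ) < 1 - q by linarith) hq1
  obtain ⟨K, hK⟩ : ∃ K, K = max k0 n := ⟨_, rfl⟩
  have hKk : k0 ≤ K := by rw [hK]; exact le_max_left _ _
  have hKq : q ^ K ≤ 1 - q := by
    have : q ^ K ≤ q ^ n := pow_le_pow_of_le_one hq0.le hq1.le (by rw [hK]; exact le_max_right _ _)
    linarith
  have hlen0 : 0 ≤ len S kk := len_nonneg S kk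
  refine ⟨q, k0, K, hq0, hq1, hqa, hKk, hKq, hΛ, hΛ2, hk0, ?_⟩
  have hloss := hL a q r Λ k0 K S kk ha0 har1 h3a hr' hq0 hq1 hKk hKq hΛ2 (by
    intro ρ hρ
    refine ⟨(hS ρ hρ).1, (hS ρ hρ).2.1, fun hk => ?_, (hS ρ hρ).2.2⟩
    have := hdp ρ hρ hk
    linarith)
  have hev := evA (a := a) (q := q) (C := C1) (M := 0) (e := 0) (k0 := k0) (K := K)
    (D0 := fun k => ∑' n, dco a k n) (L := fun _ => 0) (R := fun k => ∑' n, dco a k n)
    ha0 hq0 hq1 hKk hKq (by linarith) le_rfl (by positivity) le_rfl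
    (fun k => hB a k ha0 har1) (fun k => by simp) (fun k => by simp)
  have hpos := cl_pos ha0 hq0 k0 K S kk
  have hN : 0 ≤ num r S kk := by
    unfold num
    exact mul_nonneg hlen0 (Finset.sum_nonneg fun ρ _ => by positivity)
  have hfin := cl_fin (a := a) (r := a) (r1 := 1) (c := c) (C1 := C1) (C4 := 2) (P := Real.log (3 * Λ))
    (N := num r S kk) (d := dep S kk) (k := (k0 : ℝ)) (one_mul a).symm one_pos ha0 hC1 (by norm_num) hc hdep hP hN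
    h1 h2 hk0
  rw [hqa] at hloss hev
  rw [zero_div, sub_zero] at hev
  linarith

end Pool.Agent.H76.GL
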