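import Mathlib
import Pool.Agent.H76.GL.CoreL
import Pool.Agent.H76.GL.LocT
import Pool.Agent.H76.GS.EvB

/-!
# EvenL: even combinations of uncrowded zeros, with local growth

PROOF: as `H76/GS/EvenU.lean` (`evenU`), with `coreL`, `locTE`.  About 120 lines.
-/

set_option autoImplicit false

open Complex

namespace Pool.Agent.H76.GL

open Pool.Agent.H76.CR Pool.Agent.H76.RP Pool.Agent.H76.GS

theorem evenL : ∃ r1 c C : ℝ, 0 < r1 ∧ r1 ≤ 1 / 16 ∧ 0 < c ∧ 1 ≤ C ∧
    ∀ (a r Λ : ℝ) (S : Finset ℂ) (kk : ℂ → ℤ), 0 < a → a ≤ r1 → 3 * a ≤ r → r ≤ 1 →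
    (∀ ρ ∈ S, riemannZeta ρ = 0 ∧ 1 ≤ |ρ.im| ∧ Gr a ρ.im Λ) →
    0 < dep S kk → dep S kk * Real.log (3 * Λ) ≤ c * a →
    dep S kk * num r S kk * Real.log (3 * Λ) ≤ c * a →
    (2 * a ≤ |comb S kk| → Gr a (comb S kk) Λ) → Even (∑ ρ ∈ S, kk ρ) →
    |comb S kk| ≤ C * dep S kk ∨
      c * a / (dep S kk * Real.log (3 * Λ)) ≤ zc r (comb S kk) := by
  obtain ⟨r1, C1, c0, C4, hr1, hr1', hC1, hc0, hc01, hC4, hlow, hcore⟩ := coreL
  obtain ⟨C2, hC2, hloc⟩ := locTE
  have hPi : 1 ≤ C1 * C2 * C4 := by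
    have h1 : 1 ≤ C1 * C2 := by nlinarith
    nlinarith
  have hPi0 : 0 < C1 * C2 * C4 := by linarith
  refine ⟨r1, min c0 (1 / (256 * (C1 * C2 * C4))), 128, hr1, hr1', lt_min hc0 (by positivity),
    by norm_num, ?_⟩
  intro a r Λ S kk ha har1 har hr hS hd hdP hdN hgr heven
  set c : ℝ := min c0 (1 / (256 * (C1 * C2 * C4))) with hc
  have hcc0 : c ≤ c0 := min_le_left _ _
  have hcr : c * (256 * (C1 * C2 * C4)) ≤ 1 := by
    have h := min_le_right c0 (1 / (256 * (C1 * C2 * C4)))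
    rw [← hc, le_div_iff₀ (by positivity)] at h
    exact h
  have hcpos : 0 < c := lt_min hc0 (by positivity)
  have hcc0a : c * a ≤ c0 * a := mul_le_mul_of_nonneg_right hcc0 ha.le
  obtain ⟨q, k0, K, hq, hq1, hx, hk, hqK, hΛ1, hΛ, hk0, hmain⟩ :=
    hcore a r Λ S kk ha har1 har hr hS hd (hdP.trans hcc0a) (hdN.trans hcc0a)
  have hsg : sg S kk = 1 := by
    unfold sg
    exact heven.neg_one_zpow
  rw [hsg, one_mul] at hmain
  set d : ℝ := dep S kk with hdd
  set P : ℝ := Real.log (3 * Λ) with hP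
  set t : ℝ := comb S kk with htt
  have hPhi : 1 ≤ P := by
    rw [hP, Real.le_log_iff_exp_le (by linarith)]
    have := Real.exp_one_lt_d9
    linarith
  have hdr : d ≤ c * a := by nlinarith
  have hdr2 : d * (256 * (C1 * C2 * C4)) ≤ a := by
    have h1 : d * (256 * (C1 * C2 * C4)) ≤ c * a * (256 * (C1 * C2 * C4)) :=
      mul_le_mul_of_nonneg_right hdr (by positivity)
    have h2 : c * a * (256 * (C1 * C2 * C4)) = c * (256 * (C1 * C2 * C4)) * a := by ring
    have h3 : c * (256 * (C1 * C2 * C4)) * a ≤ 1 * a := mul_le_mul_of_nonneg_right hcr ha.le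
    linarith
  have hC1le : C1 ≤ C1 * C2 * C4 := by
    have h1 : 1 ≤ C2 * C4 := by nlinarith
    nlinarith
  have hC2le : C2 ≤ C1 * C2 * C4 := by
    have h1 : 1 ≤ C1 * C4 := by nlinarith
    nlinarith
  have hC4le : C4 ≤ C1 * C2 * C4 := by
    have h1 : 1 ≤ C1 * C2 := by nlinarith
    nlinarith
  by_cases ht0 : t = 0
  · left
    rw [ht0, abs_zero]
    positivity
  have htpos : 0 < |t| := abs_pos.2 ht0
  by_cases hta : |t| < 2 * a
  · left
    have h1 := evB (a := a) (q := q) (t := t) (C := C1) (k0 := k0) (K := K) (D := fun k => Dk a k t) ha hq hq1 hk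
      (by linarith) ht0 (fun k => hlow a t k ha har1 hta.le)
    have h2 : 3 / 4 / (32 * d) ≤ 2 / |t| + 2 * C1 / a := hmain.trans h1
    have h3 : 2 * C1 / a ≤ 1 / (128 * d) := by
      rw [div_le_div_iff₀ ha (by positivity)]
      nlinarith [mul_le_mul_of_nonneg_left hC1le hd.le]
    have h4 : 3 / 4 / (32 * d) = 1 / (64 * d) + 1 / (128 * d) := by
      field_simp
      norm_num
    have h5 : 1 / (64 * d) ≤ 2 / |t| := by linarith
    rw [div_le_div_iff₀ (by positivity) htpos] at h5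
    linarith
  · right
    have hta' : 2 * a ≤ |t| := not_lt.1 hta
    have h1 := (hloc a q t Λ k0 K ha (by linarith) hq hq1 hk hqK hta' (hgr hta')).1
    have h2 : (∑ k ∈ Finset.Ico k0 K, ((q * a : ℝ) : ℂ) ^ k * Dk a k t).re =
        ∑ k ∈ Finset.Ico k0 K, (q * a) ^ k * (Dk a k t).re := by
      rw [Complex.re_sum]
      refine Finset.sum_congr rfl (fun k _ => ?_)
      rw [← Complex.ofReal_pow, Complex.re_ofReal_mul]
    rw [h2] at h1
    have h20 : C2 * Λ / (a * 2 ^ k0) ≤ C2 / a := by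
      have h2k : (0 : ℝ) < 2 ^ k0 := by positivity
      rw [div_le_div_iff₀ (by positivity) ha]
      have h21 : C2 * a * Λ ≤ C2 * a * 2 ^ k0 :=
        mul_le_mul_of_nonneg_left hΛ (by positivity)
      nlinarith
    have h3 : 3 / 4 / (32 * d) ≤ (k0 + 1) / a * zc (3 * a) t + C2 / a := by linarith
    have h4 : C2 / a ≤ 1 / (128 * d) := by
      rw [div_le_div_iff₀ ha (by positivity)]
      nlinarith [mul_le_mul_of_nonneg_left hC2le hd.le]
    have h5 : 3 / 4 / (32 * d) = 1 / (64 * d) + 1 / (128 * d) := by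
      field_simp
      norm_num
    have h6 : 1 / (64 * d) ≤ (k0 + 1) / a * zc (3 * a) t := by linarith
    have h7 : (zc (3 * a) t : ℝ) ≤ zc r t := by
      have h8 : zc (3 * a) t ≤ zc r t := zc_mono har hr t
      exact_mod_cast h8
    have hz0 : (0 : ℝ) ≤ zc (3 * a) t := Nat.cast_nonneg _
    have h9 : 1 / (64 * d) ≤ C4 * P / a * zc (3 * a) t := by
      refine h6.trans (mul_le_mul_of_nonneg_right ?_ hz0)
      exact div_le_div_of_nonneg_right hk0 ha.le
    have hP0 : 0 < P := by linarith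
    have hC40 : 0 < C4 := by linarith
    have h10 : a / (64 * d * (C4 * P)) ≤ zc (3 * a) t := by
      rw [div_le_iff₀ (by positivity)]
      rw [div_mul_eq_mul_div, div_le_div_iff₀ (by positivity) ha] at h9
      nlinarith
    refine le_trans ?_ (h10.trans h7)
    rw [div_le_div_iff₀ (by positivity) (by positivity)]
    have h11 : c * (64 * C4) ≤ 1 := by
      refine le_trans ?_ hcr
      refine mul_le_mul_of_nonneg_left ?_ hcpos.le
      linarith
    have h12 : c * a * (64 * d * (C4 * P)) = (c * (64 * C4)) * (a * d * P) := by ring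
    have h13 : a * (d * P) = 1 * (a * d * P) := by
      ring
    rw [h12, h13]
    exact mul_le_mul_of_nonneg_right h11 (by positivity)

end Pool.Agent.H76.GL
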