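import Mathlib
import Pool.Agent.H76.GL.Defs
import Pool.Agent.H52.RK.LocG
import Pool.Agent.H52.ZR.Low

/-!
# GrR: growth at small heights from Richert's bound

PROOF.  `grow` with `R = 3a ≤ 1/2`: `Gr a t (C ((3a)^(3/2) log(|t|+2) + loglog(|t|+3) + log(1/a) + 1))`,
`(3a)^(3/2) ≤ 6 a^(3/2)` (private lemma `three_pow` of `LocG.lean`, copy).  Now `a ≤ r`, `r vklam |t| ≤ 1`:
`vklam |t| ≥ (log(|t|+3))^(2/3)`, so `r^(3/2) log(|t|+3) ≤ (r vklam |t|)^(3/2) ≤ 1`, hence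
`a^(3/2) log(|t|+2) ≤ 1`, and `log(|t|+3) ≤ r^(-3/2)`, `loglog(|t|+3) ≤ (3/2) log(1/r) ≤ (3/2) log(1/a)`.
So the growth is `≤ C' (1 + log (1/a))`.  About 90 lines.
-/

set_option autoImplicit false

open Complex

namespace Pool.Agent.H76.GL

open Pool.Agent.H6 Pool.Agent.H76.CR Pool.Agent.H52.RK Pool.Agent.H52.ZR

private theorem three_pow {a : ℝ} (ha : 0 < a) : (3 * a) ^ (3 / 2 : ℝ) ≤ 6 * a ^ (3 / 2 : ℝ) := by
  rw [Real.mul_rpow (by norm_num) ha.le]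
  apply mul_le_mul_of_nonneg_right _ (Real.rpow_nonneg ha.le _)
  have h1 : (3 : ℝ) ^ (3 / 2 : ℝ) ≤ (4 : ℝ) ^ (3 / 2 : ℝ) * (3 / 4) := by
    have h2 : (3 : ℝ) ^ (3 / 2 : ℝ) = 3 * 3 ^ (1 / 2 : ℝ) := by
      rw [show (3 / 2 : ℝ) = 1 + 1 / 2 from by norm_num, Real.rpow_add (by norm_num), Real.rpow_one]
    have h3 : (4 : ℝ) ^ (3 / 2 : ℝ) = 8 := by
      rw [show (4 : ℝ) = 2 ^ (2 : ℝ) from by norm_num, ← Real.rpow_mul (by norm_num)]
      norm_num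
    have h4 : (3 : ℝ) ^ (1 / 2 : ℝ) ≤ 2 := by
      rw [← Real.sqrt_eq_rpow, Real.sqrt_le_left (by norm_num)]
      norm_num
    rw [h2, h3]
    linarith
  have h3 : (4 : ℝ) ^ (3 / 2 : ℝ) = 8 := by
    rw [show (4 : ℝ) = 2 ^ (2 : ℝ) from by norm_num, ← Real.rpow_mul (by norm_num)]
    norm_num
  rw [h3] at h1
  linarith

theorem grR : ∃ C : ℝ, 1 ≤ C ∧ ∀ a r t : ℝ, 0 < a → a ≤ 1 / 6 → a ≤ r → r ≤ 1 →
    r * vklam |t| ≤ 1 → Gr a t (C * (1 + Real.log (1 / a))) := by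
  obtain ⟨Cg, hCg, hgr⟩ := grow
  refine ⟨7 * Cg, by linarith, fun a r t ha ha6 har hr hv => ?_⟩
  have ht0 := abs_nonneg t
  have hla : 0 ≤ Real.log (1 / a) := Real.log_nonneg (by rw [le_div_iff₀ ha]; linarith)
  refine ⟨by nlinarith, fun z hz => ?_⟩
  refine (hgr a (3 * a) t ha (by linarith) (by linarith) (by linarith) z hz).trans ?_
  apply mul_le_mul_of_nonneg_right _ (norm_nonneg _)
  apply Real.exp_le_exp.2
  obtain ⟨L, hL⟩ : ∃ L : ℝ, L = Real.log (|t| + 3) := ⟨_, rfl⟩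
  have hL1 : 1 ≤ L := by
    rw [hL, Real.le_log_iff_exp_le (by linarith)]
    have := Real.exp_one_lt_d9
    linarith
  have hL0 : 0 < L := by linarith
  have hll : 0 ≤ Real.log L := Real.log_nonneg hL1
  have hr0 : 0 < r := by linarith
  have hp : 0 < L ^ (2 / 3 : ℝ) := Real.rpow_pos_of_pos hL0 _
  have h1 : r * L ^ (2 / 3 : ℝ) ≤ 1 := by
    refine le_trans ?_ hv
    apply mul_le_mul_of_nonneg_left _ hr0.le
    unfold vklam
    rw [← hL]
    have h2 : 1 ≤ (1 + Real.log L) ^ (1 / 3 : ℝ) := Real.one_le_rpow (by linarith) (by norm_num)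
    nlinarith
  have h2 : Real.log L ≤ 3 / 2 * Real.log (1 / a) := by
    have h3 : Real.log (a * L ^ (2 / 3 : ℝ)) ≤ 0 := by
      apply Real.log_nonpos (by positivity)
      exact (mul_le_mul_of_nonneg_right har hp.le).trans h1
    rw [Real.log_mul ha.ne' hp.ne', Real.log_rpow hL0] at h3
    rw [one_div, Real.log_inv]
    linarith
  have h3 : a ^ (3 / 2 : ℝ) * L ≤ 1 := by
    have h4 : a ^ (3 / 2 : ℝ) * L = (a * L ^ (2 / 3 : ℝ)) ^ (3 / 2 : ℝ) := by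
      rw [Real.mul_rpow ha.le hp.le, ← Real.rpow_mul hL0.le]
      norm_num
    rw [h4]
    apply Real.rpow_le_one (by positivity) _ (by norm_num)
    exact (mul_le_mul_of_nonneg_right har hp.le).trans h1
  have h4 : (3 * a) ^ (3 / 2 : ℝ) * Real.log (|t| + 2) ≤ 6 := by
    have h5 : Real.log (|t| + 2) ≤ L := by
      rw [hL]
      exact Real.log_le_log (by linarith) (by linarith)
    have h6 : 0 ≤ Real.log (|t| + 2) := Real.log_nonneg (by linarith)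
    have h7 := three_pow ha
    have h8 : 0 ≤ a ^ (3 / 2 : ℝ) := Real.rpow_nonneg ha.le _
    calc (3 * a) ^ (3 / 2 : ℝ) * Real.log (|t| + 2) ≤ (6 * a ^ (3 / 2 : ℝ)) * L := by gcongr
      _ = 6 * (a ^ (3 / 2 : ℝ) * L) := by ring
      _ ≤ 6 := by linarith
  rw [← hL]
  nlinarith

end Pool.Agent.H76.GL
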