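import Mathlib
import Pool.Agent.H76.GL.Defs
import Pool.Agent.H52.RK.Grow

/-!
# GrT: growth from a bound of `ζ` on a disc

PROOF.  `c = pt a t = 1 + a + it`.  The private lemmas `tsum_le`, `low` of `H52/RK/Grow.lean` (copy) give
`a ≤ ‖c - 1‖`, `1 ≤ (18/a) ‖ζ(c)‖`, `‖zetaPole c‖ = ‖c - 1‖ ‖ζ(c)‖`.  For `z` in the closed ball of radius `3a`
around `c`: `‖z - (1+it)‖ ≤ 3a + a ≤ r`, so `‖ζ(z)‖ ≤ e^E`; `‖z - 1‖ ≤ ‖c - 1‖ + 3a ≤ 4 ‖c - 1‖`; so
`‖zetaPole z‖ ≤ 4 ‖c-1‖ e^E ≤ 4 e^E (18/a) ‖ζ(c)‖ ‖c - 1‖ = (72/a) e^E ‖zetaPole c‖` (`z = 1`: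
`zetaPole 1 = 1`; but `1` in the ball contradicts `Tame`?  no: treat `z = 1` by continuity or note
`‖zetaPole 1‖ = 1` and compare: `zetaPole` is continuous and `1` is a limit of points `z ≠ 1` of the closed
ball, so the bound holds at `z = 1` too) and `(72/a) e^E ≤ exp (C (E + log (1/a)))` since `E ≥ 1`.
About 120 lines.
-/

set_option autoImplicit false

open Complex

namespace Pool.Agent.H76.GL

open Pool.Agent.H6 Pool.Agent.H6.Win Pool.Agent.H76.CR

/-- size of `∑ n^(-(1+a))` -/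
private lemma tsum_le {a : ℝ} (ha : 0 < a) (ha1 : a ≤ 1) :
    ∑' n : ℕ, 1 / (n : ℝ) ^ (1 + a) ≤ 18 / a := by
  have h5 : riemannZeta ((1 + a : ℝ) : ℂ) = ((∑' n : ℕ, 1 / (n : ℝ) ^ (1 + a) : ℝ) : ℂ) := by
    rw [zeta_eq_tsum_one_div_nat_cpow (by rw [ofReal_re]; linarith), ofReal_tsum]
    congr 1
    funext n
    rw [ofReal_div, ofReal_one, ofReal_cpow (Nat.cast_nonneg n), ofReal_natCast]
  have h4 : (∑' n : ℕ, 1 / (n : ℝ) ^ (1 + a)) = ‖riemannZeta ((1 + a : ℝ) : ℂ)‖ := by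
    rw [h5, norm_real, Real.norm_of_nonneg (tsum_nonneg fun n => by positivity)]
  have h7 := norm_zetaPole_le (s := ((1 + a : ℝ) : ℂ)) (by rw [ofReal_re]; linarith)
  have h8 : zetaPole ((1 + a : ℝ) : ℂ) =
      (((1 + a : ℝ) : ℂ) - 1) * riemannZeta ((1 + a : ℝ) : ℂ) := by
    rw [zetaPole_of_ne]
    intro h
    have : (1 + a : ℝ) = 1 := by exact_mod_cast h
    linarith
  rw [h8, norm_mul] at h7
  have h9 : ‖((1 + a : ℝ) : ℂ) - 1‖ = a := by
    rw [← ofReal_one, ← ofReal_sub, norm_real, Real.norm_of_nonneg (by linarith)]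
    ring
  have h10 : ‖((1 + a : ℝ) : ℂ)‖ = 1 + a := by
    rw [norm_real, Real.norm_of_nonneg (by linarith)]
  rw [h9, h10] at h7
  rw [h4, le_div_iff₀ ha]
  nlinarith

/-- lower bound for `zetaPole` at `c = 1 + a + it` -/
private lemma low {a : ℝ} (ha : 0 < a) (ha1 : a ≤ 1) (t : ℝ) :
    a ≤ ‖pt a t - 1‖ ∧ 1 ≤ 18 / a * ‖riemannZeta (pt a t)‖ ∧
      ‖zetaPole (pt a t)‖ = ‖pt a t - 1‖ * ‖riemannZeta (pt a t)‖ := by
  set K0 : ℝ := ∑' n : ℕ, 1 / (n : ℝ) ^ (1 + a) with hK0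
  have hK1 : K0 ≤ 18 / a := tsum_le ha ha1
  set c : ℂ := pt a t with hc
  have hcre : c.re = 1 + a := by rw [hc, pt]; simp
  have h3 := norm_inv_riemannZeta_le (s := c) (x := 1 + a) (by linarith) (by rw [hcre])
  have hcne : c ≠ 1 := by
    intro h; rw [h] at hcre; simp at hcre; linarith
  have hζ : riemannZeta c ≠ 0 := riemannZeta_ne_zero_of_one_le_re (by rw [hcre]; linarith)
  have h4 : zetaPole c = (c - 1) * riemannZeta c := zetaPole_of_ne hcne
  have h5 : a ≤ ‖c - 1‖ := by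
    have := Complex.abs_re_le_norm (c - 1)
    rw [Complex.sub_re, hcre, Complex.one_re] at this
    have h6 : |1 + a - 1| = a := by rw [add_sub_cancel_left, abs_of_pos ha]
    rw [h6] at this
    exact this
  refine ⟨h5, ?_, by rw [h4, norm_mul]⟩
  rw [norm_inv] at h3
  have hpos : 0 < ‖riemannZeta c‖ := norm_pos_iff.2 hζ
  have h7 : 1 ≤ K0 * ‖riemannZeta c‖ := by
    rw [inv_le_iff_one_le_mul₀ hpos] at h3
    exact h3
  exact h7.trans (mul_le_mul_of_nonneg_right hK1 hpos.le)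

theorem grT : ∃ C : ℝ, 1 ≤ C ∧ ∀ a r E t : ℝ, 0 < a → 4 * a ≤ r → r ≤ 1 → 1 ≤ E → Tame r E t →
    Gr a t (C * (E + Real.log (1 / a))) := by
  refine ⟨6, by norm_num, fun a r E t ha har hr hE hT => ?_⟩
  have ha1 : a ≤ 1 := by linarith
  have hla : 0 ≤ Real.log (1 / a) := Real.log_nonneg (by rw [le_div_iff₀ ha]; linarith)
  refine ⟨by nlinarith, fun z hz => ?_⟩
  obtain ⟨l1, l2, l3⟩ := low ha ha1 t
  rw [Metric.mem_closedBall, dist_eq_norm] at hz
  have hζ0 : 0 ≤ ‖riemannZeta (pt a t)‖ := norm_nonneg _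
  have hexpZ : Real.exp (Real.log (1 / a)) = 1 / a := Real.exp_log (by positivity)
  have hinv : 1 ≤ 1 / a := by rw [le_div_iff₀ ha]; linarith
  have hc1 : 1 ≤ (1 / a) * ‖pt a t - 1‖ := by
    rw [one_div, ← div_eq_inv_mul, le_div_iff₀ ha]
    linarith
  have hlow : 1 ≤ 18 / a * (1 / a) * ‖zetaPole (pt a t)‖ := by
    rw [l3]
    calc (1 : ℝ) = 1 * 1 := by ring
      _ ≤ (18 / a * ‖riemannZeta (pt a t)‖) * ((1 / a) * ‖pt a t - 1‖) :=
          mul_le_mul l2 hc1 zero_le_one (by linarith)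
      _ = _ := by ring
  have hexp5 : (144 : ℝ) ≤ Real.exp 6 := by
    have h1 := Real.exp_one_gt_d9
    have h2 : Real.exp 6 = Real.exp 1 ^ 6 := by rw [← Real.exp_nat_mul]; norm_num
    rw [h2]
    calc (144 : ℝ) ≤ 2.7 ^ 6 := by norm_num
      _ ≤ Real.exp 1 ^ 6 := by gcongr; linarith
  have hexp4 : (72 : ℝ) ≤ Real.exp 5 := by
    have h1 := Real.exp_one_gt_d9
    have h2 : Real.exp 5 = Real.exp 1 ^ 5 := by rw [← Real.exp_nat_mul]; norm_num
    rw [h2]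
    calc (72 : ℝ) ≤ 2.7 ^ 5 := by norm_num
      _ ≤ Real.exp 1 ^ 5 := by gcongr; linarith
  by_cases hz1 : z = 1
  · have h2 := norm_zetaPole_le (s := z) (by rw [hz1, one_re]; norm_num)
    have h3 : ‖zetaPole z‖ ≤ 8 := by
      refine h2.trans ?_
      rw [hz1, norm_one]
      norm_num
    have hzc0 : 0 ≤ ‖zetaPole (pt a t)‖ := norm_nonneg _
    calc ‖zetaPole z‖ ≤ 8 * 1 := by linarith
      _ ≤ 8 * (18 / a * (1 / a) * ‖zetaPole (pt a t)‖) := by gcongr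
      _ = 144 * (1 / a) * (1 / a) * ‖zetaPole (pt a t)‖ := by ring
      _ ≤ Real.exp 6 * Real.exp (Real.log (1 / a)) * Real.exp (Real.log (1 / a)) *
          ‖zetaPole (pt a t)‖ := by
          rw [hexpZ]
          gcongr
      _ = Real.exp (6 + Real.log (1 / a) + Real.log (1 / a)) * ‖zetaPole (pt a t)‖ := by
          rw [← Real.exp_add, ← Real.exp_add]
      _ ≤ _ := by
          apply mul_le_mul_of_nonneg_right _ hzc0
          apply Real.exp_le_exp.2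
          nlinarith
  · have h1 : zetaPole z = (z - 1) * riemannZeta z := zetaPole_of_ne hz1
    have h2 : ‖riemannZeta z‖ ≤ Real.exp E := by
      apply hT
      have e1 : z - (1 + t * I) = (z - pt a t) + (a : ℂ) := by
        unfold pt
        push_cast
        ring
      calc ‖z - (1 + t * I)‖ = ‖(z - pt a t) + (a : ℂ)‖ := by rw [e1]
        _ ≤ ‖z - pt a t‖ + ‖(a : ℂ)‖ := norm_add_le _ _
        _ = ‖z - pt a t‖ + a := by rw [Complex.norm_of_nonneg ha.le]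
        _ ≤ r := by linarith
    have h3 : ‖z - 1‖ ≤ 4 * ‖pt a t - 1‖ := by
      calc ‖z - 1‖ = ‖(z - pt a t) + (pt a t - 1)‖ := by congr 1; ring
        _ ≤ ‖z - pt a t‖ + ‖pt a t - 1‖ := norm_add_le _ _
        _ ≤ _ := by linarith
    have hn0 : 0 ≤ ‖pt a t - 1‖ := norm_nonneg _
    rw [h1, norm_mul, l3]
    calc ‖z - 1‖ * ‖riemannZeta z‖ ≤ (4 * ‖pt a t - 1‖) * Real.exp E := by gcongr
      _ = (4 * ‖pt a t - 1‖) * Real.exp E * 1 := by ring
      _ ≤ (4 * ‖pt a t - 1‖) * Real.exp E * (18 / a * ‖riemannZeta (pt a t)‖) := by gcongr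
      _ = 72 * (1 / a) * Real.exp E * (‖pt a t - 1‖ * ‖riemannZeta (pt a t)‖) := by ring
      _ ≤ Real.exp 5 * Real.exp (Real.log (1 / a)) * Real.exp E *
          (‖pt a t - 1‖ * ‖riemannZeta (pt a t)‖) := by
          rw [hexpZ]
          gcongr
      _ = Real.exp (5 + Real.log (1 / a) + E) * (‖pt a t - 1‖ * ‖riemannZeta (pt a t)‖) := by
          rw [← Real.exp_add, ← Real.exp_add]
      _ ≤ _ := by
          apply mul_le_mul_of_nonneg_right _ (by positivity)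
          apply Real.exp_le_exp.2
          nlinarith

end Pool.Agent.H76.GL
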