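import Mathlib
import Pool.Agent.H76.GL.GrT
import Pool.Agent.H52.RK.HlocG
import Pool.Agent.H76.RP.ZcF

/-!
# Jen: the number of zeros in a tame disc (Jensen)

PROOF.  `exists_HG` with `η = 1/4`, `a = r/16`, radius `R = 7r/10`: `(1+η) R + a ≤ r`, so the growth
hypothesis on `closedBall (pt a t) ((1+η) R)` holds with `G = C (E + log (16/r)) ≤ C' E` (same estimate as
`grT`, where only radius `3a` is treated; copy its proof with the larger radius: `‖z - 1‖ ≤ ‖c-1‖ + R (1+η)`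
and `‖c - 1‖ ≥ |t| ≥ 1 ≥ R`), and every zero of `disc (r/2) t` lies in `closedBall (pt a t) ((1+η/2) R)`
(`r/2 + a ≤ (9/8)(7/10) r`).  The count `∑ zord ≤ C G`; `zord_eq` (`H76/RP/ZcF.lean`, `zc_sum`, see its
proofs) compares with `zc`.  About 120 lines.
-/

set_option autoImplicit false

open Complex

namespace Pool.Agent.H76.GL

open Pool.Agent.H6 Pool.Agent.H76.CR Pool.Agent.H76.RP

section

open Pool.Agent.H6.Win

/-- size of `∑ n^(-(1+a))` -/
private lemma tsum_le {a : ℝ} (ha : 0 < a) (ha1 : a ≤ 1) :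
    ∑' n : ℕ, 1 / (n : ℝ) ^ (1 + a) ≤ 18 / a := by
  have h5 : riemannZeta ((1 + a : ℝ) : ℂ) = ((∑' n : ℕ, 1 / (n : ℝ) ^ (1 + a) : ℝ) : ℂ) := by
    rw [zeta_eq_tsum_one_div_nat_cpow (by rw [ofReal_re]; linarith), ofReal_tsum]
    congr 1
    funext n
    rw [ofReal_div, ofReal_one, ofReal_cpow (Nat.cast_nonneg n), ofReal_natCast]
  have h4 : (∑' n : ℕ, 1 / (n : ℝ) ^ (1 + a)) = ‖riemannZeta ((1 + a : ℝ) : ℂ)‖ := by
    rw [h5, norm_real, Real.norm_of_nonneg (tsum_nonneg fun n => by positivity)]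
  have h7 := norm_zetaPole_le (s := ((1 + a : ℝ) : ℂ)) (by rw [ofReal_re]; linarith)
  have h8 : zetaPole ((1 + a : ℝ) : ℂ) =
      (((1 + a : ℝ) : ℂ) - 1) * riemannZeta ((1 + a : ℝ) : ℂ) := by
    rw [zetaPole_of_ne]
    intro h
    have : (1 + a : ℝ) = 1 := by exact_mod_cast h
    linarith
  rw [h8, norm_mul] at h7
  have h9 : ‖((1 + a : ℝ) : ℂ) - 1‖ = a := by
    rw [← ofReal_one, ← ofReal_sub, norm_real, Real.norm_of_nonneg (by linarith)]
    ring
  have h10 : ‖((1 + a : ℝ) : ℂ)‖ = 1 + a := by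
    rw [norm_real, Real.norm_of_nonneg (by linarith)]
  rw [h9, h10] at h7
  rw [h4, le_div_iff₀ ha]
  nlinarith

/-- lower bound for `zetaPole` at `c = 1 + a + it` -/
private lemma low {a : ℝ} (ha : 0 < a) (ha1 : a ≤ 1) (t : ℝ) :
    a ≤ ‖pt a t - 1‖ ∧ 1 ≤ 18 / a * ‖riemannZeta (pt a t)‖ ∧
      ‖zetaPole (pt a t)‖ = ‖pt a t - 1‖ * ‖riemannZeta (pt a t)‖ := by
  set K0 : ℝ := ∑' n : ℕ, 1 / (n : ℝ) ^ (1 + a) with hK0
  have hK1 : K0 ≤ 18 / a := tsum_le ha ha1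
  set c : ℂ := pt a t with hc
  have hcre : c.re = 1 + a := by rw [hc, pt]; simp
  have h3 := norm_inv_riemannZeta_le (s := c) (x := 1 + a) (by linarith) (by rw [hcre])
  have hcne : c ≠ 1 := by
    intro h; rw [h] at hcre; simp at hcre; linarith
  have hζ : riemannZeta c ≠ 0 := riemannZeta_ne_zero_of_one_le_re (by rw [hcre]; linarith)
  have h4 : zetaPole c = (c - 1) * riemannZeta c := zetaPole_of_ne hcne
  have h5 : a ≤ ‖c - 1‖ := by
    have := Complex.abs_re_le_norm (c - 1)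
    rw [Complex.sub_re, hcre, Complex.one_re] at this
    have h6 : |1 + a - 1| = a := by rw [add_sub_cancel_left, abs_of_pos ha]
    rw [h6] at this
    exact this
  refine ⟨h5, ?_, by rw [h4, norm_mul]⟩
  rw [norm_inv] at h3
  have hpos : 0 < ‖riemannZeta c‖ := norm_pos_iff.2 hζ
  have h7 : 1 ≤ K0 * ‖riemannZeta c‖ := by
    rw [inv_le_iff_one_le_mul₀ hpos] at h3
    exact h3
  exact h7.trans (mul_le_mul_of_nonneg_right hK1 hpos.le)

end

private lemma ne_one' {u : ℂ} (hu : riemannZeta u = 0) : u ≠ 1 := by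
  rintro rfl
  exact riemannZeta_one_ne_zero hu

theorem jen : ∃ C : ℝ, 1 ≤ C ∧ ∀ r E t : ℝ, 0 < r → r ≤ 1 → 1 + Real.log (1 / r) ≤ E →
    1 ≤ |t| → Tame r E t → (zc (r / 2) t : ℝ) ≤ C * E := by
  obtain ⟨C, hC, hmain⟩ := Pool.Agent.H52.RK.exists_HG (η := 1 / 4) (by norm_num)
  refine ⟨9 * C + 1, by linarith, ?_⟩
  intro r E t hr hr1 hE ht hT
  have hlr : 0 ≤ Real.log (1 / r) := Real.log_nonneg (by rw [le_div_iff₀ hr]; linarith)
  have hE1 : 1 ≤ E := by linarith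
  obtain ⟨a, ha⟩ : ∃ a : ℝ, a = r / 16 := ⟨_, rfl⟩
  obtain ⟨R, hR⟩ : ∃ R : ℝ, R = 7 * r / 10 := ⟨_, rfl⟩
  have ha0 : 0 < a := by rw [ha]; positivity
  have ha1 : a ≤ 1 := by rw [ha]; linarith
  have hR0 : 0 < R := by rw [hR]; positivity
  obtain ⟨l1, l2, l3⟩ := low ha0 ha1 t
  have hcim : (pt a t - 1).im = t := by rw [pt]; simp
  have hct : 1 ≤ ‖pt a t - 1‖ := by
    have h := Complex.abs_im_le_norm (pt a t - 1)
    rw [hcim] at h
    linarith
  have hcd : ‖pt a t - (1 + t * I)‖ = a := by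
    have h : pt a t - (1 + t * I) = (a : ℂ) := by
      rw [pt]
      push_cast
      ring
    rw [h, Complex.norm_real, Real.norm_of_nonneg ha0.le]
  have hgrow : ∀ z ∈ Metric.closedBall (pt a t) ((1 + 1 / 4) * R),
      ‖zetaPole z‖ ≤ Real.exp (9 * E) * ‖zetaPole (pt a t)‖ := by
    intro z hz
    rw [Metric.mem_closedBall, dist_eq_norm] at hz
    have hz1 : ‖z - (1 + t * I)‖ ≤ 15 / 16 * r := by
      calc ‖z - (1 + t * I)‖ = ‖(z - pt a t) + (pt a t - (1 + t * I))‖ := by congr 1; ring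
        _ ≤ ‖z - pt a t‖ + ‖pt a t - (1 + t * I)‖ := norm_add_le _ _
        _ ≤ (1 + 1 / 4) * R + a := by rw [hcd]; linarith
        _ = 15 / 16 * r := by rw [hR, ha]; ring
    have hζ := hT z (by linarith)
    have hzne : z ≠ 1 := by
      intro h
      rw [h] at hz1
      have h1 := Complex.abs_im_le_norm ((1 : ℂ) - (1 + t * I))
      have h2 : ((1 : ℂ) - (1 + t * I)).im = -t := by simp
      rw [h2, abs_neg] at h1
      linarith
    have hz2 : ‖z - 1‖ ≤ 2 * ‖pt a t - 1‖ := by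
      calc ‖z - 1‖ = ‖(z - pt a t) + (pt a t - 1)‖ := by congr 1; ring
        _ ≤ ‖z - pt a t‖ + ‖pt a t - 1‖ := norm_add_le _ _
        _ ≤ (1 + 1 / 4) * R + ‖pt a t - 1‖ := by linarith
        _ ≤ 2 * ‖pt a t - 1‖ := by rw [hR]; linarith
    have hexpr : Real.exp (Real.log (1 / r)) = 1 / r := Real.exp_log (by positivity)
    have hnum : (576 : ℝ) ≤ Real.exp 7 := by
      have := Real.exp_one_gt_d9
      have h8 : Real.exp 7 = Real.exp 1 ^ 7 := by rw [← Real.exp_nat_mul]; norm_num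
      rw [h8]
      calc (576 : ℝ) ≤ 2.7 ^ 7 := by norm_num
        _ ≤ Real.exp 1 ^ 7 := by gcongr; linarith
    have hζ0 : 0 ≤ ‖riemannZeta (pt a t)‖ := norm_nonneg _
    have hc0 : 0 ≤ ‖pt a t - 1‖ := norm_nonneg _
    rw [zetaPole_of_ne hzne, norm_mul, l3]
    calc ‖z - 1‖ * ‖riemannZeta z‖
        ≤ (2 * ‖pt a t - 1‖) * Real.exp E := by gcongr
      _ = (2 * ‖pt a t - 1‖) * Real.exp E * 1 := by ring
      _ ≤ (2 * ‖pt a t - 1‖) * Real.exp E * (18 / a * ‖riemannZeta (pt a t)‖) := by gcongr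
      _ = 576 * Real.exp E * (1 / r) * (‖pt a t - 1‖ * ‖riemannZeta (pt a t)‖) := by
          rw [ha]
          field_simp
          ring
      _ ≤ Real.exp 7 * Real.exp E * Real.exp (Real.log (1 / r)) *
          (‖pt a t - 1‖ * ‖riemannZeta (pt a t)‖) := by
          rw [hexpr]
          gcongr
      _ = Real.exp (7 + E + Real.log (1 / r)) * (‖pt a t - 1‖ * ‖riemannZeta (pt a t)‖) := by
          rw [← Real.exp_add, ← Real.exp_add]
      _ ≤ Real.exp (9 * E) * (‖pt a t - 1‖ * ‖riemannZeta (pt a t)‖) := by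
          apply mul_le_mul_of_nonneg_right _ (by positivity)
          apply Real.exp_le_exp.2
          linarith
  obtain ⟨S, H, hS1, hS2, hS3, -, -, -⟩ := hmain a R t (9 * E) ha0 hR0 (by linarith) hgrow
  have h1 : zc (r / 2) t ≤ ∑ u ∈ S, zord u := by
    rw [zc_sum (by linarith : r / 2 ≤ 1)]
    have h2 : ∑ u ∈ (disc_finite (by linarith : r / 2 ≤ 1) t).toFinset,
        analyticOrderNatAt riemannZeta u =
        ∑ u ∈ (disc_finite (by linarith : r / 2 ≤ 1) t).toFinset, zord u := by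
      refine Finset.sum_congr rfl fun u hu => ?_
      rw [Set.Finite.mem_toFinset] at hu
      exact (zord_eq (ne_one' hu.1)).symm
    rw [h2]
    refine Finset.sum_le_sum_of_subset fun u hu => ?_
    rw [Set.Finite.mem_toFinset] at hu
    rw [hS1]
    refine ⟨?_, (zetaPole_eq_zero_iff (ne_one' hu.1)).2 hu.1⟩
    rw [Metric.mem_closedBall, dist_eq_norm]
    have h3 : ‖u - pt a t‖ ≤ ‖u - (1 + t * I)‖ + ‖pt a t - (1 + t * I)‖ := by
      calc ‖u - pt a t‖ = ‖(u - (1 + t * I)) - (pt a t - (1 + t * I))‖ := by congr 1; ring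
        _ ≤ _ := norm_sub_le _ _
    have h4 := hu.2
    rw [hcd] at h3
    rw [hR]
    linarith
  have h2 : (zc (r / 2) t : ℝ) ≤ ∑ u ∈ S, (zord u : ℝ) := by
    have h := (Nat.cast_le (α := ℝ)).2 h1
    rw [Nat.cast_sum] at h
    exact h
  calc (zc (r / 2) t : ℝ) ≤ C * (9 * E) := h2.trans hS3
    _ ≤ (9 * C + 1) * E := by nlinarith

end Pool.Agent.H76.GL
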