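import Mathlib
import Pool.Agent.H76.GL.DefT
import Pool.Agent.H76.GS.PosK

/-!
# OddI: odd combinations of isolated zeros, with local growth

PROOF: as `H76/GS/OddM.lean` (`oddM`), with the parameters chosen directly: `r1, C1` from `defT`, `C2` from
`locT_pt`, `1 ≤ len` (some `kk ρ ≠ 0` because `0 < dep`), `1 - Re ρ ≤ dep` for `kk ρ ≠ 0` (see the proof of
`H76/GS/Par.lean`), `1 ≤ Λ` (`S` is nonempty, `Gr`), `k0 = ⌈logb 2 (64 (C1+C2) Λ len²)⌉₊`, so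
`64 (C1+C2) len² Λ ≤ 2^k0` and `k0 + 1 ≤ C4 L`, `L = log (3 Λ len) ≥ 1`.  `c = 1/(64 C4)`.
-/

set_option autoImplicit false

open Complex

namespace Pool.Agent.H76.GL

open Pool.Agent.H76.CR Pool.Agent.H76.RP Pool.Agent.H76.GS

private theorem om_empty {a r t : ℝ} (hr : r ≤ 1) (har : 3 * a ≤ r) (hz : zc r t = 0) :
    disc (3 * a) t = ∅ := by
  rw [Set.eq_empty_iff_forall_notMem]
  intro u hu
  have h3 := zc_ge hr t {u} (by
    intro z hz
    rw [Finset.mem_singleton] at hz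
    rw [hz]
    exact ⟨hu.1, lt_of_lt_of_le hu.2 har⟩)
  rw [Finset.sum_singleton] at h3
  have h4 := ord_pos hu.1
  omega

private theorem om_re {a t x : ℝ} {k : ℕ} (h : a ^ (k + 1) * (Dk a k t).re ≤ x) :
    ((a : ℂ) ^ (k + 1) * Dk a k t).re ≤ x := by
  rw [← Complex.ofReal_pow, Complex.re_ofReal_mul]
  exact h

private theorem om_w {a t : ℝ} (ha : 0 < a) : ‖(a : ℂ) / (a + t * I)‖ ≤ 1 := by
  rw [norm_div]
  have h1 : ‖(a : ℂ)‖ = a := by rw [Complex.norm_real, Real.norm_eq_abs, abs_of_pos ha]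
  have h2 : a ≤ ‖(a : ℂ) + t * I‖ := by
    have h3 := Complex.abs_re_le_norm ((a : ℂ) + t * I)
    have h4 : ((a : ℂ) + t * I).re = a := by simp
    rw [h4, abs_of_pos ha] at h3
    exact h3
  rw [h1, div_le_one (lt_of_lt_of_le ha h2)]
  exact h2

private theorem om_sq {w : ℂ} (h1 : ‖w‖ ≤ 1) (h2 : w.re ≤ -(13 / 16)) (h3 : (w ^ 2).re ≤ -(13 / 16)) :
    False := by
  have h4 : (w ^ 2).re = w.re * w.re - w.im * w.im := by rw [sq, Complex.mul_re]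
  have h5 : ‖w‖ ^ 2 = w.re * w.re + w.im * w.im := by
    rw [Complex.sq_norm, Complex.normSq_apply]
  have h6 : ‖w‖ ^ 2 ≤ 1 := by
    have := norm_nonneg w
    nlinarith
  nlinarith

/-- the elementary consequences of `0 < dep` -/
private theorem oi_dep {S : Finset ℂ} {kk : ℂ → ℤ} (h1 : ∀ ρ ∈ S, ρ.re ≤ 1) (hd : 0 < dep S kk) :
    S.Nonempty ∧ 1 ≤ len S kk ∧ ∀ ρ ∈ S, kk ρ ≠ 0 → 1 - ρ.re ≤ dep S kk := by
  have habs : ∀ ρ : ℂ, kk ρ ≠ 0 → (1 : ℝ) ≤ |(kk ρ : ℝ)| := by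
    intro ρ hne
    have := Int.one_le_abs hne
    exact_mod_cast this
  have hnn : ∀ ρ ∈ S, 0 ≤ |(kk ρ : ℝ)| * (1 - ρ.re) := fun ρ hρ =>
    mul_nonneg (abs_nonneg _) (by linarith [h1 ρ hρ])
  have hex : ∃ ρ ∈ S, kk ρ ≠ 0 := by
    by_contra hcon
    push Not at hcon
    have : dep S kk = 0 := by
      unfold dep
      have : ∑ ρ ∈ S, |(kk ρ : ℝ)| * (1 - ρ.re) = 0 := by
        refine Finset.sum_eq_zero fun ρ hρ => ?_
        rw [hcon ρ hρ]
        simp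
      rw [this, mul_zero]
    linarith
  obtain ⟨ρ0, hρ0, hne0⟩ := hex
  have hlen : 1 ≤ len S kk := by
    unfold len
    refine (habs ρ0 hne0).trans ?_
    exact Finset.single_le_sum (f := fun ρ : ℂ => |(kk ρ : ℝ)|) (fun ρ _ => abs_nonneg _) hρ0
  refine ⟨⟨ρ0, hρ0⟩, hlen, fun ρ hρ hne => ?_⟩
  have hs : |(kk ρ : ℝ)| * (1 - ρ.re) ≤ ∑ ρ ∈ S, |(kk ρ : ℝ)| * (1 - ρ.re) :=
    Finset.single_le_sum (f := fun ρ : ℂ => |(kk ρ : ℝ)| * (1 - ρ.re)) hnn hρ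
  have hs0 : 0 ≤ ∑ ρ ∈ S, |(kk ρ : ℝ)| * (1 - ρ.re) := Finset.sum_nonneg hnn
  have h2 : 1 - ρ.re ≤ |(kk ρ : ℝ)| * (1 - ρ.re) := by
    have := habs ρ hne
    have := h1 ρ hρ
    nlinarith
  unfold dep
  nlinarith

/-- the level -/
private theorem oi_level {A : ℝ} (hA : 64 ≤ A) : ∃ C4 : ℝ, 1 ≤ C4 ∧ ∀ Λ l : ℝ, 1 ≤ Λ → 1 ≤ l →
    ∃ k0 : ℕ, A * l ^ 2 * Λ ≤ 2 ^ k0 ∧ (k0 : ℝ) + 1 ≤ C4 * Real.log (3 * Λ * l) ∧
      1 ≤ Real.log (3 * Λ * l) := by
  have hl2 : 0 < Real.log 2 := Real.log_pos (by norm_num)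
  have hA0 : 0 < A := by linarith
  have hlA : 0 ≤ Real.log A := Real.log_nonneg (by linarith)
  refine ⟨(Real.log A + 2) / Real.log 2 + 2, ?_, ?_⟩
  · have : 0 ≤ (Real.log A + 2) / Real.log 2 := by positivity
    linarith
  intro Λ l hΛ hl
  have hΛ0 : 0 < Λ := by linarith
  have hl0 : 0 < l := by linarith
  have hL1 : 1 ≤ Real.log (3 * Λ * l) := by
    rw [Real.le_log_iff_exp_le (by positivity)]
    have h1 : Real.exp 1 ≤ 3 := by linarith [Real.exp_one_lt_d9]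
    have h2 : 3 ≤ 3 * Λ * l := by nlinarith
    linarith
  have hx0 : 0 < A * l ^ 2 * Λ := by positivity
  have hx1 : 1 ≤ A * l ^ 2 * Λ := by
    have h1 : 1 ≤ l ^ 2 := by nlinarith
    have h2 : 1 ≤ l ^ 2 * Λ := by nlinarith
    nlinarith
  refine ⟨⌈Real.logb 2 (A * l ^ 2 * Λ)⌉₊, ?_, ?_, hL1⟩
  · have h1 : Real.logb 2 (A * l ^ 2 * Λ) ≤ (⌈Real.logb 2 (A * l ^ 2 * Λ)⌉₊ : ℝ) := Nat.le_ceil _
    rw [Real.logb_le_iff_le_rpow (by norm_num) hx0, Real.rpow_natCast] at h1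
    exact h1
  · have h0 : 0 ≤ Real.logb 2 (A * l ^ 2 * Λ) := Real.logb_nonneg (by norm_num) hx1
    have h1 := (Nat.ceil_lt_add_one h0).le
    have h2 : Real.log (A * l ^ 2 * Λ) ≤ Real.log A + 2 * Real.log (3 * Λ * l) := by
      have e1 : 2 * Real.log (3 * Λ * l) = Real.log ((3 * Λ * l) ^ 2) := by
        rw [Real.log_pow]
        norm_num
      rw [e1, ← Real.log_mul hA0.ne' (by positivity)]
      apply Real.log_le_log hx0
      have e2 : l ^ 2 * Λ ≤ (3 * Λ * l) ^ 2 := by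
        have : (3 * Λ * l) ^ 2 = 9 * Λ ^ 2 * l ^ 2 := by ring
        rw [this]
        have h3 : Λ ≤ 9 * Λ ^ 2 := by nlinarith
        have := mul_le_mul_of_nonneg_right h3 (sq_nonneg l)
        linarith
      have := mul_le_mul_of_nonneg_left e2 hA0.le
      linarith
    have h3 : Real.logb 2 (A * l ^ 2 * Λ) ≤
        (Real.log A + 2) / Real.log 2 * Real.log (3 * Λ * l) := by
      unfold Real.logb
      rw [div_mul_eq_mul_div]
      apply div_le_div_of_nonneg_right _ hl2.le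
      nlinarith
    have e3 : ((Real.log A + 2) / Real.log 2 + 2) * Real.log (3 * Λ * l) =
        (Real.log A + 2) / Real.log 2 * Real.log (3 * Λ * l) + 2 * Real.log (3 * Λ * l) := by ring
    rw [e3]
    linarith

theorem oddI : ∃ r1 c : ℝ, 0 < r1 ∧ r1 ≤ 1 / 16 ∧ 0 < c ∧ ∀ (a r Λ : ℝ) (S : Finset ℂ) (kk : ℂ → ℤ),
    0 < a → a ≤ r1 → 3 * a ≤ r → r ≤ 1 →
    (∀ ρ ∈ S, riemannZeta ρ = 0 ∧ 1 ≤ |ρ.im| ∧ zc r ρ.im ≤ 1 ∧ Gr a ρ.im Λ) →
    0 < dep S kk → dep S kk * Real.log (3 * Λ * len S kk) ≤ c * a →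
    (2 * a ≤ |comb S kk| → Gr a (comb S kk) Λ) → Odd (∑ ρ ∈ S, kk ρ) →
    1 ≤ zc r (comb S kk) := by
  obtain ⟨r1, C1, hr1, hr1', hC1, hp1, hp2, hp3, -⟩ := defT
  obtain ⟨C2, hC2, hloc⟩ := locT_pt
  obtain ⟨C4, hC4, hlev⟩ := oi_level (A := 64 * (C1 + C2)) (by linarith)
  refine ⟨r1, 1 / (64 * C4), hr1, hr1', by positivity, ?_⟩
  intro a r Λ S kk ha0 har1 h3a hr' hS hdep hdc hG hodd
  have hre : ∀ ρ ∈ S, ρ.re ≤ 1 := by
    intro ρ hρ
    by_contra hcon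
    exact riemannZeta_ne_zero_of_one_le_re (by linarith) (hS ρ hρ).1
  obtain ⟨⟨ρ0, hρ0⟩, hlen, hρdep⟩ := oi_dep hre hdep
  have hΛ1 : 1 ≤ Λ := (hS ρ0 hρ0).2.2.2.1
  have hΛ0 : 0 < Λ := by linarith
  obtain ⟨k0, h1, hk0, hL1⟩ := hlev Λ (len S kk) hΛ1 hlen
  obtain ⟨L, hLe⟩ : ∃ L : ℝ, L = Real.log (3 * Λ * len S kk) := ⟨_, rfl⟩
  rw [← hLe] at hk0 hL1 hdc
  obtain ⟨c, hc⟩ : ∃ c : ℝ, c = 1 / (64 * C4) := ⟨_, rfl⟩
  rw [← hc] at hdc
  have hc0 : 0 < c := by rw [hc]; positivity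
  have hcC : 2 * C4 * c = 1 / 32 := by
    rw [hc]
    field_simp
    norm_num
  have hc1 : c ≤ 1 / 64 := by nlinarith
  have hdle : dep S kk ≤ c * a := by
    refine le_trans ?_ hdc
    nlinarith
  have hca : c * a < a := by nlinarith
  have hsg : sg S kk = -1 := by
    unfold sg
    exact hodd.neg_one_zpow
  have hl2 : 1 ≤ len S kk ^ 2 := by nlinarith
  have h2 : 64 * (C1 + C2) * Λ ≤ 2 ^ k0 := by
    refine le_trans ?_ h1
    have h3 : 0 < 64 * (C1 + C2) * Λ := by positivity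
    nlinarith
  -- the main estimate
  have hpw : ∀ k : ℕ, k0 ≤ k → (2 : ℝ) ^ k0 ≤ 2 ^ k := fun k hk =>
    pow_le_pow_right₀ (by norm_num) hk
  have hC1k : ∀ k : ℕ, k0 ≤ k → C1 / 2 ^ k ≤ 1 / 64 := by
    intro k hk
    rw [div_le_div_iff₀ (by positivity) (by norm_num)]
    have e1 : C1 * 64 ≤ 64 * (C1 + C2) * Λ := by nlinarith
    have := hpw k hk
    linarith
  have hstar : ∀ k : ℕ, k0 ≤ k → (k : ℝ) + 1 ≤ 2 * ((k0 : ℝ) + 1) →
      a ^ (k + 1) * (Dk a k (comb S kk)).re ≤ -(15 / 16) := by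
    intro k hk hk2
    have hl := hp3 a r Λ k S kk ha0 har1 h3a hr' (fun ρ hρ => by
      obtain ⟨q1, q2, q3, q4⟩ := hS ρ hρ
      refine ⟨q1, q2, q3, fun hne => ?_, q4⟩
      have := hρdep ρ hρ hne
      linarith)
    have hA : ((k : ℝ) + 1) * dep S kk / a ≤ 1 / 32 := by
      rw [div_le_iff₀ ha0]
      calc ((k : ℝ) + 1) * dep S kk ≤ (2 * (C4 * L)) * dep S kk := by
            apply mul_le_mul_of_nonneg_right _ hdep.le
            linarith
        _ = 2 * C4 * (dep S kk * L) := by ring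
        _ ≤ 2 * C4 * (c * a) := mul_le_mul_of_nonneg_left hdc (by linarith)
        _ = (2 * C4 * c) * a := by ring
        _ = 1 / 32 * a := by rw [hcC]
    have hB : len S kk ^ 2 * (C1 * Λ / 2 ^ k) ≤ 1 / 64 := by
      have e1 : len S kk ^ 2 * (C1 * Λ / 2 ^ k) = C1 * len S kk ^ 2 * Λ / 2 ^ k := by ring
      rw [e1, div_le_div_iff₀ (by positivity) (by norm_num)]
      have e2 := hpw k hk
      have e3 : 0 ≤ C2 * len S kk ^ 2 * Λ := by positivity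
      nlinarith
    have hd00 : dco a k 0 = 0 := by unfold dco; simp
    have hpos := posK (dco a k) (dco_nonneg a k) hd00 (summable_dco ha0 k) S kk
    rw [hsg, ← Dk_Ds] at hpos
    have hak : 0 < a ^ (k + 1) := by positivity
    have hm := mul_le_mul_of_nonneg_left hpos hak.le
    have hx := (abs_le.1 ((hp2 a k ha0 har1).trans (hC1k k hk))).1
    have e : a ^ (k + 1) * ((∑' n : ℕ, dco a k n) - -1 * (Dk a k (comb S kk)).re) =
        a ^ (k + 1) * (∑' n : ℕ, dco a k n) + a ^ (k + 1) * (Dk a k (comb S kk)).re := by ring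
    rw [e] at hm
    linarith
  by_contra hcon
  have hz0 : zc r (comb S kk) = 0 := by omega
  rcases le_or_gt (2 * a) |comb S kk| with hcase | hcase
  · have he := om_empty hr' h3a hz0
    have hb := (hloc a (comb S kk) Λ k0 ha0 (by linarith) hcase (hG hcase)).1 he
    have h4 : C2 * Λ / 2 ^ (k0 + 1) ≤ 1 / 64 := by
      rw [div_le_div_iff₀ (by positivity) (by norm_num), pow_succ]
      have : 0 ≤ C1 * Λ := by positivity
      nlinarith
    have h5 := hstar k0 le_rfl (by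
      have : (0 : ℝ) ≤ k0 := Nat.cast_nonneg _
      linarith)
    have h6 := neg_abs_le (Dk a k0 (comb S kk)).re
    have h7 := Complex.abs_re_le_norm (Dk a k0 (comb S kk))
    have hak : 0 < a ^ (k0 + 1) := by positivity
    have h8 : a ^ (k0 + 1) * (-‖Dk a k0 (comb S kk)‖) ≤ a ^ (k0 + 1) * (Dk a k0 (comb S kk)).re :=
      mul_le_mul_of_nonneg_left (by linarith) hak.le
    linarith
  · have hw := om_w (t := comb S kk) ha0
    have hk2 : (((2 * k0 + 1 : ℕ) : ℝ)) + 1 ≤ 2 * ((k0 : ℝ) + 1) := by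
      push_cast
      linarith
    have h5 := om_re (hstar k0 le_rfl (by
      have : (0 : ℝ) ≤ k0 := Nat.cast_nonneg _
      linarith))
    have h6 := om_re (hstar (2 * k0 + 1) (by omega) hk2)
    have g1 := (hp1 a (comb S kk) k0 ha0 har1 hcase.le).trans (hC1k k0 le_rfl)
    have g2 := (hp1 a (comb S kk) (2 * k0 + 1) ha0 har1 hcase.le).trans (hC1k (2 * k0 + 1) (by omega))
    have g3 := (Complex.abs_re_le_norm _).trans g1
    have g4 := (Complex.abs_re_le_norm _).trans g2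
    rw [Complex.sub_re] at g3 g4
    have g5 := (abs_le.1 g3).1
    have g6 := (abs_le.1 g4).1
    refine om_sq (w := ((a : ℂ) / (a + (comb S kk : ℝ) * I)) ^ (k0 + 1)) ?_ (by linarith) ?_
    · rw [norm_pow]
      exact pow_le_one₀ (norm_nonneg _) hw
    · rw [← pow_mul, show (k0 + 1) * 2 = 2 * k0 + 1 + 1 from by ring]
      linarith

end Pool.Agent.H76.GL
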