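import Mathlib
import Pool.Agent.H76.GL.CoreL
import Pool.Agent.H76.GL.LocT

/-!
# OddL: odd combinations of uncrowded zeros, with local growth

PROOF: as `H76/GS/OddU.lean` (`oddU`), with `coreL`, `locT_pt`.  About 150 lines.
-/

set_option autoImplicit false

open Complex

namespace Pool.Agent.H76.GL

open Pool.Agent.H76.CR Pool.Agent.H76.RP Pool.Agent.H76.GS

private theorem ol_empty {a r t : ℝ} (hr : r ≤ 1) (har : 3 * a ≤ r) (hz : zc r t = 0) :
    disc (3 * a) t = ∅ := by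
  rw [Set.eq_empty_iff_forall_notMem]
  intro u hu
  have h3 := zc_ge hr t {u} (by
    intro z hz
    rw [Finset.mem_singleton] at hz
    rw [hz]
    exact ⟨hu.1, lt_of_lt_of_le hu.2 har⟩)
  rw [Finset.sum_singleton] at h3
  have h4 := ord_pos hu.1
  omega

private theorem ol_tail {k0 K : ℕ} (h : k0 ≤ K) :
    ∑ k ∈ Finset.Ico k0 K, (1 / 2 : ℝ) ^ (k + 1) ≤ (1 / 2) ^ k0 := by
  have key : ∑ k ∈ Finset.Ico k0 K, (1 / 2 : ℝ) ^ (k + 1) = (1 / 2) ^ k0 - (1 / 2) ^ K := by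
    induction K, h using Nat.le_induction with
    | base => simp
    | succ n hn ih =>
      rw [Finset.sum_Ico_succ_top hn, ih, pow_succ]
      ring
  rw [key]
  have : (0 : ℝ) < (1 / 2) ^ K := by positivity
  linarith

/-- the lower bound in the first case -/
private theorem ol_far {a q C2 Λ t : ℝ} {k0 K : ℕ} (ha : 0 < a) (hq : 0 < q) (hq1 : q < 1) (hC2 : 0 ≤ C2)
    (hΛ : 0 ≤ Λ) (hkK : k0 ≤ K) (hΛk : Λ ≤ 2 ^ k0)
    (h : ∀ k : ℕ, a ^ (k + 1) * ‖Dk a k t‖ ≤ C2 * Λ / 2 ^ (k + 1)) :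
    -(C2 / a) ≤ ∑ k ∈ Finset.Ico k0 K, (q * a) ^ k * (Dk a k t).re := by
  have h1 : ∀ k ∈ Finset.Ico k0 K, -(C2 * Λ / a * (1 / 2) ^ (k + 1)) ≤ (q * a) ^ k * (Dk a k t).re := by
    intro k _
    have h2 := h k
    have h3 : a ^ k * ‖Dk a k t‖ ≤ C2 * Λ / a * (1 / 2) ^ (k + 1) := by
      have e : C2 * Λ / a * (1 / 2) ^ (k + 1) = C2 * Λ / 2 ^ (k + 1) / a := by
        rw [one_div, inv_pow]
        field_simp
      rw [e, le_div_iff₀ ha]
      calc a ^ k * ‖Dk a k t‖ * a = a ^ (k + 1) * ‖Dk a k t‖ := by ring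
        _ ≤ _ := h2
    have h4 : (q * a) ^ k ≤ a ^ k := by
      apply pow_le_pow_left₀ (by positivity)
      nlinarith
    have h5 : (q * a) ^ k * ‖Dk a k t‖ ≤ a ^ k * ‖Dk a k t‖ :=
      mul_le_mul_of_nonneg_right h4 (norm_nonneg _)
    have h6 : -‖Dk a k t‖ ≤ (Dk a k t).re := by
      have e1 := Complex.abs_re_le_norm (Dk a k t)
      have e2 := neg_abs_le (Dk a k t).re
      linarith
    have h7 : (q * a) ^ k * (-‖Dk a k t‖) ≤ (q * a) ^ k * (Dk a k t).re :=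
      mul_le_mul_of_nonneg_left h6 (by positivity)
    linarith
  have h2 := Finset.sum_le_sum h1
  refine le_trans ?_ h2
  rw [Finset.sum_neg_distrib, ← Finset.mul_sum, neg_le_neg_iff]
  calc C2 * Λ / a * ∑ k ∈ Finset.Ico k0 K, (1 / 2 : ℝ) ^ (k + 1) ≤ C2 * Λ / a * (1 / 2) ^ k0 :=
        mul_le_mul_of_nonneg_left (ol_tail hkK) (by positivity)
    _ = C2 / a * (Λ * (1 / 2) ^ k0) := by ring
    _ ≤ C2 / a * 1 := by
        apply mul_le_mul_of_nonneg_left _ (by positivity)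
        rw [one_div, inv_pow, ← div_eq_mul_inv, div_le_one (by positivity)]
        exact hΛk
    _ = C2 / a := mul_one _

/-- the lower bound in the second case -/
private theorem ol_near {a q C1 t : ℝ} {k0 K : ℕ} (ha : 0 < a) (hq : 0 < q) (hq1 : q < 1) (hC1 : 0 ≤ C1)
    (hkK : k0 ≤ K) (hK : q ^ K ≤ 1 - q)
    (h : ∀ k : ℕ, ‖(a : ℂ) ^ (k + 1) * Dk a k t - ((a : ℂ) / (a + t * I)) ^ (k + 1)‖ ≤ C1 / 2 ^ k) :
    -(((k0 : ℝ) + 1 + 2 * C1) / a) ≤ ∑ k ∈ Finset.Ico k0 K, (q * a) ^ k * (Dk a k t).re := by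
  have ha' : (a : ℂ) ≠ 0 := by exact_mod_cast ha.ne'
  have hat : (a : ℂ) + t * I ≠ 0 := by
    intro h0
    have h1 := congrArg Complex.re h0
    simp at h1
    exact ha.ne' h1
  have h1 : ∀ k ∈ Finset.Ico k0 K, (((q * a : ℝ) : ℂ) ^ k / ((a : ℂ) + t * I) ^ (k + 1)).re -
      2 * C1 / a * (1 / 2) ^ (k + 1) ≤ (q * a) ^ k * (Dk a k t).re := by
    intro k _
    have h2 := h k
    have e1 : ((q * a : ℝ) : ℂ) ^ k * Dk a k t - ((q * a : ℝ) : ℂ) ^ k / ((a : ℂ) + t * I) ^ (k + 1) =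
        ((q : ℂ) ^ k / a) * ((a : ℂ) ^ (k + 1) * Dk a k t - ((a : ℂ) / (a + t * I)) ^ (k + 1)) := by
      push_cast
      rw [mul_pow, div_pow]
      field_simp
      ring
    have e2 : ‖(q : ℂ) ^ k / a‖ ≤ 1 / a := by
      rw [norm_div, norm_pow, Complex.norm_real, Complex.norm_real, Real.norm_eq_abs, Real.norm_eq_abs,
        abs_of_pos hq, abs_of_pos ha]
      exact div_le_div_of_nonneg_right (pow_le_one₀ hq.le hq1.le) ha.le
    have e3 : ‖((q * a : ℝ) : ℂ) ^ k * Dk a k t - ((q * a : ℝ) : ℂ) ^ k / ((a : ℂ) + t * I) ^ (k + 1)‖ ≤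
        2 * C1 / a * (1 / 2) ^ (k + 1) := by
      rw [e1, norm_mul]
      calc _ ≤ 1 / a * (C1 / 2 ^ k) := mul_le_mul e2 h2 (norm_nonneg _) (by positivity)
        _ = 2 * C1 / a * (1 / 2) ^ (k + 1) := by
          rw [one_div_pow, pow_succ]
          field_simp
    have e4 := (abs_le.1 ((Complex.abs_re_le_norm _).trans e3)).1
    rw [Complex.sub_re, ← Complex.ofReal_pow, Complex.re_ofReal_mul, Complex.ofReal_pow] at e4
    linarith
  have h2 := Finset.sum_le_sum h1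
  refine le_trans ?_ h2
  rw [Finset.sum_sub_distrib, ← Finset.mul_sum, ← Complex.re_sum]
  have h3 := geo ha hq hq1 hkK hK (w := (t : ℂ) * I) (by simp)
  have h4 : -(1 / ((((1 - q) * a : ℝ) : ℂ) + (t : ℂ) * I)).re ≤ 0 := by
    rw [neg_nonpos, one_div, Complex.inv_re]
    apply div_nonneg _ (Complex.normSq_nonneg _)
    simp
    nlinarith
  have h5 : 2 * C1 / a * ∑ k ∈ Finset.Ico k0 K, (1 / 2 : ℝ) ^ (k + 1) ≤ 2 * C1 / a := by
    calc _ ≤ 2 * C1 / a * (1 / 2) ^ k0 := mul_le_mul_of_nonneg_left (ol_tail hkK) (by positivity)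
      _ ≤ 2 * C1 / a * 1 := by
        apply mul_le_mul_of_nonneg_left _ (by positivity)
        exact pow_le_one₀ (by norm_num) (by norm_num)
      _ = _ := mul_one _
  have h6 : ((k0 : ℝ) + 1 + 2 * C1) / a = (k0 + 1) / a + 2 * C1 / a := add_div _ _ _
  rw [h6]
  linarith

theorem oddL : ∃ r1 c : ℝ, 0 < r1 ∧ r1 ≤ 1 / 16 ∧ 0 < c ∧ ∀ (a r Λ : ℝ) (S : Finset ℂ) (kk : ℂ → ℤ),
    0 < a → a ≤ r1 → 3 * a ≤ r → r ≤ 1 →
    (∀ ρ ∈ S, riemannZeta ρ = 0 ∧ 1 ≤ |ρ.im| ∧ Gr a ρ.im Λ) →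
    0 < dep S kk → dep S kk * Real.log (3 * Λ) ≤ c * a →
    dep S kk * num r S kk * Real.log (3 * Λ) ≤ c * a →
    (2 * a ≤ |comb S kk| → Gr a (comb S kk) Λ) → Odd (∑ ρ ∈ S, kk ρ) →
    1 ≤ zc r (comb S kk) := by
  obtain ⟨r1, C1, c0, C4, hr1, hr1', hC1, hc0, hc0', hC4, hnear, hcore⟩ := coreL
  obtain ⟨C2, hC2, hloc⟩ := locT_pt
  obtain ⟨B, hB⟩ : ∃ B : ℝ, B = 64 * (C1 + C2 + C4) * 2 := ⟨_, rfl⟩
  have hB0 : 0 < B := by rw [hB]; linarith
  refine ⟨r1, min c0 (1 / B), hr1, hr1', lt_min hc0 (by positivity), ?_⟩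
  intro a r Λ S kk ha har1 h3a hr hS hdep hd1 hd2 hGr hodd
  have hcc : min c0 (1 / B) * a ≤ c0 * a := mul_le_mul_of_nonneg_right (min_le_left _ _) ha.le
  have hcB : min c0 (1 / B) * a ≤ 1 / B * a := mul_le_mul_of_nonneg_right (min_le_right _ _) ha.le
  obtain ⟨q, k0, K, hq, hq1, hqa, hkK, hqK, hΛ1, hΛk, hk0, hsum⟩ := hcore a r Λ S kk ha har1 h3a hr hS hdep
    (hd1.trans hcc) (hd2.trans hcc)
  have hsg : sg S kk = -1 := by
    unfold sg
    exact hodd.neg_one_zpow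
  rw [hsg] at hsum
  have hL : 1 ≤ Real.log (3 * Λ) := by
    rw [Real.le_log_iff_exp_le (by linarith)]
    have := Real.exp_one_lt_d9
    linarith
  have hdL : dep S kk ≤ dep S kk * Real.log (3 * Λ) := by nlinarith
  have hdB : dep S kk * Real.log (3 * Λ) * B ≤ a := by
    have h1 := hd1.trans hcB
    have h2 := mul_le_mul_of_nonneg_right h1 hB0.le
    have h3 : 1 / B * a * B = a := by field_simp
    linarith
  by_contra hcon
  have hz0 : zc r (comb S kk) = 0 := by omega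
  have hx : 0 < 32 * dep S kk := by linarith
  have hlow : ∀ Y : ℝ, -(Y / a) ≤ ∑ k ∈ Finset.Ico k0 K, (q * a) ^ k * (Dk a k (comb S kk)).re →
      a * 3 ≤ 128 * dep S kk * Y := by
    intro Y hY
    have h1 : 3 / 4 / (32 * dep S kk) ≤ Y / a := by linarith
    rw [div_le_div_iff₀ hx ha] at h1
    linarith
  rcases le_or_gt (2 * a) |comb S kk| with hcase | hcase
  · have he := ol_empty hr h3a hz0
    have h1 := hlow C2 (ol_far ha hq hq1 (by linarith) (by linarith) hkK hΛk fun k =>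
      (hloc a (comb S kk) Λ k ha (by linarith) hcase (hGr hcase)).1 he)
    have h2 : 128 * dep S kk * C2 ≤ dep S kk * Real.log (3 * Λ) * B := by
      rw [hB]
      have e1 : 128 * dep S kk * C2 ≤ 128 * (dep S kk * Real.log (3 * Λ)) * C2 := by
        apply mul_le_mul_of_nonneg_right _ (by linarith)
        linarith
      have e2 : 0 ≤ 128 * (dep S kk * Real.log (3 * Λ)) * (C1 + C4) := by positivity
      nlinarith
    linarith
  · have h1 := hlow ((k0 : ℝ) + 1 + 2 * C1) (ol_near ha hq hq1 (by linarith) hkK hqK fun k =>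
      hnear a (comb S kk) k ha har1 hcase.le)
    have h2 : 128 * dep S kk * ((k0 : ℝ) + 1 + 2 * C1) ≤ 2 * (dep S kk * Real.log (3 * Λ) * B) := by
      rw [hB]
      have e1 : (k0 : ℝ) + 1 + 2 * C1 ≤ (C4 + 2 * C1) * Real.log (3 * Λ) := by nlinarith
      have e2 : 128 * dep S kk * ((k0 : ℝ) + 1 + 2 * C1) ≤ 128 * dep S kk * ((C4 + 2 * C1) * Real.log (3 * Λ)) :=
        mul_le_mul_of_nonneg_left e1 (by linarith)
      have e3 : 0 ≤ dep S kk * Real.log (3 * Λ) := by positivity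
      have e4 : 0 ≤ dep S kk * Real.log (3 * Λ) * C2 := by positivity
      have e5 : 0 ≤ dep S kk * Real.log (3 * Λ) * C4 := by positivity
      nlinarith
    linarith

end Pool.Agent.H76.GL
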