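import Mathlib
import Pool.Agent.H52.ZR.Low
import Pool.Agent.H76.GL.Dz
import Pool.Agent.H76.GL.GrT
import Pool.Agent.H76.GL.GrR
import Pool.Agent.H76.GL.Jen
import Pool.Agent.H76.GL.OddI
import Pool.Agent.H76.GL.EvenI
import Pool.Agent.H76.GL.DHI
import Pool.Agent.H76.GL.OddL
import Pool.Agent.H76.GL.EvenL

/-!
# Main: the lattice theorem, local form
-/

set_option autoImplicit false

open Complex

namespace Pool.Agent.H76.GL

open Pool.Agent.H76.CR Pool.Agent.H76.RP Pool.Agent.H52.RK Pool.Agent.H52.ZR Pool.Agent.H76.GS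

/-- the logarithmic factor `log ((2 + E) ∑ |k|)` -/
noncomputable def LL (E : ℝ) (S : Finset ℂ) (k : ℂ → ℤ) : ℝ := Real.log ((2 + E) * len S k)

theorem len_ge {S : Finset ℂ} {k : ℂ → ℤ} (h : 0 < dep S k) : 1 ≤ len S k := by
  have h0 : 0 < len S k := by
    rcases (len_nonneg S k).eq_or_lt with h1 | h1
    · unfold dep at h
      rw [← h1, zero_mul] at h
      exact absurd h (lt_irrefl _)
    · exact h1
  have h1 : ∃ ρ ∈ S, k ρ ≠ 0 := by
    by_contra hc
    push Not at hc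
    have : len S k = 0 := by
      unfold len
      exact Finset.sum_eq_zero fun ρ hρ => by rw [hc ρ hρ]; simp
    linarith
  obtain ⟨ρ, hρ, hk⟩ := h1
  have h2 : (1 : ℝ) ≤ |(k ρ : ℝ)| := by
    have : (1 : ℤ) ≤ |k ρ| := Int.one_le_abs hk
    rw [← Int.cast_abs]
    exact_mod_cast this
  have h3 : |(k ρ : ℝ)| ≤ len S k :=
    Finset.single_le_sum (f := fun ρ => |(k ρ : ℝ)|) (fun _ _ => abs_nonneg _) hρ
  linarith

/-- the parameters -/
theorem params {r0 CT : ℝ} (hr0 : 0 < r0) (hr0' : r0 ≤ 1) (hCT : 1 ≤ CT) :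
    ∃ C6 : ℝ, 1 ≤ C6 ∧ ∀ (r E K : ℝ), 0 < r → r ≤ 1 → 1 + Real.log (1 / r) ≤ E → 1 ≤ K →
      1 ≤ Real.log ((2 + E) * K) ∧
      Real.log (3 * (CT * (E + Real.log (1 / (r0 * r)))) * K) ≤ C6 * Real.log ((2 + E) * K) ∧
      Real.log (3 * (CT * (E + Real.log (1 / (r0 * r))))) ≤ C6 * Real.log ((2 + E) * K) ∧
      0 < Real.log (3 * (CT * (E + Real.log (1 / (r0 * r))))) ∧
      0 < Real.log (3 * (CT * (E + Real.log (1 / (r0 * r)))) * K) := by
  have hb : 0 ≤ Real.log (1 / r0) := Real.log_nonneg (by rw [le_div_iff₀ hr0]; linarith)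
  set C5 : ℝ := 3 * CT * (2 + Real.log (1 / r0)) with hC5
  have hC51 : 6 ≤ C5 := by
    rw [hC5]
    nlinarith
  have hlC5 : 0 ≤ Real.log C5 := Real.log_nonneg (by linarith)
  refine ⟨1 + Real.log C5, by linarith, ?_⟩
  intro r E K hr hr1 hE hK
  have hlr : 0 ≤ Real.log (1 / r) := Real.log_nonneg (by rw [le_div_iff₀ hr]; linarith)
  have hE1 : 1 ≤ E := by linarith
  have h1 : Real.log (1 / (r0 * r)) = Real.log (1 / r0) + Real.log (1 / r) := by
    rw [show 1 / (r0 * r) = 1 / r0 * (1 / r) by field_simp, Real.log_mul (by positivity) (by positivity)]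
  have h2 : 0 ≤ Real.log (1 / (r0 * r)) := by rw [h1]; linarith
  have h3 : 3 * (CT * (E + Real.log (1 / (r0 * r)))) ≤ C5 * (2 + E) := by
    rw [h1, hC5]
    have e : 3 * CT * (2 + Real.log (1 / r0)) * (2 + E) =
        3 * (CT * ((2 + Real.log (1 / r0)) * (2 + E))) := by ring
    rw [e]
    have e2 : E + (Real.log (1 / r0) + Real.log (1 / r)) ≤ (2 + Real.log (1 / r0)) * (2 + E) := by
      nlinarith
    have := mul_le_mul_of_nonneg_left e2 (by linarith : (0 : ℝ) ≤ CT)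
    linarith
  have h4 : 3 ≤ 3 * (CT * (E + Real.log (1 / (r0 * r)))) := by nlinarith
  have h2E : 3 ≤ 2 + E := by linarith
  have hL3 : 1 ≤ Real.log (2 + E) := by
    rw [Real.le_log_iff_exp_le (by linarith)]
    have := Real.exp_one_lt_d9
    linarith
  have hlK : 0 ≤ Real.log K := Real.log_nonneg hK
  have hLL : Real.log ((2 + E) * K) = Real.log (2 + E) + Real.log K :=
    Real.log_mul (by linarith) (by linarith)
  have h5 : Real.log (3 * (CT * (E + Real.log (1 / (r0 * r))))) ≤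
      Real.log C5 + Real.log (2 + E) := by
    rw [← Real.log_mul (by linarith) (by linarith)]
    exact Real.log_le_log (by linarith) h3
  have h6 : 0 < Real.log (3 * (CT * (E + Real.log (1 / (r0 * r))))) := Real.log_pos (by linarith)
  have h7 : Real.log (3 * (CT * (E + Real.log (1 / (r0 * r)))) * K) =
      Real.log (3 * (CT * (E + Real.log (1 / (r0 * r))))) + Real.log K :=
    Real.log_mul (by linarith) (by linarith)
  refine ⟨by rw [hLL]; linarith, ?_, ?_, h6, by rw [h7]; linarith⟩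
  · rw [h7, hLL]
    nlinarith
  · rw [hLL]
    nlinarith

/-- the theorem for one radius: `a = r0 r` -/
theorem core : ∃ c C : ℝ, 0 < c ∧ 1 ≤ C ∧ ∀ (r E : ℝ) (S : Finset ℂ) (k : ℂ → ℤ), 0 < r → r ≤ 1 →
    1 + Real.log (1 / r) ≤ E →
    (∀ ρ ∈ S, riemannZeta ρ = 0 ∧ 1 ≤ |ρ.im| ∧ Tame r E ρ.im) → 0 < dep S k →
    dep S k * LL E S k ≤ c * r →
    ((∀ ρ ∈ S, zc r ρ.im ≤ 1) ∨ dep S k * num r S k * LL E S k ≤ c * r) →
    (Tame r E (comb S k) ∨ r * vklam |comb S k| ≤ c) →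
      (Odd (∑ ρ ∈ S, k ρ) → 1 ≤ zc r (comb S k)) ∧
      (Even (∑ ρ ∈ S, k ρ) → |comb S k| ≤ C * dep S k ∨
        c * r / (dep S k * LL E S k) ≤ zc r (comb S k)) := by
  obtain ⟨r1, c1, hr1, hr1', hc1, hodd⟩ := oddI
  obtain ⟨r2, c2, C2, hr2, hr2', hc2, hC2, heven⟩ := evenI
  obtain ⟨r3, c3, hr3, hr3', hc3, hoddL⟩ := oddL
  obtain ⟨r4, c4, C4, hr4, hr4', hc4, hC4, hevenL⟩ := evenL
  obtain ⟨CT, hCT, hgT⟩ := grT
  obtain ⟨CR, hCR, hgR⟩ := grR
  set r0 : ℝ := min (min r1 r2) (min r3 r4) with hr0def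
  have hr0 : 0 < r0 := lt_min (lt_min hr1 hr2) (lt_min hr3 hr4)
  have h01 : r0 ≤ r1 := (min_le_left _ _).trans (min_le_left _ _)
  have h02 : r0 ≤ r2 := (min_le_left _ _).trans (min_le_right _ _)
  have h03 : r0 ≤ r3 := (min_le_right _ _).trans (min_le_left _ _)
  have h04 : r0 ≤ r4 := (min_le_right _ _).trans (min_le_right _ _)
  have h016 : r0 ≤ 1 / 16 := h01.trans hr1'
  set C0 : ℝ := CT + CR with hC0
  have hC01 : 1 ≤ C0 := by linarith
  obtain ⟨C6, hC6, hpar⟩ := params (r0 := r0) (CT := C0) hr0 (by linarith) hC01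
  set cm : ℝ := min (min c1 c2) (min c3 c4) with hcm
  have hcm0 : 0 < cm := lt_min (lt_min hc1 hc2) (lt_min hc3 hc4)
  have m1 : cm ≤ c1 := (min_le_left _ _).trans (min_le_left _ _)
  have m2 : cm ≤ c2 := (min_le_left _ _).trans (min_le_right _ _)
  have m3 : cm ≤ c3 := (min_le_right _ _).trans (min_le_left _ _)
  have m4 : cm ≤ c4 := (min_le_right _ _).trans (min_le_right _ _)
  set c : ℝ := min 1 (cm * r0 / C6) with hc
  have hc0 : 0 < c := lt_min one_pos (by positivity)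
  have hc1' : c ≤ 1 := min_le_left _ _
  have hcC : C6 * c ≤ cm * r0 := by
    have h := min_le_right 1 (cm * r0 / C6)
    rw [← hc, le_div_iff₀ (by linarith)] at h
    linarith
  refine ⟨c, max C2 C4, hc0, hC2.trans (le_max_left _ _), ?_⟩
  intro r E S k hr hr1x hE hS hd hdL hN ht
  have hlen := len_ge hd
  have hE1 : 1 ≤ E := by
    have : 0 ≤ Real.log (1 / r) := Real.log_nonneg (by rw [le_div_iff₀ hr]; linarith)
    linarith
  obtain ⟨p1, p2, p3, p4, p5⟩ := hpar r E (len S k) hr hr1x hE hlen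
  set a : ℝ := r0 * r with ha
  have ha0 : 0 < a := mul_pos hr0 hr
  have har0 : a ≤ r0 := by rw [ha]; nlinarith
  have h4a : 4 * a ≤ r := by rw [ha]; nlinarith
  have hla : 0 ≤ Real.log (1 / a) := Real.log_nonneg (by rw [le_div_iff₀ ha0]; linarith)
  set Λ : ℝ := C0 * (E + Real.log (1 / a)) with hΛ
  have hLLdef : LL E S k = Real.log ((2 + E) * len S k) := rfl
  rw [hLLdef] at hdL hN ⊢
  set L : ℝ := Real.log ((2 + E) * len S k) with hL
  have hGrT : ∀ t, Tame r E t → Gr a t Λ := fun t h =>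
    (hgT a r E t ha0 h4a hr1x hE1 h).mono (by
      rw [hΛ, hC0]
      have : 0 ≤ CR * (E + Real.log (1 / a)) := by positivity
      linarith)
  have hGr : ∀ ρ ∈ S, Gr a ρ.im Λ := fun ρ hρ => hGrT _ (hS ρ hρ).2.2
  have hGt : Gr a (comb S k) Λ := by
    rcases ht with h | h
    · exact hGrT _ h
    · refine (hgR a r (comb S k) ha0 (by linarith) (by linarith) hr1x (h.trans hc1')).mono ?_
      rw [hΛ, hC0]
      have h1 : CR * (1 + Real.log (1 / a)) ≤ CR * (E + Real.log (1 / a)) :=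
        mul_le_mul_of_nonneg_left (by linarith) (by linarith)
      have h2 : 0 ≤ CT * (E + Real.log (1 / a)) := by positivity
      linarith
  have hdC : C6 * (dep S k * L) ≤ cm * a := by
    calc C6 * (dep S k * L) ≤ C6 * (c * r) := mul_le_mul_of_nonneg_left hdL (by linarith)
      _ = C6 * c * r := by ring
      _ ≤ cm * r0 * r := mul_le_mul_of_nonneg_right hcC hr.le
      _ = cm * a := by rw [ha]; ring
  have hd1 : dep S k * Real.log (3 * Λ * len S k) ≤ cm * a := by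
    refine le_trans ?_ hdC
    calc dep S k * Real.log (3 * Λ * len S k) ≤ dep S k * (C6 * L) :=
          mul_le_mul_of_nonneg_left p2 hd.le
      _ = C6 * (dep S k * L) := by ring
  have hd2 : dep S k * Real.log (3 * Λ) ≤ cm * a := by
    refine le_trans ?_ hdC
    calc dep S k * Real.log (3 * Λ) ≤ dep S k * (C6 * L) :=
          mul_le_mul_of_nonneg_left p3 hd.le
      _ = C6 * (dep S k * L) := by ring
  have hL0 : 0 < L := by linarith
  have hdL0 : 0 < dep S k * L := mul_pos hd hL0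
  have hmax2 : ∀ x : ℝ, |x| ≤ C2 * dep S k → |x| ≤ max C2 C4 * dep S k := fun x h =>
    h.trans (mul_le_mul_of_nonneg_right (le_max_left _ _) hd.le)
  have hmax4 : ∀ x : ℝ, |x| ≤ C4 * dep S k → |x| ≤ max C2 C4 * dep S k := fun x h =>
    h.trans (mul_le_mul_of_nonneg_right (le_max_right _ _) hd.le)
  -- comparison of the final quotients
  have hquot : ∀ (M ci : ℝ), 0 < M → M ≤ C6 * L → cm ≤ ci →
      c * r / (dep S k * L) ≤ ci * a / (dep S k * M) := by
    intro M ci hM hML hci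
    rw [div_le_div_iff₀ hdL0 (mul_pos hd hM)]
    have h1 : c * r * (dep S k * M) ≤ c * r * (dep S k * (C6 * L)) :=
      mul_le_mul_of_nonneg_left (mul_le_mul_of_nonneg_left hML hd.le) (by positivity)
    have h2 : c * r * (dep S k * (C6 * L)) = C6 * c * r * (dep S k * L) := by ring
    have h3 : C6 * c * r ≤ ci * a := by
      calc C6 * c * r ≤ cm * r0 * r := mul_le_mul_of_nonneg_right hcC hr.le
        _ = cm * a := by rw [ha]; ring
        _ ≤ ci * a := mul_le_mul_of_nonneg_right hci ha0.le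
    calc c * r * (dep S k * M) ≤ C6 * c * r * (dep S k * L) := by rw [← h2]; exact h1
      _ ≤ ci * a * (dep S k * L) := mul_le_mul_of_nonneg_right h3 hdL0.le
  rcases hN with hN | hN
  · have hSI : ∀ ρ ∈ S, riemannZeta ρ = 0 ∧ 1 ≤ |ρ.im| ∧ zc r ρ.im ≤ 1 ∧ Gr a ρ.im Λ :=
      fun ρ hρ => ⟨(hS ρ hρ).1, (hS ρ hρ).2.1, hN ρ hρ, hGr ρ hρ⟩
    refine ⟨fun ho => ?_, fun he => ?_⟩
    · exact hodd a r Λ S k ha0 (har0.trans h01) (by linarith) hr1x hSI hd
        (hd1.trans (mul_le_mul_of_nonneg_right m1 ha0.le)) (fun _ => hGt) ho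
    · rcases heven a r Λ S k ha0 (har0.trans h02) (by linarith) hr1x hSI hd
        (hd1.trans (mul_le_mul_of_nonneg_right m2 ha0.le)) (fun _ => hGt) he with h | h
      · exact Or.inl (hmax2 _ h)
      · exact Or.inr ((hquot _ c2 p5 p2 m2).trans h)
  · have hSL : ∀ ρ ∈ S, riemannZeta ρ = 0 ∧ 1 ≤ |ρ.im| ∧ Gr a ρ.im Λ :=
      fun ρ hρ => ⟨(hS ρ hρ).1, (hS ρ hρ).2.1, hGr ρ hρ⟩
    have hnum0 : 0 ≤ num r S k := by
      unfold num
      exact mul_nonneg (len_nonneg S k) (Finset.sum_nonneg fun ρ _ =>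
        mul_nonneg (abs_nonneg _) (Nat.cast_nonneg _))
    have hd3 : dep S k * num r S k * Real.log (3 * Λ) ≤ cm * a := by
      calc dep S k * num r S k * Real.log (3 * Λ) ≤ dep S k * num r S k * (C6 * L) :=
            mul_le_mul_of_nonneg_left p3 (mul_nonneg hd.le hnum0)
        _ = C6 * (dep S k * num r S k * L) := by ring
        _ ≤ C6 * (c * r) := mul_le_mul_of_nonneg_left hN (by linarith)
        _ = C6 * c * r := by ring
        _ ≤ cm * r0 * r := mul_le_mul_of_nonneg_right hcC hr.le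
        _ = cm * a := by rw [ha]; ring
    refine ⟨fun ho => ?_, fun he => ?_⟩
    · exact hoddL a r Λ S k ha0 (har0.trans h03) (by linarith) hr1x hSL hd
        (hd2.trans (mul_le_mul_of_nonneg_right m3 ha0.le))
        (hd3.trans (mul_le_mul_of_nonneg_right m3 ha0.le)) (fun _ => hGt) ho
    · rcases hevenL a r Λ S k ha0 (har0.trans h04) (by linarith) hr1x hSL hd
        (hd2.trans (mul_le_mul_of_nonneg_right m4 ha0.le))
        (hd3.trans (mul_le_mul_of_nonneg_right m4 ha0.le)) (fun _ => hGt) he with h | h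
      · exact Or.inl (hmax4 _ h)
      · exact Or.inr ((hquot _ c4 p4 p3 m4).trans h)

end Pool.Agent.H76.GL
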