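import Mathlib
import Pool.Agent.H76.GL.Main

/-!
# Main2: the lattice theorem, local form (final statements)
-/

set_option autoImplicit false

open Complex

namespace Pool.Agent.H76.GL

open Pool.Agent.H76.CR Pool.Agent.H76.RP Pool.Agent.H52.RK Pool.Agent.H52.ZR Pool.Agent.H76.GS

theorem dep_nonneg' {S : Finset ℂ} {k : ℂ → ℤ} (hS : ∀ ρ ∈ S, riemannZeta ρ = 0) :
    0 ≤ dep S k := by
  unfold dep
  refine mul_nonneg (len_nonneg S k) (Finset.sum_nonneg fun ρ hρ => mul_nonneg (abs_nonneg _) ?_)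
  have := re_lt_one (hS ρ hρ)
  linarith

theorem localLattice : ∃ c C : ℝ, 0 < c ∧ 1 ≤ C ∧ ∀ (r E : ℝ) (S : Finset ℂ) (k : ℂ → ℤ), 0 < r →
    r ≤ 1 → 1 + Real.log (1 / r) ≤ E →
    (∀ ρ ∈ S, riemannZeta ρ = 0 ∧ 1 ≤ |ρ.im| ∧ Tame r E ρ.im) →
    dep S k * LL E S k ≤ c * r →
    ((∀ ρ ∈ S, zc r ρ.im ≤ 1) ∨ dep S k * num r S k * LL E S k ≤ c * r ∨
      dep S k * (len S k ^ 2 * E) * LL E S k ≤ c * r) →
    (Tame r E (comb S k) → Odd (∑ ρ ∈ S, k ρ) → 1 ≤ zc r (comb S k)) ∧
    (Tame r E (comb S k) → Even (∑ ρ ∈ S, k ρ) → |comb S k| ≤ C * dep S k ∨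
      (c * r / (dep S k * LL E S k) ≤ zc r (comb S k) ∧
        (1 ≤ |comb S k| → c * r / (dep S k * LL E S k) ≤ E))) ∧
    (r * vklam |comb S k| ≤ c → Even (∑ ρ ∈ S, k ρ) ∧ |comb S k| ≤ C * dep S k) := by
  obtain ⟨c1, C1, hc1, hC1, hcore⟩ := core
  obtain ⟨CJ, hCJ, hjen⟩ := jen
  obtain ⟨c4, hc4, hc41, hlow⟩ := zc_low
  set c : ℝ := min (min (c1 / (4 * CJ)) c4) (c1 / 4) with hc
  have hc0 : 0 < c := lt_min (lt_min (by positivity) hc4) (by linarith)
  have m1 : c ≤ c1 / (4 * CJ) := (min_le_left _ _).trans (min_le_left _ _)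
  have m2 : c ≤ c4 := (min_le_left _ _).trans (min_le_right _ _)
  have m3 : c ≤ c1 / 4 := min_le_right _ _
  have m1' : 4 * CJ * c ≤ c1 := by
    rw [le_div_iff₀ (by positivity)] at m1
    linarith
  refine ⟨c, C1, hc0, hC1, ?_⟩
  intro r E S k hr hr1 hE hS hdL hN
  have hSz : ∀ ρ ∈ S, riemannZeta ρ = 0 := fun ρ hρ => (hS ρ hρ).1
  rcases le_or_gt (dep S k) 0 with hd | hd
  · have hk := dep_zero hSz hd
    have h1 : ∑ ρ ∈ S, k ρ = 0 := Finset.sum_eq_zero hk
    have h2 : comb S k = 0 := by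
      unfold comb
      refine Finset.sum_eq_zero fun ρ hρ => ?_
      rw [hk ρ hρ]
      simp
    have h3 : dep S k = 0 := by
      unfold dep len
      rw [Finset.sum_eq_zero (fun ρ hρ => by rw [hk ρ hρ]; simp), zero_mul]
    have h4 : |comb S k| ≤ C1 * dep S k := by rw [h2, h3]; simp
    refine ⟨fun _ h => ?_, fun _ _ => Or.inl h4, fun _ => ⟨?_, h4⟩⟩
    · rw [h1] at h
      exact absurd h (by decide)
    · rw [h1]
      exact Even.zero
  have hlen := len_ge hd
  have hlr : 0 ≤ Real.log (1 / r) := Real.log_nonneg (by rw [le_div_iff₀ hr]; linarith)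
  have hE1 : 1 ≤ E := by linarith
  set L : ℝ := LL E S k with hL
  set L' : ℝ := LL (E + 1) S k with hL'
  have hL1 : 1 ≤ L := by
    rw [hL]
    unfold LL
    rw [Real.le_log_iff_exp_le (by nlinarith)]
    have := Real.exp_one_lt_d9
    nlinarith
  have hLL : L' ≤ 2 * L := by
    rw [hL', hL]
    unfold LL
    have h1 : (2 + (E + 1)) * len S k ≤ ((2 + E) * len S k) ^ 2 := by
      have h2 : 3 ≤ (2 + E) * len S k := by nlinarith
      have h3 : (2 + (E + 1)) * len S k ≤ 3 * ((2 + E) * len S k) := by nlinarith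
      nlinarith
    have h2 := Real.log_le_log (by nlinarith) h1
    rw [Real.log_pow] at h2
    push_cast at h2
    exact h2
  have hL'0 : 0 < L' := by
    rw [hL']
    unfold LL
    exact Real.log_pos (by nlinarith)
  have hr2 : 0 < r / 2 := by linarith
  have hE2 : 1 + Real.log (1 / (r / 2)) ≤ E + 1 := by
    have h1 : Real.log (1 / (r / 2)) = Real.log 2 + Real.log (1 / r) := by
      rw [show 1 / (r / 2) = 2 * (1 / r) by field_simp, Real.log_mul (by norm_num) (by positivity)]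
    have h2 : Real.log 2 ≤ 1 := by
      have := Real.log_two_lt_d9
      linarith
    rw [h1]
    linarith
  have hT2 : ∀ t, Tame r E t → Tame (r / 2) (E + 1) t := fun t h =>
    (h.mono (by linarith)).mono_r (by linarith)
  have hS2 : ∀ ρ ∈ S, riemannZeta ρ = 0 ∧ 1 ≤ |ρ.im| ∧ Tame (r / 2) (E + 1) ρ.im :=
    fun ρ hρ => ⟨(hS ρ hρ).1, (hS ρ hρ).2.1, hT2 _ (hS ρ hρ).2.2⟩
  have hcc : 2 * c * r ≤ c1 * (r / 2) := by
    have := mul_le_mul_of_nonneg_right m3 hr.le
    linarith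
  have hcJ : CJ * (2 * c) * r ≤ c1 * (r / 2) := by
    have := mul_le_mul_of_nonneg_right m1' hr.le
    linarith
  have hd2 : dep S k * L' ≤ c1 * (r / 2) := by
    calc dep S k * L' ≤ dep S k * (2 * L) := mul_le_mul_of_nonneg_left hLL hd.le
      _ = 2 * (dep S k * L) := by ring
      _ ≤ 2 * (c * r) := mul_le_mul_of_nonneg_left hdL (by norm_num)
      _ = 2 * c * r := by ring
      _ ≤ c1 * (r / 2) := hcc
  have hN2 : (∀ ρ ∈ S, zc (r / 2) ρ.im ≤ 1) ∨
      dep S k * num (r / 2) S k * L' ≤ c1 * (r / 2) := by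
    rcases hN with hN | hN | hN
    · exact Or.inl fun ρ hρ => (zc_mono (by linarith) hr1 _).trans (hN ρ hρ)
    · right
      have h1 : num (r / 2) S k ≤ num r S k := by
        unfold num
        refine mul_le_mul_of_nonneg_left (Finset.sum_le_sum fun ρ _ => ?_) (len_nonneg S k)
        refine mul_le_mul_of_nonneg_left ?_ (abs_nonneg _)
        exact_mod_cast zc_mono (by linarith) hr1 _
      have h0 : 0 ≤ num r S k := by
        unfold num
        exact mul_nonneg (len_nonneg S k) (Finset.sum_nonneg fun ρ _ =>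
          mul_nonneg (abs_nonneg _) (Nat.cast_nonneg _))
      calc dep S k * num (r / 2) S k * L' ≤ dep S k * num r S k * (2 * L) :=
            mul_le_mul (mul_le_mul_of_nonneg_left h1 hd.le) hLL hL'0.le (mul_nonneg hd.le h0)
        _ = 2 * (dep S k * num r S k * L) := by ring
        _ ≤ 2 * (c * r) := mul_le_mul_of_nonneg_left hN (by norm_num)
        _ = 2 * c * r := by ring
        _ ≤ c1 * (r / 2) := hcc
    · right
      have h1 : num (r / 2) S k ≤ CJ * (len S k ^ 2 * E) := by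
        unfold num
        have h2 : ∑ ρ ∈ S, |(k ρ : ℝ)| * (zc (r / 2) ρ.im : ℝ) ≤
            ∑ ρ ∈ S, |(k ρ : ℝ)| * (CJ * E) :=
          Finset.sum_le_sum fun ρ hρ => mul_le_mul_of_nonneg_left
            (hjen r E ρ.im hr hr1 hE (hS ρ hρ).2.1 (hS ρ hρ).2.2) (abs_nonneg _)
        rw [← Finset.sum_mul] at h2
        have h3 : ∑ ρ ∈ S, |(k ρ : ℝ)| = len S k := rfl
        rw [h3] at h2
        calc len S k * ∑ ρ ∈ S, |(k ρ : ℝ)| * (zc (r / 2) ρ.im : ℝ) ≤
              len S k * (len S k * (CJ * E)) := mul_le_mul_of_nonneg_left h2 (len_nonneg S k)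
          _ = CJ * (len S k ^ 2 * E) := by ring
      have h0 : 0 ≤ CJ * (len S k ^ 2 * E) := by positivity
      calc dep S k * num (r / 2) S k * L' ≤ dep S k * (CJ * (len S k ^ 2 * E)) * (2 * L) :=
            mul_le_mul (mul_le_mul_of_nonneg_left h1 hd.le) hLL hL'0.le (mul_nonneg hd.le h0)
        _ = CJ * 2 * (dep S k * (len S k ^ 2 * E) * L) := by ring
        _ ≤ CJ * 2 * (c * r) := mul_le_mul_of_nonneg_left hN (by positivity)
        _ = CJ * (2 * c) * r := by ring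
        _ ≤ c1 * (r / 2) := hcJ
  have hmain := fun ht => hcore (r / 2) (E + 1) S k hr2 (by linarith) hE2 hS2 hd hd2 hN2 ht
  have hzc : zc (r / 2) (comb S k) ≤ zc r (comb S k) := zc_mono (by linarith) hr1 _
  have hdL0 : 0 < dep S k * L := mul_pos hd (by linarith)
  have hdL'0 : 0 < dep S k * L' := mul_pos hd hL'0
  have hq : ∀ y : ℝ, 0 ≤ y → y * (2 * c) * r ≤ c1 * (r / 2) →
      y * (c * r / (dep S k * L)) ≤ c1 * (r / 2) / (dep S k * L') := by
    intro y hy0 hy
    rw [← mul_div_assoc, div_le_div_iff₀ hdL0 hdL'0]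
    have h1 : dep S k * L' ≤ 2 * (dep S k * L) := by
      calc dep S k * L' ≤ dep S k * (2 * L) := mul_le_mul_of_nonneg_left hLL hd.le
        _ = 2 * (dep S k * L) := by ring
    have h2 : 0 ≤ y * (c * r) := by positivity
    calc y * (c * r) * (dep S k * L') ≤ y * (c * r) * (2 * (dep S k * L)) :=
          mul_le_mul_of_nonneg_left h1 h2
      _ = y * (2 * c) * r * (dep S k * L) := by ring
      _ ≤ c1 * (r / 2) * (dep S k * L) := mul_le_mul_of_nonneg_right hy hdL0.le
  refine ⟨fun ht ho => ?_, fun ht he => ?_, fun ht => ?_⟩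
  · exact ((hmain (Or.inl (hT2 _ ht))).1 ho).trans hzc
  · rcases (hmain (Or.inl (hT2 _ ht))).2 he with h | h
    · exact Or.inl h
    · right
      have h2 : c1 * (r / 2) / (dep S k * L') ≤ (zc (r / 2) (comb S k) : ℝ) := h
      refine ⟨?_, fun h1 => ?_⟩
      · have h3 := hq 1 zero_le_one (by linarith)
        rw [one_mul] at h3
        have h4 : (zc (r / 2) (comb S k) : ℝ) ≤ zc r (comb S k) := by exact_mod_cast hzc
        linarith
      · have h3 := hq CJ (by linarith) hcJ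
        have h4 := hjen r E (comb S k) hr hr1 hE h1 ht
        have h5 : CJ * (c * r / (dep S k * L)) ≤ CJ * E := h3.trans (h2.trans h4)
        exact le_of_mul_le_mul_left h5 (by linarith)
  · have hv : 0 ≤ vklam |comb S k| := by
      have := vklam_ge (abs_nonneg (comb S k))
      linarith
    have h1 : r / 2 * vklam |comb S k| ≤ c1 := by
      have h2 : r / 2 * vklam |comb S k| ≤ r * vklam |comb S k| :=
        mul_le_mul_of_nonneg_right (by linarith) hv
      linarith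
    have hz : zc r (comb S k) = 0 := hlow r |comb S k| (comb S k) hr le_rfl (ht.trans m2)
    have hz2 : zc (r / 2) (comb S k) = 0 := by omega
    have h2 := hmain (Or.inr h1)
    rcases Int.even_or_odd (∑ ρ ∈ S, k ρ) with hp | hp
    · refine ⟨hp, ?_⟩
      rcases h2.2 hp with h3 | h3
      · exact h3
      · rw [hz2, Nat.cast_zero] at h3
        have : 0 < c1 * (r / 2) / (dep S k * L') := by positivity
        have h4 : c1 * (r / 2) / (dep S k * LL (E + 1) S k) ≤ 0 := h3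
        linarith
    · have := h2.1 hp
      omega

theorem localDH : ∃ c : ℝ, 0 < c ∧ ∀ (r E : ℝ) (S : Finset ℂ) (k : ℂ → ℤ) (ρ₀ : ℂ), 0 < r →
    r ≤ 1 → 1 + Real.log (1 / r) ≤ E →
    (∀ ρ ∈ S, riemannZeta ρ = 0 ∧ 1 ≤ |ρ.im| ∧ Tame r E ρ.im ∧ zc r ρ.im ≤ 1) →
    riemannZeta ρ₀ = 0 → 1 ≤ |ρ₀.im| → Tame r E ρ₀.im → zc r ρ₀.im ≤ 1 →
    r ≤ |ρ₀.im + comb S k| →
    ((Tame r E (ρ₀.im + comb S k) ∧ zc r (ρ₀.im + comb S k) = 0) ∨
      r * vklam |ρ₀.im + comb S k| ≤ c) → 0 < dep S k →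
    c * r * min 1 (Real.log (c * r / (dep S k * LL E S k)) / LL E S k) ≤ 1 - ρ₀.re := by
  obtain ⟨r1, c1, hr1, hr1', hc1, hdh⟩ := dhI
  obtain ⟨CT, hCT, hgT⟩ := grT
  obtain ⟨CR, hCR, hgR⟩ := grR
  obtain ⟨c4, hc4, hc41, hlow⟩ := zc_low
  set C0 : ℝ := CT + CR with hC0
  have hC01 : 1 ≤ C0 := by linarith
  obtain ⟨C6, hC6, hpar⟩ := params (r0 := r1) (CT := C0) hr1 (by linarith) hC01
  set c : ℝ := min c4 (c1 * r1 / C6) with hc
  have hc0 : 0 < c := lt_min hc4 (by positivity)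
  have m1 : c ≤ c4 := min_le_left _ _
  have hcC : C6 * c ≤ c1 * r1 := by
    have h := min_le_right c4 (c1 * r1 / C6)
    rw [← hc, le_div_iff₀ (by linarith)] at h
    linarith
  refine ⟨c, hc0, ?_⟩
  intro r E S k ρ₀ hr hr1x hE hS hz0 him0 hT0 hI0 hr0 ht hd
  have hlen := len_ge hd
  have hE1 : 1 ≤ E := by
    have : 0 ≤ Real.log (1 / r) := Real.log_nonneg (by rw [le_div_iff₀ hr]; linarith)
    linarith
  obtain ⟨p1, p2, p3, p4, p5⟩ := hpar r E (len S k) hr hr1x hE hlen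
  set a : ℝ := r1 * r with ha
  have ha0 : 0 < a := mul_pos hr1 hr
  have har0 : a ≤ r1 := by rw [ha]; nlinarith
  have h4a : 4 * a ≤ r := by rw [ha]; nlinarith
  have hla : 0 ≤ Real.log (1 / a) := Real.log_nonneg (by rw [le_div_iff₀ ha0]; linarith)
  set Λ : ℝ := C0 * (E + Real.log (1 / a)) with hΛ
  have hLLdef : LL E S k = Real.log ((2 + E) * len S k) := rfl
  rw [hLLdef]
  set L : ℝ := Real.log ((2 + E) * len S k) with hL
  have hGrT : ∀ t, Tame r E t → Gr a t Λ := fun t h =>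
    (hgT a r E t ha0 h4a hr1x hE1 h).mono (by
      rw [hΛ, hC0]
      have : 0 ≤ CR * (E + Real.log (1 / a)) := by positivity
      linarith)
  have hGt : Gr a (ρ₀.im + comb S k) Λ := by
    rcases ht with h | h
    · exact hGrT _ h.1
    · refine (hgR a r (ρ₀.im + comb S k) ha0 (by linarith) (by linarith) hr1x
        (h.trans (m1.trans hc41))).mono ?_
      rw [hΛ, hC0]
      have h1 : CR * (1 + Real.log (1 / a)) ≤ CR * (E + Real.log (1 / a)) :=
        mul_le_mul_of_nonneg_left (by linarith) (by linarith)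
      have h2 : 0 ≤ CT * (E + Real.log (1 / a)) := by positivity
      linarith
  have hzt : zc r (ρ₀.im + comb S k) = 0 := by
    rcases ht with h | h
    · exact h.2
    · exact hlow r |ρ₀.im + comb S k| _ hr le_rfl (h.trans m1)
  have hmain := hdh a r Λ S k ρ₀ ha0 har0 (by linarith) hr1x
    (fun ρ hρ => ⟨(hS ρ hρ).1, (hS ρ hρ).2.1, (hS ρ hρ).2.2.2, hGrT _ (hS ρ hρ).2.2.1⟩)
    hz0 him0 hI0 (hGrT _ hT0) (by linarith) hGt hzt hd
  set M : ℝ := Real.log (3 * Λ * len S k) with hM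
  have hM0 : 0 < M := p5
  have hML : M ≤ C6 * L := p2
  have hL0 : 0 < L := by linarith
  have hdL0 : 0 < dep S k * L := mul_pos hd hL0
  have hlt := re_lt_one hz0
  set X : ℝ := Real.log (c * r / (dep S k * L)) with hX
  rcases le_or_gt X 0 with hX0 | hX0
  · have h1 : X / L ≤ 0 := div_nonpos_of_nonpos_of_nonneg hX0 hL0.le
    have h2 : min 1 (X / L) ≤ 0 := (min_le_right _ _).trans h1
    have h3 : c * r * min 1 (X / L) ≤ 0 := mul_nonpos_of_nonneg_of_nonpos (by positivity) h2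
    linarith
  have hca : C6 * c * r ≤ c1 * a := by
    calc C6 * c * r ≤ c1 * r1 * r := mul_le_mul_of_nonneg_right hcC hr.le
      _ = c1 * a := by rw [ha]; ring
  have hY : X ≤ Real.log (c1 * a / (dep S k * M)) := by
    rw [hX]
    refine Real.log_le_log (by positivity) ?_
    rw [div_le_div_iff₀ hdL0 (mul_pos hd hM0)]
    calc c * r * (dep S k * M) ≤ c * r * (dep S k * (C6 * L)) :=
          mul_le_mul_of_nonneg_left (mul_le_mul_of_nonneg_left hML hd.le) (by positivity)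
      _ = C6 * c * r * (dep S k * L) := by ring
      _ ≤ c1 * a * (dep S k * L) := mul_le_mul_of_nonneg_right hca hdL0.le
  refine le_trans ?_ hmain
  have h1 : min 1 (X / L) ≤ C6 * min 1 (Real.log (c1 * a / (dep S k * M)) / M) := by
    rw [mul_min_of_nonneg _ _ (by linarith : (0 : ℝ) ≤ C6)]
    refine le_min ((min_le_left _ _).trans (by linarith)) ((min_le_right _ _).trans ?_)
    rw [← mul_div_assoc, div_le_div_iff₀ hL0 hM0]
    have h2 : X * M ≤ X * (C6 * L) := mul_le_mul_of_nonneg_left hML hX0.le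
    have h3 : C6 * X * L ≤ C6 * Real.log (c1 * a / (dep S k * M)) * L :=
      mul_le_mul_of_nonneg_right (mul_le_mul_of_nonneg_left hY (by linarith)) hL0.le
    linarith
  have hmin0 : 0 ≤ min 1 (Real.log (c1 * a / (dep S k * M)) / M) :=
    le_min zero_le_one (div_nonneg (hX0.le.trans hY) hM0.le)
  calc c * r * min 1 (X / L) ≤ c * r * (C6 * min 1 (Real.log (c1 * a / (dep S k * M)) / M)) :=
        mul_le_mul_of_nonneg_left h1 (by positivity)
    _ = C6 * c * r * min 1 (Real.log (c1 * a / (dep S k * M)) / M) := by ring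
    _ ≤ c1 * a * min 1 (Real.log (c1 * a / (dep S k * M)) / M) :=
        mul_le_mul_of_nonneg_right hca hmin0

end Pool.Agent.H76.GL
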