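import Mathlib
import Pool.Agent.H76.GL.Defs
import Pool.Agent.H52.RK.Grow
import Pool.Agent.H76.VK.Richert

/-!
# TameR: Richert's bound as tameness

PROOF.  Let `‖s - (1+it)‖ ≤ r ≤ 1/4`, `2r ≤ |t| ≤ T`.  If `|Im s| ≥ 2`: Richert's bound
`‖ζ(s)‖ ≤ C0 |Im s|^(B r^(3/2)) log |Im s|` with `log |Im s| ≤ 2 log T`.  If `|Im s| < 2`: `‖s - 1‖ ≥ |t| - r ≥ r` and
`‖s - 1‖ ‖ζ(s)‖ = ‖zetaPole s‖ ≤ 2 (1 + ‖s‖)^2 ≤ 54`.  For `T ≥ C`: `loglog T ≥ 1`.
-/

set_option autoImplicit false

open Complex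

namespace Pool.Agent.H76.GL

open Pool.Agent.H6 Pool.Agent.H76.CR

theorem tameR : ∃ C : ℝ, 1 ≤ C ∧ ∀ r T t : ℝ, 0 < r → r ≤ 1 / 4 → C ≤ T → 2 * r ≤ |t| → |t| ≤ T →
    Tame r (C * (r ^ (3 / 2 : ℝ) * Real.log T + Real.log (Real.log T) + Real.log (1 / r))) t := by
  obtain ⟨B, C0, hB, hC0, hR0⟩ := Pool.Agent.H76.VK.richert
  have hlC : 0 ≤ Real.log (2 * C0) := Real.log_nonneg (by linarith)
  have hee : 0 < Real.exp (Real.exp 1) := Real.exp_pos _
  refine ⟨2 * B + Real.log (2 * C0) + 10 + Real.exp (Real.exp 1), by linarith, ?_⟩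
  set C : ℝ := 2 * B + Real.log (2 * C0) + 10 + Real.exp (Real.exp 1) with hC
  intro r T t hr hr4 hT ht2 htT s hs
  have hTe : Real.exp (Real.exp 1) ≤ T := by linarith
  have hT10 : 10 ≤ T := by linarith
  have hlT : Real.exp 1 ≤ Real.log T := (Real.le_log_iff_exp_le (by linarith)).2 hTe
  have he1 : 0 < Real.exp 1 := Real.exp_pos 1
  have hY1 : 1 ≤ Real.log (Real.log T) := (Real.le_log_iff_exp_le (by linarith)).2 hlT
  have hZ0 : 0 ≤ Real.log (1 / r) := Real.log_nonneg (by rw [le_div_iff₀ hr]; linarith)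
  have hRp : 0 ≤ r ^ (3 / 2 : ℝ) := Real.rpow_nonneg hr.le _
  set X : ℝ := r ^ (3 / 2 : ℝ) * Real.log T with hX
  set Y : ℝ := Real.log (Real.log T) with hY
  set Z : ℝ := Real.log (1 / r) with hZ
  have hlT0 : 0 < Real.log T := by linarith
  have hX0 : 0 ≤ X := by positivity
  have hre0 : |s.re - 1| ≤ r := by
    have h1 := (Complex.abs_re_le_norm (s - (1 + t * I))).trans hs
    simpa using h1
  have him0 : |s.im - t| ≤ r := by
    have h1 := (Complex.abs_im_le_norm (s - (1 + t * I))).trans hs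
    simpa using h1
  have hre1 := abs_le.1 hre0
  have him : |s.im| ≤ |t| + r := by
    calc |s.im| = |(s.im - t) + t| := by rw [sub_add_cancel]
      _ ≤ |s.im - t| + |t| := abs_add_le _ _
      _ ≤ _ := by linarith
  by_cases h2 : 2 ≤ |s.im|
  · have hrr := hR0 s (by linarith) h2
    have hsim : 0 < |s.im| := by linarith
    have hlog : Real.log |s.im| ≤ 2 * Real.log T := by
      have h3 : |s.im| ≤ T ^ 2 := by nlinarith
      calc Real.log |s.im| ≤ Real.log (T ^ 2) := Real.log_le_log hsim h3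
        _ = 2 * Real.log T := by rw [Real.log_pow]; norm_num
    have hlog0 : 0 ≤ Real.log |s.im| := Real.log_nonneg (by linarith)
    have hmax : max (1 - s.re) 0 ≤ r := max_le (by linarith) hr.le
    have hmp : max (1 - s.re) 0 ^ (3 / 2 : ℝ) ≤ r ^ (3 / 2 : ℝ) :=
      Real.rpow_le_rpow (le_max_right _ _) hmax (by norm_num)
    have hp1 : |s.im| ^ (B * max (1 - s.re) 0 ^ (3 / 2 : ℝ)) ≤ Real.exp (2 * B * X) := by
      rw [Real.rpow_def_of_pos hsim]
      apply Real.exp_le_exp.2
      calc Real.log |s.im| * (B * max (1 - s.re) 0 ^ (3 / 2 : ℝ))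
          ≤ (2 * Real.log T) * (B * r ^ (3 / 2 : ℝ)) := by gcongr
        _ = 2 * B * X := by rw [hX]; ring
    have hexpY : Real.exp Y = Real.log T := Real.exp_log hlT0
    have hC0p : 0 < C0 := by linarith
    calc ‖riemannZeta s‖ ≤ _ := hrr
      _ ≤ C0 * Real.exp (2 * B * X) * (2 * Real.log T) := by gcongr
      _ = (2 * C0) * Real.exp (2 * B * X) * Real.exp Y := by rw [hexpY]; ring
      _ = Real.exp (Real.log (2 * C0)) * Real.exp (2 * B * X) * Real.exp Y := by
          rw [show Real.exp (Real.log (2 * C0)) = 2 * C0 from Real.exp_log (by linarith)]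
      _ = Real.exp (Real.log (2 * C0) + 2 * B * X + Y) := by rw [Real.exp_add, Real.exp_add]
      _ ≤ Real.exp (C * (X + Y + Z)) := by
          apply Real.exp_le_exp.2
          have f1 : 2 * B * X ≤ C * X := mul_le_mul_of_nonneg_right (by linarith) hX0
          have f2 : (Real.log (2 * C0) + 1) * Y ≤ C * Y :=
            mul_le_mul_of_nonneg_right (by linarith) (by linarith)
          have f3 : 0 ≤ C * Z := mul_nonneg (by linarith) hZ0
          have f4 : C * (X + Y + Z) = C * X + C * Y + C * Z := by ring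
          have f5 : Real.log (2 * C0) ≤ Real.log (2 * C0) * Y := le_mul_of_one_le_right hlC hY1
          linarith
  · push Not at h2
    have hsn : ‖s‖ ≤ 13 / 4 := by
      have e1 := Complex.norm_le_abs_re_add_abs_im s
      have e2 : |s.re| ≤ 5 / 4 := by
        rw [abs_le]
        constructor <;> linarith [hre1.1, hre1.2]
      linarith
    have hs1 : r ≤ ‖s - 1‖ := by
      have e1 := Complex.abs_im_le_norm (s - 1)
      rw [Complex.sub_im, Complex.one_im, sub_zero] at e1
      have e2 : |t| ≤ |s.im| + r := by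
        calc |t| = |s.im - (s.im - t)| := by congr 1; ring
          _ ≤ |s.im| + |s.im - t| := abs_sub _ _
          _ ≤ _ := by linarith
      linarith
    have hne : s ≠ 1 := by
      intro h
      rw [h, sub_self, norm_zero] at hs1
      linarith
    have h3 := norm_zetaPole_le (s := s) (by linarith [hre1.1])
    have h4 : zetaPole s = (s - 1) * riemannZeta s := zetaPole_of_ne hne
    rw [h4, norm_mul] at h3
    have h5 : ‖s - 1‖ * ‖riemannZeta s‖ ≤ 37 := by
      refine h3.trans ?_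
      have h0 := norm_nonneg s
      nlinarith
    have h6 : ‖riemannZeta s‖ ≤ 37 * (1 / r) := by
      rw [mul_one_div, le_div_iff₀ hr]
      calc ‖riemannZeta s‖ * r ≤ ‖riemannZeta s‖ * ‖s - 1‖ :=
            mul_le_mul_of_nonneg_left hs1 (norm_nonneg _)
        _ = ‖s - 1‖ * ‖riemannZeta s‖ := mul_comm _ _
        _ ≤ 37 := h5
    have hexpZ : Real.exp Z = 1 / r := Real.exp_log (by positivity)
    have hnum : (37 : ℝ) ≤ Real.exp 4 := by
      have := Real.exp_one_gt_d9
      have h8 : Real.exp 4 = Real.exp 1 ^ 4 := by rw [← Real.exp_nat_mul]; norm_num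
      rw [h8]
      calc (37 : ℝ) ≤ 2.7 ^ 4 := by norm_num
        _ ≤ Real.exp 1 ^ 4 := by gcongr; linarith
    calc ‖riemannZeta s‖ ≤ 37 * (1 / r) := h6
      _ ≤ Real.exp 4 * Real.exp Z := by rw [hexpZ]; gcongr
      _ = Real.exp (4 + Z) := by rw [Real.exp_add]
      _ ≤ Real.exp (C * (X + Y + Z)) := by
          apply Real.exp_le_exp.2
          have f1 : 0 ≤ C * X := mul_nonneg (by linarith) hX0
          have f2 : 4 * Y ≤ C * Y := mul_le_mul_of_nonneg_right (by linarith) (by linarith)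
          have f3 : 1 * Z ≤ C * Z := mul_le_mul_of_nonneg_right (by linarith) hZ0
          have f4 : C * (X + Y + Z) = C * X + C * Y + C * Z := by ring
          linarith

end Pool.Agent.H76.GL
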