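import Mathlib
import Pool.Agent.H76.GL.Main2
import Pool.Agent.H76.GL.TameR
import Pool.Agent.H52.RK.MainAG

/-!
# Zeros of the zeta function near the line `Re s = 1`: lattice structure and repulsion (draft)

`zc r t` (`Pool/Agent/H76/RP/Defs.lean`) is the number, with multiplicity, of the zeros `u` of `ζ` with
`|u - (1 + it)| < r`; `Tame r E t` (`Pool/Agent/H76/GL/Defs.lean`): `|ζ(s)| ≤ e^E` for `|s - (1 + it)| ≤ r`;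
`comb S k = ∑ k(ρ) Im ρ`, `len S k = ∑ |k(ρ)|`, `dep S k = (∑ |k(ρ)|) (∑ |k(ρ)| (1 - Re ρ))`
(`Pool/Agent/H76/GS/Defs.lean`); `num r S k = (∑ |k(ρ)|) (∑ |k(ρ)| zc r (Im ρ))`
(`Pool/Agent/H76/GS/DefsU.lean`); `LL E S k = log ((2 + E) ∑ |k(ρ)|)` (`Pool/Agent/H76/GL/Main.lean`);
`vklam H = (log (H + 3))^(2/3) (1 + loglog (H + 3))^(1/3)` (`Pool/Agent/H52/ZR/Low.lean`);
`Phi r T = log (2 + r^(3/2) log T + loglog T)` (`Pool/Agent/H52/RK/MainAG.lean`).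
-/

set_option autoImplicit false

open Complex

namespace Pool.Agent.H76.GL

open Pool.Agent.H76.RP Pool.Agent.H52.RK Pool.Agent.H52.ZR Pool.Agent.H76.GS

theorem result :
    (∃ c C : ℝ, 0 < c ∧ 1 ≤ C ∧ ∀ (r E : ℝ) (S : Finset ℂ) (k : ℂ → ℤ), 0 < r →
      r ≤ 1 → 1 + Real.log (1 / r) ≤ E →
      (∀ ρ ∈ S, riemannZeta ρ = 0 ∧ 1 ≤ |ρ.im| ∧ Tame r E ρ.im) →
      dep S k * LL E S k ≤ c * r →
      ((∀ ρ ∈ S, zc r ρ.im ≤ 1) ∨ dep S k * num r S k * LL E S k ≤ c * r ∨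
        dep S k * (len S k ^ 2 * E) * LL E S k ≤ c * r) →
      (Tame r E (comb S k) → Odd (∑ ρ ∈ S, k ρ) → 1 ≤ zc r (comb S k)) ∧
      (Tame r E (comb S k) → Even (∑ ρ ∈ S, k ρ) → |comb S k| ≤ C * dep S k ∨
        (c * r / (dep S k * LL E S k) ≤ zc r (comb S k) ∧
          (1 ≤ |comb S k| → c * r / (dep S k * LL E S k) ≤ E))) ∧
      (r * vklam |comb S k| ≤ c → Even (∑ ρ ∈ S, k ρ) ∧ |comb S k| ≤ C * dep S k)) ∧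
    (∃ c : ℝ, 0 < c ∧ ∀ (r E : ℝ) (S : Finset ℂ) (k : ℂ → ℤ) (ρ₀ : ℂ), 0 < r →
      r ≤ 1 → 1 + Real.log (1 / r) ≤ E →
      (∀ ρ ∈ S, riemannZeta ρ = 0 ∧ 1 ≤ |ρ.im| ∧ Tame r E ρ.im ∧ zc r ρ.im ≤ 1) →
      riemannZeta ρ₀ = 0 → 1 ≤ |ρ₀.im| → Tame r E ρ₀.im → zc r ρ₀.im ≤ 1 →
      r ≤ |ρ₀.im + comb S k| →
      ((Tame r E (ρ₀.im + comb S k) ∧ zc r (ρ₀.im + comb S k) = 0) ∨
        r * vklam |ρ₀.im + comb S k| ≤ c) → 0 < dep S k →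
      c * r * min 1 (Real.log (c * r / (dep S k * LL E S k)) / LL E S k) ≤ 1 - ρ₀.re) ∧
    (∃ C : ℝ, 1 ≤ C ∧ ∀ r T t : ℝ, 0 < r → r ≤ 1 / 4 → C ≤ T → 2 * r ≤ |t| → |t| ≤ T →
      Tame r (C * (r ^ (3 / 2 : ℝ) * Real.log T + Real.log (Real.log T) + Real.log (1 / r))) t) ∧
    (∃ c C : ℝ, 0 < c ∧ 1 ≤ C ∧ ∀ (r δ T : ℝ) (S : Finset ℂ), 0 < δ → δ < r →
      r ≤ 1 → C ≤ T → 2 ≤ S.card →
      (∀ ρ ∈ S, riemannZeta ρ = 0 ∧ 1 - δ ≤ ρ.re ∧ 1 ≤ |ρ.im| ∧ |ρ.im| ≤ T) →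
      (∀ ρ ∈ S, ∀ ρ' ∈ S, ρ ≠ ρ' → r ≤ |ρ.im - ρ'.im|) →
      c * r / (δ * Phi r T) ≤
        (∑ ρ ∈ S, (zc r ρ.im : ℝ)) / S.card +
        (∑ ρ ∈ S, ∑ ρ' ∈ S, (if ρ = ρ' then 0 else (zc r (ρ.im - ρ'.im) : ℝ))) / S.card ^ 2) :=
  ⟨localLattice, localDH, tameR, mainA⟩

end Pool.Agent.H76.GL
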